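import Mathlib

/-!
# Problem level definitions: trees, levels, narrow Aronszajn trees, embeddings

These are the definitions of the problem file, for partial orders `T : Type u`.
-/

open Cardinal Set

namespace Pool.Agent.UnivA

universe u

/-- A *tree*: a partial order with a least element in which the set of predecessors of every
element is well-ordered. -/
structure IsTree (T : Type u) [PartialOrder T] : Prop where
  least : ∃ r : T, ∀ t : T, r ≤ t
  wellOrdered : ∀ t : T, IsWellOrder {s : T // s < t} (fun a b => a < b)

/-- The level `Lev_α(T)`: the elements `t` for which the set of predecessors of `t` has order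
type `α`. -/
def lev (T : Type u) [PartialOrder T] (α : Ordinal.{u}) : Set T :=
  {t | Nonempty ({s : T // s < t} ≃o α.ToType)}

/-- A *narrow `κ`-Aronszajn tree*: a tree of height `κ` (the height is the least `α` with
`Lev_α(T) = ∅`) all of whose levels `Lev_α(T)`, `α < κ`, have cardinality less than `κ`, and
which has no cofinal branch (linearly ordered subset of order type `κ`). -/
structure IsNarrowAronszajn (κ : Cardinal.{u}) (T : Type u) [PartialOrder T] : Prop where
  tree : IsTree T
  height : IsLeast {α : Ordinal.{u} | lev T α = ∅} κ.ord
  narrow : ∀ α < κ.ord, #(lev T α) < κ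
  noBranch : ¬ ∃ B : Set T, Nonempty (B ≃o κ.ord.ToType)

/-- `S ≤* T`: there is an embedding, an injective map with `s < s' → f s < f s'`. -/
def Embeds (S T : Type u) [PartialOrder S] [PartialOrder T] : Prop :=
  ∃ f : S → T, Function.Injective f ∧ ∀ s s' : S, s < s' → f s < f s'

/-- `S ≤ T`: there is a weak embedding, a map with `s < s' → f s < f s'`. -/
def WeaklyEmbeds (S T : Type u) [PartialOrder S] [PartialOrder T] : Prop :=
  ∃ f : S → T, ∀ s s' : S, s < s' → f s < f s'

/-- `T` is a *universal* narrow `κ`-Aronszajn tree. -/
def IsUniversal (κ : Cardinal.{u}) (T : Type u) [PartialOrder T] : Prop :=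
  IsNarrowAronszajn κ T ∧
    ∀ (S : Type u) [PartialOrder S], IsNarrowAronszajn κ S → Embeds S T

end Pool.Agent.UnivA
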