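import Mathlib

/-!
# Working definitions for the theorems on universal narrow Aronszajn trees

`K` is a well-ordered index set (the levels), `TD K T` is a tree `T` with levels in `K`
given by its rank function `rk` and the restriction `res t a` (the predecessor of `t` at level
`a`, for `a ≤ rk t`).
-/

open Cardinal Set

namespace Pool.Agent.UnivA

universe u

/-- Tree data: rank and restriction. -/
structure TD (K T : Type u) [LinearOrder K] where
  rk : T → K
  res : T → K → T
  rk_res : ∀ t a, a ≤ rk t → rk (res t a) = a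
  res_rk : ∀ t, res t (rk t) = t
  res_res : ∀ t a b, a ≤ b → b ≤ rk t → res (res t b) a = res t a

/-- `K` behaves like the successor cardinal of `lam`. -/
structure IdxOK (K : Type u) [LinearOrder K] (lam : Cardinal.{u}) : Prop where
  inf : ℵ₀ ≤ lam
  ne : Nonempty K
  small : ∀ a : K, #(Iio a) ≤ lam
  bdd : ∀ S : Set K, #S ≤ lam → ∃ b, ∀ s ∈ S, s < b

/-- A narrow Aronszajn tree in the language of `TD`. -/
structure TD.Nar {K T : Type u} [LinearOrder K] (D : TD K T) (lam : Cardinal.{u}) : Prop where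
  narrow : ∀ a : K, #{t : T // D.rk t = a} ≤ lam
  full : ∀ a : K, ∃ t, D.rk t = a
  nobr : ¬ ∃ w : K → T, (∀ a, D.rk (w a) = a) ∧ ∀ a b, a ≤ b → D.res (w b) a = w a

/-- Level preserving monotone maps. -/
structure TD.Mor {K S T : Type u} [LinearOrder K] (E : TD K S) (D : TD K T) (f : S → T) :
    Prop where
  rk : ∀ p, D.rk (f p) = E.rk p
  res : ∀ p a, a ≤ E.rk p → f (E.res p a) = D.res (f p) a

/-- Control predicates on levels: where patterns must be eventually coherent. -/
structure CtlOK {K : Type u} [LinearOrder K] (lam : Cardinal.{u}) (Ctl : K → Prop) : Prop where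
  free : ∀ a, ¬ Ctl a → ∃ S : Set K, S ⊆ Iio a ∧ (∀ b < a, ∃ s ∈ S, b ≤ s) ∧ lam ^ #S ≤ lam
  pos : ∀ a, Ctl a → ∃ b, b < a
  lim : ∀ a, Ctl a → ∀ b < a, ∃ c, b < c ∧ c < a
  clos : ∀ (φ : K → K) (a : K), ∃ c, a < c ∧ Ctl c ∧ ∀ b < c, φ b < c

/-- `a` is a limit (not least, not a successor). -/
def IsLim {K : Type u} [LinearOrder K] (a : K) : Prop :=
  (∃ b, b < a) ∧ ∀ b < a, ∃ c, b < c ∧ c < a

/-- `a` has uncountable cofinality. -/
def IsUnc {K : Type u} [LinearOrder K] (a : K) : Prop :=
  ¬ ∃ S : Set K, S.Countable ∧ S ⊆ Iio a ∧ ∀ b < a, ∃ s ∈ S, b ≤ s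

section
variable {K T : Type u} [LinearOrder K]

/-- Cut a sequence off at `a`, filling up with the constant `t0`. -/
noncomputable def trunc (t0 : T) (a : K) (v : K → T) : K → T :=
  open Classical in fun x => if x < a then v x else t0

/-- A pattern of length `a`: `v x` lies on level `x` for `x < a`, and at every controlled
`c ≤ a` the sequence `v` is, on a final segment below `c`, the branch below some node of
level `c`. -/
def Pat (D : TD K T) (Ctl : K → Prop) (t0 : T) (a : K) (v : K → T) : Prop :=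
  (∀ x, a ≤ x → v x = t0) ∧ (∀ x, x < a → D.rk (v x) = x) ∧
    ∀ c, c ≤ a → Ctl c → ∃ b, b < c ∧ ∃ t, D.rk t = c ∧ ∀ x, b < x → x < c → v x = D.res t x

/-- Extra (terminal) nodes: at level `m` the sequences in `X m`. -/
structure ExtOK (D : TD K T) (Ctl : K → Prop) (t0 : T) (lam : Cardinal.{u})
    (X : K → Set (K → T)) : Prop where
  norm : ∀ m, ∀ v ∈ X m, ∀ x, m ≤ x → v x = t0
  pat : ∀ m, ∀ v ∈ X m, ∀ a, a < m → Pat D Ctl t0 a (trunc t0 a v)
  card : ∀ m, #(X m) ≤ lam

/-- The tree of patterns with extra terminal nodes. -/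
def V (D : TD K T) (Ctl : K → Prop) (t0 : T) (X : K → Set (K → T)) : Type u :=
  {p : K × (K → T) // Pat D Ctl t0 p.1 p.2 ∨ p.2 ∈ X p.1}

/-- `v` follows `t` on `[b, g)`. -/
def Follows (D : TD K T) (v : K → T) (t : T) (b g : K) : Prop :=
  ∀ x, b ≤ x → x < g → v x = D.res t x

end

end Pool.Agent.UnivA
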