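import Mathlib
import Pool.Agent.UnivA.Basic
import Pool.Agent.UnivA.Defs

/-!
# Bridge between problem level trees and tree data
-/

open Cardinal Set

namespace Pool.Agent.UnivA

universe u

section Height

variable {T : Type u} [PartialOrder T]

/-- The height of an element. -/
noncomputable def hgt (hT : IsTree T) (t : T) : Ordinal.{u} :=
  @Ordinal.type {s : T // s < t} (fun a b => a < b) (hT.wellOrdered t)

theorem mem_lev (hT : IsTree T) (t : T) (α : Ordinal.{u}) : t ∈ lev T α ↔ hgt hT t = α := by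
  have := hT.wellOrdered t
  constructor
  · rintro ⟨e⟩
    have h := Ordinal.type_eq.2 ⟨e.toRelIsoLT⟩
    exact h.trans (Ordinal.type_toType α)
  · intro h
    have h2 : Ordinal.type (fun a b : {s : T // s < t} => a < b) =
        Ordinal.type (fun a b : α.ToType => a < b) := by
      rw [Ordinal.type_toType]
      exact h
    obtain ⟨e⟩ := Ordinal.type_eq.1 h2
    exact ⟨OrderIso.ofRelIsoLT e⟩

theorem hgt_eq_typein (hT : IsTree T) {s t : T} (hst : s < t) :
    hgt hT s = @Ordinal.typein {x : T // x < t} (fun a b => a < b) (hT.wellOrdered t) ⟨s, hst⟩ := by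
  have := hT.wellOrdered t
  have := hT.wellOrdered s
  rw [← Ordinal.type_subrel]
  apply Ordinal.type_eq.2
  refine ⟨⟨⟨fun x => ⟨⟨x.1, x.2.trans hst⟩, x.2⟩, fun x => ⟨x.1.1, x.2⟩, fun x => rfl,
    fun x => rfl⟩, ?_⟩⟩
  intro a b
  exact Iff.rfl

theorem hgt_lt (hT : IsTree T) {s t : T} (hst : s < t) : hgt hT s < hgt hT t := by
  have := hT.wellOrdered t
  rw [hgt_eq_typein hT hst]
  exact Ordinal.typein_lt_type _ _

theorem exists_hgt (hT : IsTree T) {t : T} {α : Ordinal.{u}} (h : α < hgt hT t) :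
    ∃ s, s < t ∧ hgt hT s = α := by
  have := hT.wellOrdered t
  obtain ⟨x, hx⟩ := Ordinal.typein_surj (fun a b : {s : T // s < t} => a < b) h
  exact ⟨x.1, x.2, (hgt_eq_typein hT x.2).trans hx⟩

theorem hgt_inj (hT : IsTree T) {s s' t : T} (hs : s ≤ t) (hs' : s' ≤ t)
    (h : hgt hT s = hgt hT s') : s = s' := by
  rcases hs.eq_or_lt with rfl | hs1
  · rcases hs'.eq_or_lt with h1 | h1
    · exact h1.symm
    · exact absurd h (hgt_lt hT h1).ne'
  · rcases hs'.eq_or_lt with rfl | h1
    · exact absurd h (hgt_lt hT hs1).ne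
    · have := hT.wellOrdered t
      rw [hgt_eq_typein hT hs1, hgt_eq_typein hT h1] at h
      exact congrArg Subtype.val (Ordinal.typein_injective _ h)

/-- In a tree the predecessors of an element are ordered by height. -/
theorem le_of_hgt_le (hT : IsTree T) {s s' t : T} (hs : s ≤ t) (hs' : s' ≤ t)
    (h : hgt hT s ≤ hgt hT s') : s ≤ s' := by
  rcases h.eq_or_lt with h1 | h1
  · exact (hgt_inj hT hs hs' h1).le
  · obtain ⟨x, hx, hxs⟩ := exists_hgt hT h1
    rw [← hgt_inj hT (hx.le.trans hs') hs hxs]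
    exact hx.le

end Height

section ToTD

variable {κ : Cardinal.{u}} {T : Type u} [PartialOrder T]

theorem hgt_lt_ord (hT : IsNarrowAronszajn κ T) (t : T) : hgt hT.tree t < κ.ord := by
  by_contra h
  rw [not_lt] at h
  have h0 : lev T κ.ord = ∅ := hT.height.1
  rcases h.eq_or_lt with h1 | h1
  · have : t ∈ lev T κ.ord := (mem_lev hT.tree t _).2 h1.symm
    rw [h0] at this
    exact this
  · obtain ⟨s, -, hs⟩ := exists_hgt hT.tree h1
    have : s ∈ lev T κ.ord := (mem_lev hT.tree s _).2 hs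
    rw [h0] at this
    exact this

/-- The rank in `κ.ord.ToType`. -/
noncomputable def rkT (hT : IsNarrowAronszajn κ T) (t : T) : κ.ord.ToType :=
  Ordinal.ToType.mk ⟨hgt hT.tree t, hgt_lt_ord hT t⟩

theorem rkT_le_iff (hT : IsNarrowAronszajn κ T) (s t : T) :
    rkT hT s ≤ rkT hT t ↔ hgt hT.tree s ≤ hgt hT.tree t := by
  unfold rkT
  rw [OrderIso.le_iff_le, Subtype.mk_le_mk]

theorem rkT_lt_iff (hT : IsNarrowAronszajn κ T) (s t : T) :
    rkT hT s < rkT hT t ↔ hgt hT.tree s < hgt hT.tree t := by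
  rw [← not_le, ← not_le, rkT_le_iff]

theorem rkT_eq_iff (hT : IsNarrowAronszajn κ T) (s t : T) :
    rkT hT s = rkT hT t ↔ hgt hT.tree s = hgt hT.tree t := by
  rw [le_antisymm_iff, rkT_le_iff, rkT_le_iff, ← le_antisymm_iff]

theorem rkT_eq (hT : IsNarrowAronszajn κ T) (t : T) (a : κ.ord.ToType) :
    rkT hT t = a ↔ hgt hT.tree t = (Ordinal.ToType.mk.symm a).1 := by
  unfold rkT
  constructor
  · rintro rfl
    simp
  · intro h
    rw [← OrderIso.apply_symm_apply Ordinal.ToType.mk a]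
    congr 1
    exact Subtype.ext h

theorem exists_res (hT : IsNarrowAronszajn κ T) (t : T) (a : κ.ord.ToType) (ha : a ≤ rkT hT t) :
    ∃ s, s ≤ t ∧ rkT hT s = a := by
  rcases ha.eq_or_lt with h | h
  · exact ⟨t, le_rfl, h.symm⟩
  · have h1 : (Ordinal.ToType.mk.symm a).1 < hgt hT.tree t := by
      have h2 := (OrderIso.lt_iff_lt Ordinal.ToType.mk.symm).2 h
      have h3 : (Ordinal.ToType.mk.symm (rkT hT t)).1 = hgt hT.tree t := by
        unfold rkT
        simp
      rw [← h3]
      exact h2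
    obtain ⟨s, hs, hs2⟩ := exists_hgt hT.tree h1
    exact ⟨s, hs.le, (rkT_eq hT s a).2 hs2⟩

/-- Restriction. -/
noncomputable def resT (hT : IsNarrowAronszajn κ T) (t : T) (a : κ.ord.ToType) : T :=
  open Classical in if h : a ≤ rkT hT t then (exists_res hT t a h).choose else t

theorem resT_le (hT : IsNarrowAronszajn κ T) (t : T) (a : κ.ord.ToType) (ha : a ≤ rkT hT t) :
    resT hT t a ≤ t := by
  unfold resT
  rw [dif_pos ha]
  exact (exists_res hT t a ha).choose_spec.1

theorem rk_resT (hT : IsNarrowAronszajn κ T) (t : T) (a : κ.ord.ToType) (ha : a ≤ rkT hT t) :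
    rkT hT (resT hT t a) = a := by
  unfold resT
  rw [dif_pos ha]
  exact (exists_res hT t a ha).choose_spec.2

theorem resT_unique (hT : IsNarrowAronszajn κ T) {s t : T} (hs : s ≤ t) :
    resT hT t (rkT hT s) = s := by
  have h1 : rkT hT s ≤ rkT hT t := by
    rw [rkT_le_iff]
    rcases hs.eq_or_lt with rfl | h
    · exact le_rfl
    · exact (hgt_lt hT.tree h).le
  exact hgt_inj hT.tree (resT_le hT t _ h1) hs ((rkT_eq_iff hT _ _).1 (rk_resT hT t _ h1))

/-- The tree data of a narrow Aronszajn tree. -/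
noncomputable def toTD (hT : IsNarrowAronszajn κ T) : TD κ.ord.ToType T where
  rk := rkT hT
  res := resT hT
  rk_res := rk_resT hT
  res_rk t := resT_unique hT le_rfl
  res_res t a b hab hb := by
    have h1 : a ≤ rkT hT (resT hT t b) := by rw [rk_resT hT t b hb]; exact hab
    have h2 : resT hT (resT hT t b) a ≤ t := (resT_le hT _ _ h1).trans (resT_le hT _ _ hb)
    have h3 := resT_unique hT h2
    rw [rk_resT hT _ _ h1] at h3
    exact h3.symm

theorem toTD_lt (hT : IsNarrowAronszajn κ T) {s t : T} (h : s < t) :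
    (toTD hT).rk s < (toTD hT).rk t ∧ (toTD hT).res t ((toTD hT).rk s) = s :=
  ⟨(rkT_lt_iff hT s t).2 (hgt_lt hT.tree h), resT_unique hT h.le⟩

theorem toTD_res_lt (hT : IsNarrowAronszajn κ T) {t : T} {a : κ.ord.ToType}
    (ha : a < (toTD hT).rk t) : (toTD hT).res t a < t := by
  have h1 := resT_le hT t a (le_of_lt ha)
  refine lt_of_le_of_ne h1 fun h2 => ?_
  have h3 : (toTD hT).rk ((toTD hT).res t a) = a := rk_resT hT t a (le_of_lt ha)
  rw [h2] at h3
  exact absurd h3.symm (ne_of_lt ha)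

theorem toTD_nar {lam : Cardinal.{u}} {T : Type u} [PartialOrder T]
    (hT : IsNarrowAronszajn (Order.succ lam) T) : (toTD hT).Nar lam := by
  have hlev : ∀ a : (Order.succ lam).ord.ToType, {t : T | (toTD hT).rk t = a} =
      lev T (Ordinal.ToType.mk.symm a).1 := by
    intro a
    ext t
    rw [mem_lev hT.tree]
    exact rkT_eq hT t a
  refine ⟨fun a => ?_, fun a => ?_, ?_⟩
  · have h1 : #{t : T // (toTD hT).rk t = a} = #(lev T (Ordinal.ToType.mk.symm a).1) := by
      rw [← hlev a]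
      rfl
    rw [h1]
    exact Order.lt_succ_iff.1 (hT.narrow _ (Ordinal.ToType.mk.symm a).2)
  · by_contra hcon
    push Not at hcon
    have h1 : lev T (Ordinal.ToType.mk.symm a).1 = ∅ := by
      rw [← hlev a]
      exact Set.eq_empty_iff_forall_notMem.2 hcon
    exact absurd (Ordinal.ToType.mk.symm a).2 (not_lt.2 (hT.height.2 h1))
  · rintro ⟨w, hw1, hw2⟩
    apply hT.noBranch
    have hmono : StrictMono w := by
      intro a b hab
      have h1 := toTD_res_lt hT (t := w b) (a := a) (by rw [hw1 b]; exact hab)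
      rw [hw2 a b hab.le] at h1
      exact h1
    exact ⟨Set.range w, ⟨(hmono.orderIso w).symm⟩⟩

end ToTD

section OfTD

variable {K S : Type u} [LinearOrder K]

/-- The partial order of tree data. -/
@[reducible] def TD.order (E : TD K S) : PartialOrder S where
  le p q := E.rk p ≤ E.rk q ∧ E.res q (E.rk p) = p
  le_refl p := ⟨le_rfl, E.res_rk p⟩
  le_trans p q r hpq hqr := by
    refine ⟨hpq.1.trans hqr.1, ?_⟩
    rw [← E.res_res r _ _ hpq.1 hqr.1, hqr.2, hpq.2]
  le_antisymm p q hpq hqp := by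
    have h : E.rk p = E.rk q := le_antisymm hpq.1 hqp.1
    rw [← hpq.2, h, E.res_rk]

theorem TD.lt_iff (E : TD K S) (p q : S) :
    (@LT.lt S E.order.toLT p q) ↔ E.rk p < E.rk q ∧ E.res q (E.rk p) = p := by
  constructor
  · rintro ⟨h1, h2⟩
    refine ⟨lt_of_le_of_ne h1.1 fun h => h2 ?_, h1.2⟩
    have : p = q := by rw [← h1.2, h, E.res_rk]
    subst this
    exact ⟨le_rfl, E.res_rk p⟩
  · rintro ⟨h1, h2⟩
    exact ⟨⟨h1.le, h2⟩, fun h => absurd h.1 (not_le.2 h1)⟩

/-- The predecessors of `t` are the levels below the level of `t`. -/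
noncomputable def TD.predIso (E : TD K S) (t : S) :
    (letI := E.order; {s : S // s < t} ≃o Iio (E.rk t)) :=
  letI := E.order
  { toFun := fun s => ⟨E.rk s.1, ((E.lt_iff _ _).1 s.2).1⟩
    invFun := fun a => ⟨E.res t a.1, (E.lt_iff _ _).2 (by
      have h := E.rk_res t a.1 (le_of_lt a.2)
      rw [h]
      exact ⟨a.2, rfl⟩)⟩
    left_inv := fun s => Subtype.ext ((E.lt_iff _ _).1 s.2).2
    right_inv := fun a => Subtype.ext (E.rk_res t a.1 (le_of_lt a.2))
    map_rel_iff' := by
      intro s s'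
      constructor
      · intro h
        have h' : E.rk s.1 ≤ E.rk s'.1 := h
        refine ⟨h', ?_⟩
        have h1 := ((E.lt_iff _ _).1 s.2)
        have h2 := ((E.lt_iff _ _).1 s'.2)
        rw [← h2.2, E.res_res t _ _ h' h2.1.le, h1.2]
      · intro h
        have h' : s.1 ≤ s'.1 := h
        exact h'.1 }

end OfTD

section OfTD2

variable {κ : Cardinal.{u}} {S : Type u}

theorem mem_lev_order (E : TD κ.ord.ToType S) (t : S) (α : Ordinal.{u}) :
    (t ∈ @lev S E.order α) ↔ (Ordinal.ToType.mk.symm (E.rk t)).1 = α := by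
  let _ := E.order
  have hty : Ordinal.type (fun a b : Iio (E.rk t) => a < b) =
      (Ordinal.ToType.mk.symm (E.rk t)).1 := rfl
  constructor
  · rintro ⟨e⟩
    have e' : Iio (E.rk t) ≃o α.ToType := (E.predIso t).symm.trans e
    have h := Ordinal.type_eq.2 ⟨e'.toRelIsoLT⟩
    rw [← hty]
    exact h.trans (Ordinal.type_toType α)
  · intro h
    have h2 : Ordinal.type (fun a b : Iio (E.rk t) => a < b) =
        Ordinal.type (fun a b : α.ToType => a < b) := by
      rw [Ordinal.type_toType, hty, h]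
    obtain ⟨e⟩ := Ordinal.type_eq.1 h2
    exact ⟨(E.predIso t).trans (OrderIso.ofRelIsoLT e)⟩

theorem ofTD_narrow {lam : Cardinal.{u}} (hlam : ℵ₀ ≤ lam)
    (E : TD (Order.succ lam).ord.ToType S) (hE : E.Nar lam)
    (hroot : ∀ bot : (Order.succ lam).ord.ToType, (∀ a, bot ≤ a) → ∃ p0, ∀ p, E.res p bot = p0) :
    @IsNarrowAronszajn (Order.succ lam) S E.order := by
  let _ := E.order
  have hne : (Order.succ lam).ord ≠ 0 := by
    rw [Ne, Cardinal.ord_eq_zero]
    exact (lt_of_lt_of_le (aleph0_pos.trans_le hlam) (Order.le_succ lam)).ne'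
  have hbot : ∃ bot : (Order.succ lam).ord.ToType, ∀ a, bot ≤ a := by
    have : Nonempty (Order.succ lam).ord.ToType := Ordinal.nonempty_toType_iff.2 hne
    let _ := WellFoundedLT.toOrderBot (Order.succ lam).ord.ToType
    exact ⟨⊥, fun a => bot_le⟩
  refine ⟨⟨?_, ?_⟩, ⟨?_, ?_⟩, ?_, ?_⟩
  · obtain ⟨bot, hbot⟩ := hbot
    obtain ⟨p0, hp0⟩ := hroot bot hbot
    refine ⟨p0, fun p => ?_⟩
    have h1 : E.rk p0 = bot := by
      rw [← hp0 p]
      exact E.rk_res p bot (hbot _)
    refine ⟨?_, ?_⟩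
    · rw [h1]; exact hbot _
    · rw [h1]; exact hp0 p
  · intro t
    exact (E.predIso t).toRelIsoLT.toRelEmbedding.isWellOrder
  · show lev S (Order.succ lam).ord = ∅
    rw [Set.eq_empty_iff_forall_notMem]
    intro t ht
    rw [mem_lev_order] at ht
    exact absurd ht (ne_of_lt (Ordinal.ToType.mk.symm (E.rk t)).2)
  · intro α hα
    by_contra hcon
    rw [not_le] at hcon
    obtain ⟨t, ht⟩ := hE.full (Ordinal.ToType.mk ⟨α, hcon⟩)
    have h1 : t ∈ lev S α := by
      rw [mem_lev_order, ht]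
      simp
    have h2 : lev S α = ∅ := hα
    rw [h2] at h1
    exact h1
  · intro α hα
    have h1 : #(lev S α) ≤ #{t : S // E.rk t = Ordinal.ToType.mk ⟨α, hα⟩} := by
      apply mk_le_mk_of_subset
      intro t ht
      rw [mem_lev_order] at ht
      show E.rk t = Ordinal.ToType.mk ⟨α, hα⟩
      rw [← OrderIso.apply_symm_apply Ordinal.ToType.mk (E.rk t)]
      congr 1
      exact Subtype.ext ht
    exact Order.lt_succ_iff.2 (h1.trans (hE.narrow _))
  · rintro ⟨B, ⟨e⟩⟩
    apply hE.nobr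
    let v : (Order.succ lam).ord.ToType → S := fun a => (e.symm a).1
    have hv : ∀ a b, a < b → E.rk (v a) < E.rk (v b) ∧ E.res (v b) (E.rk (v a)) = v a := by
      intro a b hab
      have h1 : e.symm a < e.symm b := e.symm.strictMono hab
      exact (E.lt_iff _ _).1 h1
    have hmono : StrictMono (fun a => E.rk (v a)) := fun a b hab => (hv a b hab).1
    have hle : ∀ a, a ≤ E.rk (v a) := fun a => hmono.le_apply
    refine ⟨fun a => E.res (v a) a, fun a => E.rk_res _ _ (hle a), fun a b hab => ?_⟩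
    show E.res (E.res (v b) b) a = E.res (v a) a
    rw [E.res_res _ a b hab (hle b)]
    rcases hab.eq_or_lt with rfl | h
    · rfl
    · rw [← (hv a b h).2, E.res_res _ a _ (hle a) (hv a b h).1.le]

end OfTD2

section Final

/-- A weak embedding gives a level preserving monotone map. -/
theorem mor_of_weak {lam : Cardinal.{u}} {S T : Type u} [PartialOrder T]
    (hT : IsNarrowAronszajn (Order.succ lam) T) (E : TD (Order.succ lam).ord.ToType S)
    (g : S → T) (hg : ∀ s s' : S, (@LT.lt S E.order.toLT s s') → g s < g s') :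
    E.Mor (toTD hT) (fun p => (toTD hT).res (g p) (E.rk p)) := by
  have hle : ∀ a : (Order.succ lam).ord.ToType, ∀ p, E.rk p = a → a ≤ (toTD hT).rk (g p) := by
    intro a
    induction a using WellFoundedLT.induction with
    | _ a ih =>
      intro p hp
      by_contra hcon
      rw [not_le] at hcon
      have h1 : (toTD hT).rk (g p) < E.rk p := by rw [hp]; exact hcon
      have h2 : E.rk (E.res p ((toTD hT).rk (g p))) = (toTD hT).rk (g p) := E.rk_res _ _ h1.le
      have h3 : @LT.lt S E.order.toLT (E.res p ((toTD hT).rk (g p))) p := by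
        rw [E.lt_iff, h2]
        exact ⟨h1, rfl⟩
      have h4 := (toTD_lt hT (hg _ _ h3)).1
      have h5 := ih _ hcon _ h2
      exact absurd h4 (not_lt.2 h5)
  refine ⟨fun p => (toTD hT).rk_res _ _ (hle _ p rfl), fun p a ha => ?_⟩
  show (toTD hT).res (g (E.res p a)) (E.rk (E.res p a)) =
    (toTD hT).res ((toTD hT).res (g p) (E.rk p)) a
  rw [E.rk_res p a ha, (toTD hT).res_res _ a _ ha (hle _ p rfl)]
  rcases ha.eq_or_lt with rfl | h
  · rw [E.res_rk]
  · have h2 := E.rk_res p a ha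
    have h3 : @LT.lt S E.order.toLT (E.res p a) p := by
      rw [E.lt_iff, h2]
      exact ⟨h, rfl⟩
    have h4 := toTD_lt hT (hg _ _ h3)
    rw [← h4.2]
    rw [(toTD hT).res_res _ a _ (hle a _ h2) h4.1.le]

theorem idxOK_succ {lam : Cardinal.{u}} (hlam : ℵ₀ ≤ lam) :
    IdxOK (Order.succ lam).ord.ToType lam := by
  have hreg : (Order.succ lam).IsRegular := Cardinal.isRegular_succ hlam
  refine ⟨hlam, ?_, fun a => ?_, fun S hS => ?_⟩
  · rw [Ordinal.nonempty_toType_iff, Ne, Cardinal.ord_eq_zero]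
    exact (lt_of_lt_of_le (aleph0_pos.trans_le hlam) (Order.le_succ lam)).ne'
  · have h : #(Iio a) < Order.succ lam := by simpa using Cardinal.mk_Iio_lt a (by simp)
    exact Order.lt_succ_iff.1 h
  · by_contra hcon
    push Not at hcon
    have h2 : Order.cof (Order.succ lam).ord.ToType ≤ #S := Order.cof_le hcon
    rw [Ordinal.cof_toType, hreg.cof_ord] at h2
    exact absurd (h2.trans hS) (not_le.2 (Order.lt_succ lam))

/-- **Bridge.** -/
theorem bridge {lam : Cardinal.{u}} (hlam : ℵ₀ ≤ lam)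
    (H : ∀ (T : Type u) (D : TD (Order.succ lam).ord.ToType T), D.Nar lam →
      ∃ (S : Type u) (E : TD (Order.succ lam).ord.ToType S), E.Nar lam ∧
        (∀ bot : (Order.succ lam).ord.ToType, (∀ a, bot ≤ a) → ∃ p0, ∀ p, E.res p bot = p0) ∧
        ∀ f : S → T, ¬ E.Mor D f)
    (T : Type u) [PartialOrder T] (hT : IsNarrowAronszajn (Order.succ lam) T) :
    ∃ (S : Type u) (_ : PartialOrder S), IsNarrowAronszajn (Order.succ lam) S ∧
      ¬ WeaklyEmbeds S T := by
  obtain ⟨S, E, hE, hroot, hmor⟩ := H T (toTD hT) (toTD_nar hT)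
  refine ⟨S, E.order, ofTD_narrow hlam E hE hroot, ?_⟩
  rintro ⟨g, hg⟩
  exact hmor _ (mor_of_weak hT E g hg)

theorem not_universal {κ : Cardinal.{u}}
    (H : ∀ (T : Type u) [PartialOrder T], IsNarrowAronszajn κ T →
      ∃ (S : Type u) (_ : PartialOrder S), IsNarrowAronszajn κ S ∧ ¬ WeaklyEmbeds S T) :
    ¬ ∃ (T : Type u) (_ : PartialOrder T), IsUniversal κ T := by
  rintro ⟨T, _, hT, hU⟩
  obtain ⟨S, hS, h1, h2⟩ := H T hT
  obtain ⟨f, -, hf⟩ := hU S h1
  exact h2 ⟨f, hf⟩

end Final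

end Pool.Agent.UnivA
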