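import Mathlib
import Pool.Agent.UnivA.Basic

/-!
# Core: the tree of patterns is a narrow Aronszajn tree, and the key lemma
-/

open Cardinal Set

namespace Pool.Agent.UnivA

universe u

variable {K T : Type u} [LinearOrder K]

theorem trunc_lt (t0 : T) {a x : K} (v : K → T) (h : x < a) : trunc t0 a v x = v x := by
  simp [trunc, h]

theorem trunc_ge (t0 : T) {a x : K} (v : K → T) (h : a ≤ x) : trunc t0 a v x = t0 := by
  simp [trunc, not_lt.2 h]

theorem trunc_trunc (t0 : T) {a b : K} (v : K → T) (h : a ≤ b) :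
    trunc t0 a (trunc t0 b v) = trunc t0 a v := by
  funext x
  by_cases hx : x < a
  · rw [trunc_lt t0 _ hx, trunc_lt t0 _ hx, trunc_lt t0 _ (lt_of_lt_of_le hx h)]
  · rw [trunc_ge t0 _ (not_lt.1 hx), trunc_ge t0 _ (not_lt.1 hx)]

theorem trunc_eq_self (t0 : T) {a : K} {v : K → T} (h : ∀ x, a ≤ x → v x = t0) :
    trunc t0 a v = v := by
  funext x
  by_cases hx : x < a
  · rw [trunc_lt t0 _ hx]
  · rw [trunc_ge t0 _ (not_lt.1 hx), h x (not_lt.1 hx)]

theorem Pat_trunc {D : TD K T} {Ctl : K → Prop} {t0 : T} {a b : K} {v : K → T}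
    (h : Pat D Ctl t0 a v) (hb : b ≤ a) : Pat D Ctl t0 b (trunc t0 b v) := by
  refine ⟨fun x hx => trunc_ge t0 v hx, fun x hx => ?_, fun c hc hC => ?_⟩
  · rw [trunc_lt t0 v hx]
    exact h.2.1 x (lt_of_lt_of_le hx hb)
  · obtain ⟨b', hb', t, ht, hx⟩ := h.2.2 c (hc.trans hb) hC
    refine ⟨b', hb', t, ht, fun x h1 h2 => ?_⟩
    rw [trunc_lt t0 v (lt_of_lt_of_le h2 hc)]
    exact hx x h1 h2

/-- Restart: follow `v` below `b`, then the branch below `t`. -/
noncomputable def restart (D : TD K T) (t0 : T) (b : K) (v : K → T) (t : T) : K → T :=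
  open Classical in
    fun x => if x < b then v x else if x < D.rk t then D.res t x else t0

theorem restart_lt (D : TD K T) (t0 : T) {b x : K} (v : K → T) (t : T) (h : x < b) :
    restart D t0 b v t x = v x := by
  simp [restart, h]

theorem restart_mid (D : TD K T) (t0 : T) {b x : K} (v : K → T) (t : T) (h : b ≤ x)
    (h2 : x < D.rk t) : restart D t0 b v t x = D.res t x := by
  simp [restart, not_lt.2 h, h2]

theorem restart_ge (D : TD K T) (t0 : T) {b x : K} (v : K → T) (t : T) (h : b ≤ x)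
    (h2 : D.rk t ≤ x) : restart D t0 b v t x = t0 := by
  simp [restart, not_lt.2 h, not_lt.2 h2]

theorem Pat_restart {D : TD K T} {Ctl : K → Prop} {t0 : T} {b : K} {v : K → T} {t : T}
    (h : Pat D Ctl t0 b v) (hb : b ≤ D.rk t) :
    Pat D Ctl t0 (D.rk t) (restart D t0 b v t) := by
  refine ⟨fun x hx => restart_ge D t0 v t (hb.trans hx) hx, fun x hx => ?_, fun c hc hC => ?_⟩
  · by_cases hxb : x < b
    · rw [restart_lt D t0 v t hxb]
      exact h.2.1 x hxb
    · rw [restart_mid D t0 v t (not_lt.1 hxb) hx]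
      exact D.rk_res t x hx.le
  · by_cases hcb : c ≤ b
    · obtain ⟨b', hb', t', ht', hx⟩ := h.2.2 c hcb hC
      refine ⟨b', hb', t', ht', fun x h1 h2 => ?_⟩
      rw [restart_lt D t0 v t (lt_of_lt_of_le h2 hcb)]
      exact hx x h1 h2
    · refine ⟨b, not_le.1 hcb, D.res t c, D.rk_res t c hc, fun x h1 h2 => ?_⟩
      rw [restart_mid D t0 v t h1.le (lt_of_lt_of_le h2 hc), D.res_res t x c h2.le hc]

theorem Pat_node {D : TD K T} {lam : Cardinal.{u}} {Ctl : K → Prop} (hC : CtlOK lam Ctl)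
    (t0 : T) (t : T) : Pat D Ctl t0 (D.rk t) (trunc t0 (D.rk t) (fun x => D.res t x)) := by
  refine ⟨fun x hx => trunc_ge t0 _ hx, fun x hx => ?_, fun c hc hc' => ?_⟩
  · rw [trunc_lt t0 _ hx]
    exact D.rk_res t x hx.le
  · obtain ⟨b, hb⟩ := hC.pos c hc'
    refine ⟨b, hb, D.res t c, D.rk_res t c hc, fun x h1 h2 => ?_⟩
    rw [trunc_lt t0 _ (lt_of_lt_of_le h2 hc), D.res_res t x c h2.le hc]

section VDef

variable {D : TD K T} {Ctl : K → Prop} {t0 : T} {X : K → Set (K → T)} {lam : Cardinal.{u}}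

theorem node_norm (hX : ExtOK D Ctl t0 lam X) (p : V D Ctl t0 X) (x : K) (hx : p.1.1 ≤ x) :
    p.1.2 x = t0 := by
  rcases p.2 with h | h
  · exact h.1 x hx
  · exact hX.norm _ _ h x hx

theorem node_trunc (hX : ExtOK D Ctl t0 lam X) (p : V D Ctl t0 X) (a : K) (ha : a < p.1.1) :
    Pat D Ctl t0 a (trunc t0 a p.1.2) := by
  rcases p.2 with h | h
  · exact Pat_trunc h ha.le
  · exact hX.pat _ _ h a ha

theorem node_eq_trunc (hX : ExtOK D Ctl t0 lam X) (p : V D Ctl t0 X) :
    trunc t0 p.1.1 p.1.2 = p.1.2 :=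
  trunc_eq_self t0 (node_norm hX p)

/-- Restriction in the tree of patterns. -/
noncomputable def vres (hX : ExtOK D Ctl t0 lam X) (p : V D Ctl t0 X) (a : K) : V D Ctl t0 X :=
  open Classical in
    if h : a < p.1.1 then ⟨(a, trunc t0 a p.1.2), Or.inl (node_trunc hX p a h)⟩ else p

theorem vres_val (hX : ExtOK D Ctl t0 lam X) (p : V D Ctl t0 X) (a : K) (ha : a ≤ p.1.1) :
    (vres hX p a).1 = (a, trunc t0 a p.1.2) := by
  unfold vres
  by_cases h : a < p.1.1
  · rw [dif_pos h]
  · rw [dif_neg h]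
    have : a = p.1.1 := le_antisymm ha (not_lt.1 h)
    subst this
    rw [node_eq_trunc hX p]

/-- The tree of patterns as tree data. -/
noncomputable def VD (D : TD K T) (Ctl : K → Prop) (t0 : T) (X : K → Set (K → T))
    {lam : Cardinal.{u}} (hX : ExtOK D Ctl t0 lam X) : TD K (V D Ctl t0 X) where
  rk p := p.1.1
  res p a := vres hX p a
  rk_res p a ha := by
    show (vres hX p a).1.1 = a
    rw [vres_val hX p a ha]
  res_rk p := by
    apply Subtype.ext
    rw [vres_val hX p _ le_rfl, node_eq_trunc hX p]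
  res_res p a b hab hb := by
    apply Subtype.ext
    have h1 := vres_val hX p b hb
    have h2 : a ≤ (vres hX p b).1.1 := by rw [h1]; exact hab
    rw [vres_val hX _ a h2, h1, vres_val hX p a (hab.trans hb)]
    simp only [trunc_trunc t0 _ hab]

theorem VD_rk (hX : ExtOK D Ctl t0 lam X) (p : V D Ctl t0 X) :
    (VD D Ctl t0 X hX).rk p = p.1.1 := rfl

theorem VD_res_val (hX : ExtOK D Ctl t0 lam X) (p : V D Ctl t0 X) (a : K) (ha : a ≤ p.1.1) :
    ((VD D Ctl t0 X hX).res p a).1 = (a, trunc t0 a p.1.2) := vres_val hX p a ha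

end VDef

section Count

variable [WellFoundedLT K] {D : TD K T} {Ctl : K → Prop} {t0 : T} {lam : Cardinal.{u}}

theorem card_pat (hK : IdxOK K lam) (hT : D.Nar lam) (hC : CtlOK lam Ctl) (a : K) :
    #{v : K → T // Pat D Ctl t0 a v} ≤ lam := by
  induction a using WellFoundedLT.induction with
  | _ a ih =>
    by_cases hc : Ctl a
    · -- controlled: determined by a smaller pattern and a node
      let A := Σ b : Iio a, {w : K → T // Pat D Ctl t0 b.1 w} × {t : T // D.rk t = a}
      let G : A → (K → T) := fun z x =>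
        open Classical in
          if x < z.1.1 then z.2.1.1 x else if x < a then D.res z.2.2.1 x else t0
      have hsub : {v : K → T | Pat D Ctl t0 a v} ⊆ range G := by
        intro v hv
        obtain ⟨b, hb, t, ht, hx⟩ := hv.2.2 a le_rfl hc
        obtain ⟨b', hb1, hb2⟩ := hC.lim a hc b hb
        refine ⟨⟨⟨b', hb2⟩, ⟨trunc t0 b' v, Pat_trunc hv hb2.le⟩, ⟨t, ht⟩⟩, ?_⟩
        funext x
        show (if x < b' then trunc t0 b' v x else if x < a then D.res t x else t0) = v x
        by_cases h1 : x < b'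
        · rw [if_pos h1, trunc_lt t0 v h1]
        · rw [if_neg h1]
          by_cases h2 : x < a
          · rw [if_pos h2, hx x (lt_of_lt_of_le hb1 (not_lt.1 h1)) h2]
          · rw [if_neg h2, hv.1 x (not_lt.1 h2)]
      have h1 : #{v : K → T // Pat D Ctl t0 a v} ≤ #A :=
        (mk_le_mk_of_subset hsub).trans mk_range_le
      refine h1.trans ?_
      have h2 : #A = Cardinal.sum (fun b : Iio a =>
          #({w : K → T // Pat D Ctl t0 b.1 w} × {t : T // D.rk t = a})) := mk_sigma _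
      rw [h2]
      have h3 : Cardinal.sum (fun b : Iio a =>
          #({w : K → T // Pat D Ctl t0 b.1 w} × {t : T // D.rk t = a})) ≤
          Cardinal.sum (fun _ : Iio a => lam) := by
        apply Cardinal.sum_le_sum
        intro b
        rw [mk_prod, lift_id, lift_id]
        exact (mul_le_mul' (ih b.1 b.2) (hT.narrow a)).trans (mul_eq_self hK.inf).le
      refine h3.trans ?_
      rw [sum_const']
      exact (mul_le_mul' (hK.small a) le_rfl).trans (mul_eq_self hK.inf).le
    · obtain ⟨S, hS, hcof, hpow⟩ := hC.free a hc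
      let B := ∀ s : S, {w : K → T // Pat D Ctl t0 s.1 w} × {t : T // D.rk t = s.1}
      let F : {v : K → T // Pat D Ctl t0 a v} → B := fun v s =>
        ⟨⟨trunc t0 s.1 v.1, Pat_trunc v.2 (hS s.2).le⟩, ⟨v.1 s.1, v.2.2.1 s.1 (hS s.2)⟩⟩
      have hF : Function.Injective F := by
        intro v v' hvv
        apply Subtype.ext
        funext x
        by_cases hx : x < a
        · obtain ⟨s, hs, hxs⟩ := hcof x hx
          have h1 := congrFun hvv ⟨s, hs⟩
          rcases eq_or_lt_of_le hxs with h2 | h2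
          · have h3 := congrArg (fun z => z.2.1) h1
            simp only [F] at h3
            rw [h2]
            exact h3
          · have h3 := congrArg (fun z => z.1.1 x) h1
            simp only [F] at h3
            rw [trunc_lt t0 _ h2, trunc_lt t0 _ h2] at h3
            exact h3
        · rw [v.2.1 x (not_lt.1 hx), v'.2.1 x (not_lt.1 hx)]
      refine (mk_le_of_injective hF).trans ?_
      have h2 : #B = Cardinal.prod (fun s : S =>
          #({w : K → T // Pat D Ctl t0 s.1 w} × {t : T // D.rk t = s.1})) := mk_pi _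
      rw [h2]
      have h3 : Cardinal.prod (fun s : S =>
          #({w : K → T // Pat D Ctl t0 s.1 w} × {t : T // D.rk t = s.1})) ≤
          Cardinal.prod (fun _ : S => lam) := by
        apply Cardinal.prod_le_prod
        intro s
        rw [mk_prod, lift_id, lift_id]
        exact (mul_le_mul' (ih s.1 (hS s.2)) (hT.narrow s.1)).trans (mul_eq_self hK.inf).le
      refine h3.trans ?_
      rw [prod_const', ]
      exact hpow

omit [WellFoundedLT K] in
theorem exists_gt' (hK : IdxOK K lam) (a : K) : ∃ b, a < b := by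
  obtain ⟨b, hb⟩ := hK.bdd {a} (by
    rw [mk_singleton]
    exact (one_le_aleph0).trans hK.inf)
  exact ⟨b, hb a rfl⟩

theorem card_hist (hK : IdxOK K lam) (hT : D.Nar lam) (hC : CtlOK lam Ctl) (b : K) :
    #{h : K × (K → T) | h.1 ≤ b ∧ Pat D Ctl t0 h.1 h.2} ≤ lam := by
  obtain ⟨c, hc⟩ := exists_gt' hK b
  let A := Σ b' : Iio c, {w : K → T // Pat D Ctl t0 b'.1 w}
  let G : A → K × (K → T) := fun z => (z.1.1, z.2.1)
  have hsub : {h : K × (K → T) | h.1 ≤ b ∧ Pat D Ctl t0 h.1 h.2} ⊆ range G := by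
    rintro ⟨b', w⟩ ⟨h1, h2⟩
    exact ⟨⟨⟨b', lt_of_le_of_lt h1 hc⟩, ⟨w, h2⟩⟩, rfl⟩
  have h1 : #{h : K × (K → T) | h.1 ≤ b ∧ Pat D Ctl t0 h.1 h.2} ≤ #A :=
    (mk_le_mk_of_subset hsub).trans mk_range_le
  refine h1.trans ?_
  have h2 : #A = Cardinal.sum (fun b' : Iio c => #{w : K → T // Pat D Ctl t0 b'.1 w}) :=
    mk_sigma _
  rw [h2]
  refine (Cardinal.sum_le_sum _ (fun _ : Iio c => lam)
    (fun b' : Iio c => card_pat hK hT hC b'.1)).trans ?_
  rw [sum_const']
  exact (mul_le_mul' (hK.small c) le_rfl).trans (mul_eq_self hK.inf).le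

end Count

section Nar

variable [WellFoundedLT K] {D : TD K T} {Ctl : K → Prop} {t0 : T} {X : K → Set (K → T)}
  {lam : Cardinal.{u}}

theorem VD_narrow (hK : IdxOK K lam) (hT : D.Nar lam) (hC : CtlOK lam Ctl)
    (hX : ExtOK D Ctl t0 lam X) (a : K) :
    #{p : V D Ctl t0 X // (VD D Ctl t0 X hX).rk p = a} ≤ lam := by
  have hsub : ∀ p : {p : V D Ctl t0 X // (VD D Ctl t0 X hX).rk p = a},
      p.1.1.2 ∈ ({v : K → T | Pat D Ctl t0 a v} ∪ X a : Set (K → T)) := by
    rintro ⟨p, hp⟩
    have hp' : p.1.1 = a := hp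
    rcases p.2 with h | h
    · left
      show Pat D Ctl t0 a p.1.2
      rw [← hp']
      exact h
    · right
      show p.1.2 ∈ X a
      rw [← hp']
      exact h
  let F : {p : V D Ctl t0 X // (VD D Ctl t0 X hX).rk p = a} →
      ({v : K → T | Pat D Ctl t0 a v} ∪ X a : Set (K → T)) := fun p => ⟨p.1.1.2, hsub p⟩
  have hF : Function.Injective F := by
    rintro ⟨p, hp⟩ ⟨q, hq⟩ h
    have h1 : p.1.2 = q.1.2 := congrArg Subtype.val h
    have hp' : p.1.1 = a := hp
    have hq' : q.1.1 = a := hq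
    apply Subtype.ext
    apply Subtype.ext
    exact Prod.ext (hp'.trans hq'.symm) h1
  refine (mk_le_of_injective hF).trans ((mk_union_le _ _).trans ?_)
  refine (add_le_add (card_pat hK hT hC a) (hX.card a)).trans ?_
  exact (add_eq_self hK.inf).le

theorem VD_nar (hK : IdxOK K lam) (hT : D.Nar lam) (hC : CtlOK lam Ctl)
    (hX : ExtOK D Ctl t0 lam X) : (VD D Ctl t0 X hX).Nar lam := by
  refine ⟨VD_narrow hK hT hC hX, fun a => ?_, ?_⟩
  · obtain ⟨t, ht⟩ := hT.full a
    refine ⟨⟨(D.rk t, trunc t0 (D.rk t) (fun x => D.res t x)), Or.inl (Pat_node hC t0 t)⟩, ?_⟩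
    exact ht
  · rintro ⟨w, hw1, hw2⟩
    have hw1' : ∀ a, (w a).1.1 = a := hw1
    -- all w b are patterns
    have hstep : ∀ a b, a ≤ b → (w a).1 = (a, trunc t0 a (w b).1.2) := by
      intro a b hab
      have h := hw2 a b hab
      have h2 := VD_res_val hX (w b) a (by rw [hw1' b]; exact hab)
      rw [← h, h2]
    have hpat : ∀ b, Pat D Ctl t0 b (w b).1.2 := by
      intro b
      obtain ⟨c, hc⟩ := exists_gt' hK b
      have h := hstep b c hc.le
      rw [h]
      exact node_trunc hX (w c) b (by rw [hw1' c]; exact hc)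
    have hagree : ∀ x a b, x < a → a ≤ b → (w a).1.2 x = (w b).1.2 x := by
      intro x a b hxa hab
      rw [hstep a b hab]
      exact trunc_lt t0 _ hxa
    choose nx hnx using exists_gt' (K := K) hK
    let uu : K → T := fun x => (w (nx x)).1.2 x
    have huu : ∀ x b, x < b → (w b).1.2 x = uu x := by
      intro x b hxb
      rcases le_total b (nx x) with h | h
      · exact hagree x b (nx x) hxb h
      · exact (hagree x (nx x) b (hnx x) h).symm
    have hurk : ∀ x, D.rk (uu x) = x := fun x => (hpat (nx x)).2.1 x (hnx x)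
    have hcoh : ∃ b0, ∀ x y, b0 < x → x < y → uu x = D.res (uu y) x := by
      by_contra hcon
      push Not at hcon
      choose xx yy h1 h2 h3 using hcon
      obtain ⟨a0⟩ := hK.ne
      obtain ⟨c, -, hc, hcl⟩ := hC.clos yy a0
      obtain ⟨b, hb, t, ht, hx⟩ := (hpat c).2.2 c le_rfl hc
      have e1 : uu (xx b) = D.res t (xx b) := by
        rw [← huu (xx b) c ((h2 b).trans (hcl b hb))]
        exact hx _ (h1 b) ((h2 b).trans (hcl b hb))
      have e2 : uu (yy b) = D.res t (yy b) := by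
        rw [← huu (yy b) c (hcl b hb)]
        exact hx _ ((h1 b).trans (h2 b)) (hcl b hb)
      apply h3 b
      rw [e1, e2, D.res_res t _ _ (h2 b).le (by rw [ht]; exact (hcl b hb).le)]
    obtain ⟨b0, hb0⟩ := hcoh
    have hyy : ∀ a, ∃ y, a < y ∧ b0 < y := by
      intro a
      obtain ⟨y, hy⟩ := exists_gt' hK (max a b0)
      exact ⟨y, (le_max_left _ _).trans_lt hy, (le_max_right _ _).trans_lt hy⟩
    choose yy hy1 hy2 using hyy
    apply hT.nobr
    refine ⟨fun a => D.res (uu (yy a)) a, fun a => ?_, fun a b hab => ?_⟩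
    · exact D.rk_res _ _ (by rw [hurk]; exact (hy1 a).le)
    · show D.res (D.res (uu (yy b)) b) a = D.res (uu (yy a)) a
      rw [D.res_res _ a b hab (by rw [hurk]; exact (hy1 b).le)]
      rcases lt_trichotomy (yy a) (yy b) with h | h | h
      · rw [hb0 _ _ (hy2 a) h, D.res_res _ a (yy a) (hy1 a).le (by rw [hurk]; exact h.le)]
      · rw [h]
      · rw [hb0 _ _ (hy2 b) h, D.res_res _ a (yy b) (hab.trans (hy1 b).le)
          (by rw [hurk]; exact h.le)]

end Nar

section Key

variable [WellFoundedLT K] {D : TD K T} {Ctl : K → Prop} {t0 : T} {X : K → Set (K → T)}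
  {lam : Cardinal.{u}}

/-- The node obtained from the history `(b, v)` by restarting along `t`. -/
noncomputable def knode (D : TD K T) (Ctl : K → Prop) (t0 : T) (X : K → Set (K → T)) (b : K)
    (v : K → T) (hv : Pat D Ctl t0 b v) (t : T) (hb : b ≤ D.rk t) : V D Ctl t0 X :=
  ⟨(D.rk t, restart D t0 b v t), Or.inl (Pat_restart hv hb)⟩

/-- Fixed nodes of the restart maps. -/
def FixS (D : TD K T) (Ctl : K → Prop) (t0 : T) (X : K → Set (K → T))
    (f : V D Ctl t0 X → T) (b : K) (v : K → T) : Set T :=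
  {t | ∃ (hv : Pat D Ctl t0 b v) (hb : b ≤ D.rk t), f (knode D Ctl t0 X b v hv t hb) = t}

theorem fix_chain (hX : ExtOK D Ctl t0 lam X) (f : V D Ctl t0 X → T)
    (hf : (VD D Ctl t0 X hX).Mor D f) (b : K) (v : K → T) (t s : T)
    (ht : t ∈ FixS D Ctl t0 X f b v) (hs : s ∈ FixS D Ctl t0 X f b v) (a : K) :
    a ≤ D.rk t → a ≤ D.rk s → D.res t a = D.res s a := by
  obtain ⟨hv, hbt, hft⟩ := ht
  obtain ⟨hv', hbs, hfs⟩ := hs
  induction a using WellFoundedLT.induction with
  | _ a ih =>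
    intro hat has
    have e1 : D.res t a = f ((VD D Ctl t0 X hX).res (knode D Ctl t0 X b v hv t hbt) a) := by
      rw [hf.res (knode D Ctl t0 X b v hv t hbt) a hat, hft]
    have e2 : D.res s a = f ((VD D Ctl t0 X hX).res (knode D Ctl t0 X b v hv' s hbs) a) := by
      rw [hf.res (knode D Ctl t0 X b v hv' s hbs) a has, hfs]
    rw [e1, e2]
    congr 1
    apply Subtype.ext
    rw [VD_res_val hX _ a hat, VD_res_val hX _ a has]
    congr 1
    funext x
    by_cases hx : x < a
    · rw [trunc_lt t0 _ hx, trunc_lt t0 _ hx]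
      show restart D t0 b v t x = restart D t0 b v s x
      by_cases hxb : x < b
      · rw [restart_lt D t0 v t hxb, restart_lt D t0 v s hxb]
      · rw [restart_mid D t0 v t (not_lt.1 hxb) (lt_of_lt_of_le hx hat),
          restart_mid D t0 v s (not_lt.1 hxb) (lt_of_lt_of_le hx has)]
        exact ih x hx (hx.le.trans hat) (hx.le.trans has)
    · rw [trunc_ge t0 _ (not_lt.1 hx), trunc_ge t0 _ (not_lt.1 hx)]

theorem fix_bdd (hT : D.Nar lam) (hX : ExtOK D Ctl t0 lam X) (f : V D Ctl t0 X → T)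
    (hf : (VD D Ctl t0 X hX).Mor D f) (b : K) (v : K → T) :
    ∃ θ : K, ∀ t ∈ FixS D Ctl t0 X f b v, D.rk t < θ := by
  by_contra hcon
  push Not at hcon
  choose τ hτ1 hτ2 using hcon
  apply hT.nobr
  refine ⟨fun a => D.res (τ a) a, fun a => D.rk_res _ _ (hτ2 a), fun a c hac => ?_⟩
  show D.res (D.res (τ c) c) a = D.res (τ a) a
  rw [D.res_res _ a c hac (hτ2 c)]
  exact fix_chain hX f hf b v _ _ (hτ1 c) (hτ1 a) a (hac.trans (hτ2 c)) (hτ2 a)

/-- **Key lemma.** -/
theorem key (hK : IdxOK K lam) (hT : D.Nar lam) (hC : CtlOK lam Ctl)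
    (hX : ExtOK D Ctl t0 lam X) (f : V D Ctl t0 X → T) (hf : (VD D Ctl t0 X hX).Mor D f) :
    ∃ φ : K → K, ∀ (p : V D Ctl t0 X) (g : K), g < p.1.1 → (∀ b < g, φ b < g) →
      ∀ b < g, ¬ Follows D p.1.2 (f p) b g := by
  choose θ hθ using fix_bdd hT hX f hf
  have hφ : ∀ b : K, ∃ c : K, ∀ h : K × (K → T), h.1 ≤ b → Pat D Ctl t0 h.1 h.2 →
      θ h.1 h.2 < c := by
    intro b
    let S : Set K := (fun h : K × (K → T) => θ h.1 h.2) ''
      {h : K × (K → T) | h.1 ≤ b ∧ Pat D Ctl t0 h.1 h.2}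
    have hS : #S ≤ lam := mk_image_le.trans (card_hist hK hT hC b)
    obtain ⟨c, hc⟩ := hK.bdd S hS
    exact ⟨c, fun h h1 h2 => hc _ ⟨h, ⟨h1, h2⟩, rfl⟩⟩
  choose φ hφ using hφ
  refine ⟨φ, fun p g hg hcl b hb hfol => ?_⟩
  have hrkf : D.rk (f p) = p.1.1 := hf.rk p
  have hrk : D.rk (D.res (f p) g) = g := D.rk_res _ _ (by rw [hrkf]; exact hg.le)
  have hpb : Pat D Ctl t0 b (trunc t0 b p.1.2) := node_trunc hX p b (hb.trans hg)
  have hmem : D.res (f p) g ∈ FixS D Ctl t0 X f b (trunc t0 b p.1.2) := by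
    refine ⟨hpb, by rw [hrk]; exact hb.le, ?_⟩
    have e1 : knode D Ctl t0 X b (trunc t0 b p.1.2) hpb (D.res (f p) g)
        (by rw [hrk]; exact hb.le) = (VD D Ctl t0 X hX).res p g := by
      apply Subtype.ext
      rw [VD_res_val hX p g hg.le]
      show (D.rk (D.res (f p) g), restart D t0 b (trunc t0 b p.1.2) (D.res (f p) g)) = _
      rw [hrk]
      congr 1
      funext x
      by_cases hxb : x < b
      · rw [restart_lt D t0 _ _ hxb, trunc_lt t0 _ hxb, trunc_lt t0 _ (hxb.trans hb)]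
      · by_cases hxg : x < g
        · rw [restart_mid D t0 _ _ (not_lt.1 hxb) (by rw [hrk]; exact hxg),
            trunc_lt t0 _ hxg, hfol x (not_lt.1 hxb) hxg,
            D.res_res _ x g hxg.le (by rw [hrkf]; exact hg.le)]
        · rw [restart_ge D t0 _ _ (not_lt.1 hxb) (by rw [hrk]; exact not_lt.1 hxg),
            trunc_ge t0 _ (not_lt.1 hxg)]
    rw [e1, hf.res p g hg.le]
  have h1 := hθ b (trunc t0 b p.1.2) _ hmem
  rw [hrk] at h1
  have h2 := hφ b (b, trunc t0 b p.1.2) le_rfl hpb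
  exact absurd (h1.trans h2) (not_lt.2 (hcl b hb).le)

end Key

end Pool.Agent.UnivA
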