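import Mathlib
import Pool.Agent.UnivA.Basic

/-!
# Control predicates and closure points
-/

open Cardinal Set

namespace Pool.Agent.UnivA

universe u

section
variable {K : Type u} [LinearOrder K] {lam : Cardinal.{u}}

theorem card_Iic_le (hK : IdxOK K lam) (a : K) : #(Iic a) ≤ lam := by
  have h1 : (Iic a : Set K) = insert a (Iio a) := by
    ext x; simp [le_iff_eq_or_lt]
  rw [h1]
  refine (mk_insert_le).trans ?_
  calc #(Iio a) + 1 ≤ lam + lam := add_le_add (hK.small a) (one_le_aleph0.trans hK.inf)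
    _ = lam := Cardinal.add_eq_self hK.inf

/-- Strict bounds which also bound the values of `φ` below. -/
theorem exists_step (hK : IdxOK K lam) (φ : K → K) (S : Set K) (hS : #S ≤ lam) :
    ∃ c, (∀ s ∈ S, s < c) ∧ ∀ s ∈ S, ∀ b ≤ s, φ b < c := by
  let S' : Set K := S ∪ range (fun q : (Σ s : S, Iic s.1) => φ q.2)
  have h1 : #(range (fun q : (Σ s : S, Iic s.1) => φ q.2)) ≤ lam := by
    refine mk_range_le.trans ?_
    rw [mk_sigma]
    calc Cardinal.sum (fun s : S => #(Iic s.1)) ≤ Cardinal.sum (fun _ : S => lam) :=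
          Cardinal.sum_le_sum _ _ (fun s => card_Iic_le hK s.1)
      _ = #S * lam := by rw [Cardinal.sum_const']
      _ ≤ lam * lam := by gcongr
      _ = lam := Cardinal.mul_eq_self hK.inf
  have h2 : #S' ≤ lam := by
    refine (mk_union_le _ _).trans ?_
    calc #S + #(range (fun q : (Σ s : S, Iic s.1) => φ q.2)) ≤ lam + lam := add_le_add hS h1
      _ = lam := Cardinal.add_eq_self hK.inf
  obtain ⟨c, hc⟩ := hK.bdd S' h2
  refine ⟨c, fun s hs => hc s (Or.inl hs), fun s hs b hb => hc _ (Or.inr ?_)⟩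
  exact ⟨⟨⟨s, hs⟩, ⟨b, hb⟩⟩, rfl⟩

/-- The least strict upper bound of a small set. -/
theorem exists_lsub [WellFoundedLT K] (hK : IdxOK K lam) (S : Set K) (hS : #S ≤ lam) :
    ∃ c, (∀ s ∈ S, s < c) ∧ ∀ b < c, ∃ s ∈ S, b ≤ s := by
  obtain ⟨b, hb⟩ := hK.bdd S hS
  let P : Set K := {c | ∀ s ∈ S, s < c}
  have hP : P.Nonempty := ⟨b, hb⟩
  refine ⟨WellFounded.min wellFounded_lt P hP, WellFounded.min_mem wellFounded_lt P hP, ?_⟩
  intro b hb
  by_contra h
  push Not at h
  exact WellFounded.not_lt_min wellFounded_lt P (show b ∈ P from h) hb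

/-- `IsLim` is a control predicate. -/
theorem ctl_isLim [WellFoundedLT K] (hK : IdxOK K lam) : CtlOK lam (IsLim (K := K)) where
  free := by
    intro a ha
    by_cases h : ∃ b, b < a
    · have h2 : ∃ b < a, ∀ c, b < c → ¬ c < a := by
        by_contra hcon
        push Not at hcon
        exact ha ⟨h, hcon⟩
      obtain ⟨b, hba, hb⟩ := h2
      refine ⟨{b}, by simpa using hba, ?_, ?_⟩
      · intro x hx
        exact ⟨b, rfl, not_lt.1 (fun hbx => hb x hbx hx)⟩
      · simp
    · refine ⟨∅, by simp, fun b hb => (h ⟨b, hb⟩).elim, ?_⟩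
      simpa using one_le_aleph0.trans hK.inf
  pos := fun a ha => ha.1
  lim := fun a ha => ha.2
  clos := by
    intro φ a
    have hstep : ∀ x : K, ∃ c, x < c ∧ ∀ b ≤ x, φ b < c := by
      intro x
      obtain ⟨c, h1, h2⟩ := exists_step hK φ {x} (by simpa using one_le_aleph0.trans hK.inf)
      exact ⟨c, h1 x rfl, fun b hb => h2 x rfl b hb⟩
    choose st hst1 hst2 using hstep
    let s : ℕ → K := fun n => st^[n] a
    have hs0 : s 0 = a := rfl
    have hsucc : ∀ n, s (n + 1) = st (s n) := fun n => Function.iterate_succ_apply' st n a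
    obtain ⟨c, hc1, hc2⟩ := exists_lsub hK (range s)
      ((Set.countable_range s).le_aleph0.trans hK.inf)
    refine ⟨c, hs0 ▸ hc1 _ ⟨0, rfl⟩, ⟨⟨a, hs0 ▸ hc1 _ ⟨0, rfl⟩⟩, ?_⟩, ?_⟩
    · intro b hb
      obtain ⟨_, ⟨n, rfl⟩, hn⟩ := hc2 b hb
      exact ⟨s (n + 1), lt_of_le_of_lt hn (hsucc n ▸ hst1 _), hc1 _ ⟨n + 1, rfl⟩⟩
    · intro b hb
      obtain ⟨_, ⟨n, rfl⟩, hn⟩ := hc2 b hb
      exact lt_trans (hsucc n ▸ hst2 _ b hn) (hc1 _ ⟨n + 1, rfl⟩)

end

/-! ### The index set `ω₁` -/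

/-- The well-ordered set `ω₁` in universe `u`. -/
abbrev W1 : Type u := (ℵ₁ : Cardinal.{u}).ord.ToType

theorem W1_countable_Iio (i : W1.{u}) : (Iio i).Countable := by
  rw [countable_iff_lt_aleph_one]
  exact mk_Iio_toType_ord_lt i

theorem W1_countable_Iic (i : W1.{u}) : (Iic i).Countable := by
  have h1 : (Iic i : Set W1) = insert i (Iio i) := by
    ext x; simp [le_iff_eq_or_lt]
  rw [h1]
  exact (W1_countable_Iio i).insert i

theorem W1_bdd (S : Set W1.{u}) (hS : S.Countable) : ∃ β : W1.{u}, ∀ i ∈ S, i < β := by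
  by_contra h
  push Not at h
  have h1 : (univ : Set W1.{u}) ⊆ ⋃ i ∈ S, Iic i := by
    intro β _
    obtain ⟨i, hi, hβ⟩ := h β
    exact mem_biUnion hi hβ
  have h2 : (univ : Set W1.{u}).Countable :=
    (hS.biUnion (fun i _ => W1_countable_Iic i)).mono h1
  rw [countable_iff_lt_aleph_one, mk_univ, mk_ord_toType] at h2
  exact lt_irrefl _ h2

section
variable {K : Type u} [LinearOrder K] [WellFoundedLT K] {lam : Cardinal.{u}}

/-- `IsUnc` is a control predicate if `lam ^ ℵ₀ ≤ lam`. -/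
theorem ctl_isUnc (hK : IdxOK K lam) (h0 : lam ^ ℵ₀ ≤ lam) (h1 : ℵ₁ ≤ lam) :
    CtlOK lam (IsUnc (K := K)) where
  free := by
    intro a ha
    unfold IsUnc at ha
    push Not at ha
    obtain ⟨S, hS, hSa, hcof⟩ := ha
    refine ⟨S, hSa, hcof, le_trans ?_ h0⟩
    exact Cardinal.power_le_power_left (ne_of_gt (lt_of_lt_of_le aleph0_pos hK.inf))
      hS.le_aleph0
  pos := by
    intro a ha
    by_contra h
    exact ha ⟨∅, countable_empty, by simp, fun b hb => (h ⟨b, hb⟩).elim⟩
  lim := by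
    intro a ha b hb
    by_contra h
    push Not at h
    refine ha ⟨{b}, countable_singleton b, by simpa using hb, fun x hx => ⟨b, rfl, ?_⟩⟩
    exact not_lt.1 (fun hbx => absurd hx (not_lt.2 (h x hbx)))
  clos := by
    intro φ a
    have hcard : ∀ (i : W1.{u}) (F : ∀ j : W1.{u}, j < i → K),
        #(insert a (range fun j : Iio i => F j.1 j.2) : Set K) ≤ lam := by
      intro i F
      have : (insert a (range fun j : Iio i => F j.1 j.2) : Set K).Countable := by
        have : Countable (Iio i) := (W1_countable_Iio i).to_subtype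
        exact (countable_range _).insert a
      exact this.le_aleph0.trans hK.inf
    let c : W1.{u} → K := WellFounded.fix (wellFounded_lt : WellFounded ((· < ·) : W1.{u} → W1.{u} → Prop))
      (fun i F => Classical.choose (exists_step hK φ _ (hcard i F)))
    have hc : ∀ i, (∀ s ∈ (insert a (range fun j : Iio i => c j.1) : Set K), s < c i) ∧
        ∀ s ∈ (insert a (range fun j : Iio i => c j.1) : Set K), ∀ b ≤ s, φ b < c i := by
      intro i
      have h := Classical.choose_spec (exists_step hK φ _ (hcard i (fun j _ => c j)))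
      have heq : c i = Classical.choose (exists_step hK φ _ (hcard i (fun j _ => c j))) := by
        show WellFounded.fix _ _ i = _
        rw [WellFounded.fix_eq]
      rw [heq]
      exact h
    have hmono : ∀ i j, j < i → c j < c i := fun i j hj =>
      (hc i).1 _ (mem_insert_of_mem _ ⟨⟨j, hj⟩, rfl⟩)
    have hcardr : #(range c) ≤ lam := by
      refine mk_range_le.trans ?_
      rw [mk_ord_toType]; exact h1
    obtain ⟨m, hm1, hm2⟩ := exists_lsub hK (range c) hcardr
    have hne : Nonempty W1.{u} := by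
      rw [← mk_ne_zero_iff, mk_ord_toType]
      exact (aleph_pos 1).ne'
    obtain ⟨i0⟩ := hne
    refine ⟨m, lt_trans ((hc i0).1 a (mem_insert _ _)) (hm1 _ ⟨i0, rfl⟩), ?_, ?_⟩
    · rintro ⟨S, hS, hSm, hcof⟩
      have hex : ∀ s : S, ∃ i, s.1 ≤ c i := by
        intro s
        obtain ⟨_, ⟨i, rfl⟩, hi⟩ := hm2 s.1 (hSm s.2)
        exact ⟨i, hi⟩
      choose ix hix using hex
      have := hS.to_subtype
      obtain ⟨β, hβ⟩ := W1_bdd (range ix) (countable_range ix)
      obtain ⟨s, hs, hle⟩ := hcof (c β) (hm1 _ ⟨β, rfl⟩)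
      have := hmono β (ix ⟨s, hs⟩) (hβ _ ⟨_, rfl⟩)
      exact absurd (lt_of_le_of_lt (hix ⟨s, hs⟩) this) (not_lt.2 hle)
    · intro b hb
      obtain ⟨_, ⟨i, rfl⟩, hi⟩ := hm2 b hb
      obtain ⟨β, hβ⟩ := W1_bdd {i} (countable_singleton i)
      exact lt_trans ((hc β).2 (c i) (mem_insert_of_mem _ ⟨⟨i, hβ i rfl⟩, rfl⟩) b hi)
        (hm1 _ ⟨β, rfl⟩)

omit [WellFoundedLT K] in
/-- A controlled point which is a limit of controlled closure points. -/
theorem exists_limit_of_closure_points {Ctl : K → Prop} (hC : CtlOK lam Ctl) (φ : K → K) (a : K) :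
    ∃ m, a < m ∧ Ctl m ∧ ∀ y < m, ∃ g, y < g ∧ g < m ∧ Ctl g ∧ ∀ b < g, φ b < g := by
  choose ψ h1 h2 h3 using hC.clos φ
  obtain ⟨m, ham, hm, hcl⟩ := hC.clos ψ a
  exact ⟨m, ham, hm, fun y hy => ⟨ψ y, h1 y, hcl y hy, h2 y, h3 y⟩⟩

end

end Pool.Agent.UnivA
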