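import Mathlib
import Pool.Agent.UnivA.Ctl
import Pool.Agent.UnivA.Core

/-!
# The case `CH`

Sierpinski functions and the terminal nodes `v_{m,n}`.
-/

open Cardinal Set

namespace Pool.Agent.UnivA

universe u

theorem exists_surj {α β : Type u} [Nonempty α] (h : #α ≤ #β) :
    ∃ e : β → α, Function.Surjective e := by
  obtain ⟨φ⟩ := Cardinal.le_def _ _ |>.1 h
  exact ⟨Function.invFun φ, Function.invFun_surjective φ.injective⟩

/-- Sierpinski functions: `g : ω₁ → (ℕ → T)` such that every `h : ℕ → T` is met somewhere by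
`g α` for all large `α`. -/
theorem exists_sierpinski (T : Type u) [Nonempty T] (hT : #T ^ ℵ₀ ≤ ℵ₁) :
    ∃ g : W1.{u} → ℕ → T, ∀ h : ℕ → T, ∃ β : W1.{u}, ∀ α, β < α → ∃ n, g α n = h n := by
  have h1 : #(ℕ → T) ≤ #W1.{u} := by
    rw [mk_ord_toType]
    simpa using hT
  obtain ⟨e, he⟩ : ∃ e : W1.{u} → (ℕ → T), Function.Surjective e := by
    have : Nonempty (ℕ → T) := inferInstance
    exact exists_surj h1
  have hr : ∀ α : W1.{u}, (∃ β, β < α) → ∃ r : ℕ → Iio α, Function.Surjective r := by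
    rintro α ⟨β, hβ⟩
    have hne : Nonempty (Iio α) := ⟨⟨β, hβ⟩⟩
    have : Countable (Iio α) := (W1_countable_Iio α).to_subtype
    exact exists_surjective_nat _
  classical
  let g : W1.{u} → ℕ → T := fun α n =>
    if h : ∃ β, β < α then e ((hr α h).choose n).1 n else Classical.arbitrary T
  refine ⟨g, fun h => ?_⟩
  obtain ⟨β, rfl⟩ := he h
  refine ⟨β, fun α hα => ?_⟩
  have hex : ∃ β, β < α := ⟨β, hα⟩
  obtain ⟨n, hn⟩ := (hr α hex).choose_spec ⟨β, hα⟩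
  refine ⟨n, ?_⟩
  show (if h : ∃ β, β < α then e ((hr α h).choose n).1 n else Classical.arbitrary T) = _
  rw [dif_pos hex, hn]

section
variable {K T : Type u} [LinearOrder K]

/-- For `m` with `#(Iio m) ≤ ℵ₁`: an enumeration of the points below `m`. -/
theorem exists_enumCH (m : K) (hm : #(Iio m) ≤ ℵ₁) (hne : ∃ b, b < m) :
    ∃ x : W1.{u} → K, (∀ i, x i < m) ∧ ∀ b < m, ∃ i, x i = b := by
  obtain ⟨b, hb⟩ := hne
  have : Nonempty (Iio m) := ⟨⟨b, hb⟩⟩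
  obtain ⟨e, he⟩ : ∃ e : W1.{u} → Iio m, Function.Surjective e :=
    exists_surj (by rw [mk_ord_toType]; exact hm)
  exact ⟨fun i => (e i).1, fun i => (e i).2, fun b hb => by
    obtain ⟨i, hi⟩ := he ⟨b, hb⟩
    exact ⟨i, congrArg Subtype.val hi⟩⟩

variable (x : W1.{u} → K)

/-- The least `i` with `y < x i` (if there is one). -/
noncomputable def idx (i0 : W1.{u}) (y : K) : W1.{u} :=
  open Classical in
  if h : ∃ i, y < x i then
    WellFounded.min (wellFounded_lt : WellFounded ((· < ·) : W1.{u} → W1.{u} → Prop))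
      {i | y < x i} h
  else i0

theorem lt_idx (i0 : W1.{u}) (y : K) (h : ∃ i, y < x i) : y < x (idx x i0 y) := by
  unfold idx
  rw [dif_pos h]
  exact WellFounded.min_mem (wellFounded_lt : WellFounded ((· < ·) : W1.{u} → W1.{u} → Prop))
    {i | y < x i} h

theorem idx_le (i0 : W1.{u}) (y : K) (i : W1.{u}) (h : y < x i) : idx x i0 y ≤ i := by
  unfold idx
  rw [dif_pos ⟨i, h⟩]
  exact WellFounded.min_le wellFounded_lt (s := {i | y < x i}) h

theorem idx_mono (i0 : W1.{u}) {y z : K} (h : ∃ i, z < x i) (hyz : y ≤ z) :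
    idx x i0 y ≤ idx x i0 z :=
  idx_le x i0 y _ (lt_of_le_of_lt hyz (lt_idx x i0 z h))

/-- `idx` is eventually constant below points of uncountable cofinality. -/
theorem idx_const (i0 : W1.{u}) (g : K) (hg : IsUnc g) (h : ∃ i, g < x i) :
    ∃ b < g, ∀ y, b ≤ y → y < g → idx x i0 y = idx x i0 b := by
  by_contra hcon
  push Not at hcon
  -- the values below `g` are bounded by `idx g`
  have hex : ∀ y, y < g → ∃ i, y < x i := fun y hy => by
    obtain ⟨i, hi⟩ := h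
    exact ⟨i, hy.trans hi⟩
  let J : Set W1.{u} := {j | ∃ y < g, idx x i0 y = j}
  have hJ : J.Countable := by
    refine (W1_countable_Iic (idx x i0 g)).mono ?_
    rintro j ⟨y, hy, rfl⟩
    exact idx_mono x i0 h hy.le
  have hpt : ∀ j : J, ∃ y < g, idx x i0 y = j.1 := fun j => j.2
  choose pt hpt1 hpt2 using hpt
  have hJc := hJ.to_subtype
  refine hg ⟨range pt, countable_range pt, ?_, ?_⟩
  · rintro _ ⟨j, rfl⟩
    exact hpt1 j
  · intro b hb
    obtain ⟨y, hby, hy, hne⟩ := hcon b hb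
    have hlt : idx x i0 b < idx x i0 y :=
      lt_of_le_of_ne (idx_mono x i0 (hex y hy) hby) (Ne.symm hne)
    refine ⟨pt ⟨idx x i0 y, y, hy, rfl⟩, ⟨_, rfl⟩, ?_⟩
    by_contra hcon2
    push Not at hcon2
    have := idx_mono x i0 (hex b hb) hcon2.le
    rw [hpt2] at this
    exact absurd hlt (not_lt.2 this)

end

section
variable {K T : Type u} [LinearOrder K] [WellFoundedLT K]

theorem exists_chdata {D : TD K T} (hK : IdxOK K ℵ₁) (hD : D.Nar ℵ₁)
    (hch : (ℵ₁ : Cardinal.{u}) ^ ℵ₀ ≤ ℵ₁) (m : K) (hm : IsUnc m) :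
    ∃ (x : W1.{u} → K) (G : W1.{u} → ℕ → T), (∀ i, x i < m) ∧ (∀ b < m, ∃ i, x i = b) ∧
      (∀ i n, D.rk (G i n) = m) ∧
      ∀ h : ℕ → T, (∀ n, D.rk (h n) = m) → ∃ β : W1.{u}, ∀ α, β < α → ∃ n, G α n = h n := by
  have hC := ctl_isUnc hK hch le_rfl
  obtain ⟨x, hx1, hx2⟩ := exists_enumCH m (hK.small m) (hC.pos m hm)
  obtain ⟨t, ht⟩ := hD.full m
  have : Nonempty {t : T // D.rk t = m} := ⟨⟨t, ht⟩⟩
  obtain ⟨g, hg⟩ := exists_sierpinski {t : T // D.rk t = m}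
    ((Cardinal.power_le_power_right (hD.narrow m)).trans hch)
  refine ⟨x, fun i n => (g i n).1, hx1, hx2, fun i n => (g i n).2, fun h hh => ?_⟩
  obtain ⟨β, hβ⟩ := hg (fun n => ⟨h n, hh n⟩)
  refine ⟨β, fun α hα => ?_⟩
  obtain ⟨n, hn⟩ := hβ α hα
  exact ⟨n, congrArg Subtype.val hn⟩

/-- The sequences `v_{m,n}`. -/
noncomputable def vseq (D : TD K T) (t0 : T) (i0 : W1.{u}) (m : K) (x : W1.{u} → K)
    (G : W1.{u} → ℕ → T) (n : ℕ) : K → T :=
  open Classical in fun y => if y < m then D.res (G (idx x i0 y) n) y else t0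

omit [WellFoundedLT K] in
theorem vseq_of_lt (D : TD K T) (t0 : T) (i0 : W1.{u}) (m : K) (x : W1.{u} → K)
    (G : W1.{u} → ℕ → T) (n : ℕ) {y : K} (hy : y < m) :
    vseq D t0 i0 m x G n y = D.res (G (idx x i0 y) n) y := by
  unfold vseq
  rw [if_pos hy]

omit [WellFoundedLT K] in
theorem vseq_pat (D : TD K T) (t0 : T) (i0 : W1.{u}) (m : K) (x : W1.{u} → K)
    (G : W1.{u} → ℕ → T) (n : ℕ) (hlim : ∀ b < m, ∃ c, b < c ∧ c < m)
    (hx2 : ∀ b < m, ∃ i, x i = b) (hG : ∀ i n, D.rk (G i n) = m) (a : K) (ha : a < m) :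
    Pat D IsUnc t0 a (trunc t0 a (vseq D t0 i0 m x G n)) := by
  refine ⟨fun y hy => trunc_ge t0 _ hy, fun y hy => ?_, fun c hca hc => ?_⟩
  · rw [trunc_lt t0 _ hy, vseq_of_lt _ _ _ _ _ _ _ (hy.trans ha)]
    exact D.rk_res _ _ (by rw [hG]; exact (hy.trans ha).le)
  · have hcm : c < m := lt_of_le_of_lt hca ha
    obtain ⟨y, hcy, hym⟩ := hlim c hcm
    obtain ⟨i, hi⟩ := hx2 y hym
    obtain ⟨b, hb, hconst⟩ := idx_const x i0 c hc ⟨i, by rw [hi]; exact hcy⟩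
    refine ⟨b, hb, D.res (G (idx x i0 b) n) c, D.rk_res _ _ (by rw [hG]; exact hcm.le), ?_⟩
    intro z hbz hzc
    rw [trunc_lt t0 _ (lt_of_lt_of_le hzc hca), vseq_of_lt _ _ _ _ _ _ _ (hzc.trans hcm),
      hconst z hbz.le hzc, D.res_res _ _ _ hzc.le (by rw [hG]; exact hcm.le)]

/-- The main combinatorial lemma of the case `CH`. -/
theorem ch_follows {D : TD K T} (hK : IdxOK K ℵ₁)
    (hch : (ℵ₁ : Cardinal.{u}) ^ ℵ₀ ≤ ℵ₁) (t0 : T) (i0 : W1.{u})
    (x : ∀ m : K, IsUnc m → W1.{u} → K) (G : ∀ m : K, IsUnc m → W1.{u} → ℕ → T)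
    (hx1 : ∀ m hm i, x m hm i < m)
    (hx2 : ∀ m hm, ∀ b < m, ∃ i, x m hm i = b)
    (hG2 : ∀ m hm, ∀ h : ℕ → T, (∀ n, D.rk (h n) = m) →
      ∃ β : W1.{u}, ∀ α, β < α → ∃ n, G m hm α n = h n) (φ : K → K) :
    ∃ (m : K) (hm : IsUnc m), ∀ h : ℕ → T, (∀ n, D.rk (h n) = m) →
      ∃ n, ∃ g < m, (∀ b < g, φ b < g) ∧ ∃ b < g,
        Follows D (vseq D t0 i0 m (x m hm) (G m hm) n) (h n) b g := by
  have hC := ctl_isUnc hK hch le_rfl
  obtain ⟨a⟩ := hK.ne
  obtain ⟨m, -, hm, hcl⟩ := exists_limit_of_closure_points hC φ a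
  refine ⟨m, hm, fun h hh => ?_⟩
  obtain ⟨β, hβ⟩ := hG2 m hm h hh
  -- the points `x i`, `i ≤ β`, are bounded below `m`
  have hbd : ∃ b < m, ∀ i ≤ β, x m hm i < b := by
    by_contra hcon
    push Not at hcon
    refine hm ⟨{y | ∃ i ≤ β, x m hm i = y}, ?_, ?_, ?_⟩
    · refine ((W1_countable_Iic β).image (x m hm)).mono ?_
      rintro y ⟨i, hi, rfl⟩
      exact ⟨i, hi, rfl⟩
    · rintro y ⟨i, -, rfl⟩
      exact hx1 m hm i
    · intro b hb
      obtain ⟨i, hi, h1⟩ := hcon b hb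
      exact ⟨x m hm i, ⟨i, hi, rfl⟩, h1⟩
  obtain ⟨b0, hb0, hb0'⟩ := hbd
  obtain ⟨g, hbg, hgm, hg, hgcl⟩ := hcl b0 hb0
  have hexi : ∀ y < m, ∃ i, y < x m hm i := by
    intro y hy
    obtain ⟨c, hyc, hcm⟩ := hC.lim m hm y hy
    obtain ⟨i, hi⟩ := hx2 m hm c hcm
    exact ⟨i, by rw [hi]; exact hyc⟩
  obtain ⟨b1, hb1, hconst⟩ := idx_const (x m hm) i0 g hg (hexi g hgm)
  have hyg : max b0 b1 < g := max_lt hbg hb1
  have hidx : β < idx (x m hm) i0 (max b0 b1) := by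
    by_contra hcon
    have h1 := hb0' _ (not_lt.1 hcon)
    have h2 := lt_idx (x m hm) i0 (max b0 b1) (hexi _ (hyg.trans hgm))
    exact absurd (h2.trans h1) (not_lt.2 (le_max_left _ _))
  obtain ⟨n, hn⟩ := hβ _ hidx
  refine ⟨n, g, hgm, hgcl, max b0 b1, hyg, fun y hy1 hy2 => ?_⟩
  rw [vseq_of_lt _ _ _ _ _ _ _ (hy2.trans hgm), ← hn,
    hconst y ((le_max_right _ _).trans hy1) hy2,
    ← hconst (max b0 b1) (le_max_right _ _) hyg]

/-- **Case `CH`**: no narrow Aronszajn tree of height `K` is universal. -/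
theorem caseCH (D : TD K T) (hK : IdxOK K ℵ₁) (hD : D.Nar ℵ₁)
    (hch : (ℵ₁ : Cardinal.{u}) ^ ℵ₀ ≤ ℵ₁) :
    ∃ (S : Type u) (E : TD K S), E.Nar ℵ₁ ∧
      (∀ bot : K, (∀ a, bot ≤ a) → ∃ p0, ∀ p, E.res p bot = p0) ∧
      ∀ f, ¬ E.Mor D f := by
  have hC := ctl_isUnc hK hch le_rfl
  obtain ⟨a0⟩ := hK.ne
  obtain ⟨t0, -⟩ := hD.full a0
  have hW : Nonempty W1.{u} := by
    rw [← mk_ne_zero_iff, mk_ord_toType]
    exact (aleph_pos _).ne'
  obtain ⟨i0⟩ := hW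
  choose x G hx1 hx2 hG1 hG2 using exists_chdata (D := D) hK hD hch
  let X : K → Set (K → T) := fun m =>
    {v | ∃ (hm : IsUnc m) (n : ℕ), v = vseq D t0 i0 m (x m hm) (G m hm) n}
  have hX : ExtOK D IsUnc t0 ℵ₁ X := by
    refine ⟨?_, ?_, ?_⟩
    · rintro m _ ⟨hm, n, rfl⟩ y hy
      unfold vseq
      rw [if_neg (not_lt.2 hy)]
    · rintro m _ ⟨hm, n, rfl⟩ a ha
      exact vseq_pat D t0 i0 m (x m hm) (G m hm) n (hC.lim m hm) (hx2 m hm) (hG1 m hm) a ha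
    · intro m
      by_cases hm : IsUnc m
      · have h1 : X m ⊆ range (fun n : ℕ => vseq D t0 i0 m (x m hm) (G m hm) n) := by
          rintro _ ⟨_, n, rfl⟩
          exact ⟨n, rfl⟩
        have h2 : (X m).Countable := (countable_range _).mono h1
        exact (le_aleph0_iff_set_countable.2 h2).trans (aleph0_le_aleph 1)
      · have h1 : X m = ∅ := by
          ext v
          constructor
          · rintro ⟨h, -⟩
            exact (hm h).elim
          · intro h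
            exact h.elim
        rw [h1]
        simp
  refine ⟨V D IsUnc t0 X, VD D IsUnc t0 X hX, VD_nar hK hD hC hX, ?_, ?_⟩
  · intro bot hbot
    obtain ⟨t, ht⟩ := hD.full bot
    refine ⟨⟨(bot, fun _ => t0), Or.inl ⟨fun _ _ => rfl, fun y hy => ?_, fun c hc hcc => ?_⟩⟩,
      fun p => ?_⟩
    · exact absurd hy (not_lt.2 (hbot y))
    · obtain ⟨b, hb⟩ := hC.pos c hcc
      exact absurd (hb.trans_le hc) (not_lt.2 (hbot b))
    · apply Subtype.ext
      rw [VD_res_val hX p bot (hbot _)]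
      congr 1
      funext y
      exact trunc_ge t0 _ (hbot y)
  · intro f hf
    obtain ⟨φ, hφ⟩ := key hK hD hC hX f hf
    obtain ⟨m, hm, hfol⟩ := ch_follows (D := D) hK hch t0 i0 x G hx1 hx2 hG2 φ
    let p : ℕ → V D IsUnc t0 X := fun n =>
      ⟨(m, vseq D t0 i0 m (x m hm) (G m hm) n), Or.inr ⟨hm, n, rfl⟩⟩
    obtain ⟨n, g, hgm, hgcl, b, hbg, hF⟩ := hfol (fun n => f (p n)) (fun n => hf.rk (p n))
    exact hφ (p n) g hgm hgcl b hbg hF

end

end Pool.Agent.UnivA
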