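import Mathlib
import Pool.Agent.UnivA.Ctl

/-!
# Club guessing of rank two on the points of countable cofinality

`K` is a well-ordered index set of cofinality `ω₂`.
-/

open Cardinal Set

namespace Pool.Agent.UnivA

universe u

namespace Guess

section basics
variable {K : Type u} [LinearOrder K]

/-- The closure points of `φ`. -/
def Cl (φ : K → K) : Set K := {c | ∀ b, b < c → φ b < c}

/-- The limit points of `A`. -/
def Acc (A : Set K) : Set K := {a | (∃ b, b < a) ∧ ∀ b, b < a → ∃ c ∈ A, b < c ∧ c < a}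

theorem Cl_anti {φ ψ : K → K} (h : φ ≤ ψ) : Cl ψ ⊆ Cl φ :=
  fun _ hc b hb => lt_of_le_of_lt (h b) (hc b hb)

theorem Acc_mono {A B : Set K} (h : A ⊆ B) : Acc A ⊆ Acc B := by
  rintro a ⟨h1, h2⟩
  refine ⟨h1, fun b hb => ?_⟩
  obtain ⟨c, hc, h3⟩ := h2 b hb
  exact ⟨c, h hc, h3⟩

variable [WellFoundedLT K]

theorem exists_drop (φ : K → K) (x : K) :
    ∃ c, c ∈ Cl φ ∧ c ≤ x ∧ ∀ c' ∈ Cl φ, c' ≤ x → c' ≤ c := by
  let U : Set K := {s | ∀ c ∈ Cl φ, c ≤ x → c ≤ s}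
  have hU : U.Nonempty := ⟨x, fun c _ h => h⟩
  have hs : WellFounded.min wellFounded_lt U hU ∈ U := WellFounded.min_mem _ _ _
  refine ⟨WellFounded.min wellFounded_lt U hU, ?_, ?_, hs⟩
  · intro b hb
    by_contra h
    have h2 : b ∈ U := by
      intro c hc hcx
      by_contra h3
      exact h (lt_of_lt_of_le (hc b (not_le.1 h3)) (hs c hc hcx))
    exact WellFounded.not_lt_min wellFounded_lt U h2 hb
  · by_contra h
    have h2 : x ∈ U := fun c _ h => h
    exact WellFounded.not_lt_min wellFounded_lt U h2 (not_le.1 h)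

/-- The largest closure point of `φ` below or equal to `x`. -/
noncomputable def drop (φ : K → K) (x : K) : K := Classical.choose (exists_drop φ x)

theorem drop_mem (φ : K → K) (x : K) : drop φ x ∈ Cl φ :=
  (Classical.choose_spec (exists_drop φ x)).1

theorem drop_le (φ : K → K) (x : K) : drop φ x ≤ x :=
  (Classical.choose_spec (exists_drop φ x)).2.1

theorem le_drop {φ : K → K} {x c : K} (hc : c ∈ Cl φ) (h : c ≤ x) : c ≤ drop φ x :=
  (Classical.choose_spec (exists_drop φ x)).2.2 c hc h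

theorem drop_anti {φ ψ : K → K} (h : φ ≤ ψ) (x : K) : drop ψ x ≤ drop φ x :=
  le_drop (Cl_anti h (drop_mem ψ x)) (drop_le ψ x)

theorem drop_drop {φ ψ : K → K} (h : φ ≤ ψ) (x : K) : drop ψ (drop φ x) = drop ψ x :=
  le_antisymm (le_drop (drop_mem _ _) ((drop_le _ _).trans (drop_le _ _)))
    (le_drop (drop_mem _ _) (drop_anti h x))

theorem drop_self {φ : K → K} {c : K} (hc : c ∈ Cl φ) : drop φ c = c :=
  le_antisymm (drop_le _ _) (le_drop hc le_rfl)

/-- An infinite set in a well-order contains a strictly increasing sequence. -/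
theorem exists_strictMono_of_infinite {A : Set K} (hA : A.Infinite) :
    ∃ f : ℕ → K, StrictMono f ∧ ∀ k, f k ∈ A := by
  obtain ⟨g, hg⟩ := exists_increasing_or_nonincreasing_subseq (· < ·)
    (fun n => ((hA.natEmbedding A n : A) : K))
  rcases hg with hg | hg
  · exact ⟨fun n => ((hA.natEmbedding A (g n) : A) : K), fun m n h => hg m n h,
      fun k => (hA.natEmbedding A (g k)).2⟩
  · exfalso
    have h1 : StrictAnti fun n => ((hA.natEmbedding A (g n) : A) : K) := by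
      intro m n h
      refine lt_of_le_of_ne (not_lt.1 (hg m n h)) fun h2 => ?_
      have h3 := g.injective ((hA.natEmbedding A).injective (Subtype.ext h2))
      exact h.ne' h3
    obtain ⟨n, hn⟩ := WellFounded.not_rel_apply_succ (r := ((· < ·) : K → K → Prop))
      (fun n => ((hA.natEmbedding A (g n) : A) : K))
    exact hn (h1 (Nat.lt_succ_self n))

end basics

section stab

/-- Nonincreasing functions on `ω₁` into a well-order are eventually constant. -/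
theorem ev_const_of_antitone {K : Type u} [LinearOrder K] [WellFoundedLT K] (f : W1.{u} → K)
    (hf : ∀ i j, i ≤ j → f j ≤ f i) [Nonempty W1.{u}] : ∃ i0, ∀ i, i0 ≤ i → f i = f i0 := by
  have hne : (range f).Nonempty := range_nonempty f
  obtain ⟨i0, hi0⟩ := WellFounded.min_mem wellFounded_lt (range f) hne
  refine ⟨i0, fun i hi => le_antisymm (hf _ _ hi) ?_⟩
  rw [hi0]
  exact not_lt.1 (WellFounded.not_lt_min wellFounded_lt (range f) ⟨i, rfl⟩)

/-- Bounded nondecreasing functions from `ω₁` to `ω₁` are eventually constant. -/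
theorem ev_const_of_monotone (f : W1.{u} → W1.{u}) (w : W1.{u}) (hw : ∀ i, f i ≤ w)
    (hf : ∀ i j, i ≤ j → f i ≤ f j) : ∃ i0, ∀ i, i0 ≤ i → f i = f i0 := by
  classical
  have hc : (range f).Countable := (W1_countable_Iic w).mono (by
    rintro _ ⟨i, rfl⟩
    exact hw i)
  have : Countable (range f) := hc.to_subtype
  choose g hg using fun v : range f => v.2
  obtain ⟨i0, hi0⟩ := W1_bdd (range g) (countable_range g)
  refine ⟨i0, fun i hi => le_antisymm ?_ (hf _ _ hi)⟩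
  have h1 : g ⟨f i, i, rfl⟩ < i0 := hi0 _ ⟨_, rfl⟩
  have h2 : f (g ⟨f i, i, rfl⟩) = f i := hg ⟨f i, i, rfl⟩
  rw [← h2]
  exact hf _ _ h1.le

/-- Countably many eventually constant functions on `ω₁` are constant from a common place on. -/
theorem common_stage {ι : Type*} [Countable ι] {β : ι → Type*} (f : ∀ x, W1.{u} → β x)
    (hf : ∀ x, ∃ i0, ∀ i, i0 ≤ i → f x i = f x i0) :
    ∃ i0, ∀ i, i0 ≤ i → ∀ x, f x i = f x i0 := by
  choose g hg using hf
  obtain ⟨i0, hi0⟩ := W1_bdd (range g) (countable_range g)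
  refine ⟨i0, fun i hi x => ?_⟩
  have h1 : g x < i0 := hi0 _ ⟨x, rfl⟩
  rw [hg x i (h1.le.trans hi), hg x i0 h1.le]

variable {K : Type u} [LinearOrder K] [WellFoundedLT K]

theorem card_W1 : #W1.{u} = ℵ₁ := mk_ord_toType _

instance : Nonempty W1.{u} := by
  rw [← mk_ne_zero_iff, card_W1]
  exact (aleph_pos 1).ne'

omit [WellFoundedLT K] in
/-- Build an increasing sequence of functions with prescribed jumps. -/
theorem exists_chain (hK : IdxOK K ℵ₁) (Φ : (K → K) → K → K) :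
    ∃ Ψ : W1.{u} → K → K, ∀ i j, i < j → ∀ b, Ψ i b < Ψ j b ∧ Φ (Ψ i) b < Ψ j b := by
  classical
  have hbd : ∀ (j : W1.{u}) (F : ∀ i, i < j → K → K) (b : K),
      ∃ c, ∀ (i : W1.{u}) (h : i < j), F i h b < c ∧ Φ (F i h) b < c := by
    intro j F b
    have h1 : (range (fun i : Iio j => F i.1 i.2 b) ∪
        range (fun i : Iio j => Φ (F i.1 i.2) b)).Countable := by
      have : Countable (Iio j) := (W1_countable_Iio j).to_subtype
      exact (countable_range _).union (countable_range _)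
    obtain ⟨c, hc⟩ := hK.bdd _ (h1.le_aleph0.trans hK.inf)
    exact ⟨c, fun i h => ⟨hc _ (Or.inl ⟨⟨i, h⟩, rfl⟩), hc _ (Or.inr ⟨⟨i, h⟩, rfl⟩)⟩⟩
  choose st hst using hbd
  let Ψ : W1.{u} → K → K := (wellFounded_lt (α := W1.{u})).fix
    (C := fun _ => K → K) (fun j F => st j F)
  have hΨ : ∀ j, Ψ j = st j (fun i _ => Ψ i) := fun j =>
    WellFounded.fix_eq _ _ _
  refine ⟨Ψ, fun i j hij b => ?_⟩
  have := hst j (fun i _ => Ψ i) b i hij
  rw [hΨ j]
  exact this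

omit [WellFoundedLT K] in
/-- The abstract guessing principle. -/
theorem stab (hK : IdxOK K ℵ₁) {D : Type*} (P : D → (K → K) → Prop)
    (F : (K → K) → D → Set K) (hF : ∀ ψ d, F ψ d ⊆ Cl ψ)
    (hs : ∀ Ψ : W1.{u} → K → K, (∀ i j, i ≤ j → Ψ i ≤ Ψ j) →
      ∃ (d : D) (i0 : W1.{u}), ∀ i, i0 ≤ i → P d (Ψ i) ∧ F (Ψ i) d = F (Ψ i0) d) :
    ∃ ψ : K → K, ∀ φ : K → K, ∃ d, P d ψ ∧ F ψ d ⊆ Cl φ := by
  by_contra hcon
  push Not at hcon
  choose Φ hΦ using hcon
  obtain ⟨Ψ, hΨ⟩ := exists_chain hK Φ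
  have hmono : ∀ i j, i ≤ j → Ψ i ≤ Ψ j := by
    intro i j hij b
    rcases hij.lt_or_eq with h | h
    · exact (hΨ i j h b).1.le
    · rw [h]
  obtain ⟨d, i0, hd⟩ := hs Ψ hmono
  obtain ⟨i1, hi1⟩ := W1_bdd {i0} (countable_singleton i0)
  have h01 : i0 < i1 := hi1 i0 rfl
  refine hΦ (Ψ i0) d (hd i0 le_rfl).1 ?_
  rw [← (hd i1 h01.le).2]
  exact (hF _ _).trans (Cl_anti fun b => (hΨ i0 i1 h01 b).2.le)

theorem card_range_W1 {α : Type u} (f : W1.{u} → α) : #(range f) ≤ ℵ₁ :=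
  mk_range_le.trans card_W1.le

omit [WellFoundedLT K] in
/-- An upper bound of a family of functions indexed by `ω₁`. -/
theorem exists_upper (hK : IdxOK K ℵ₁) (Ψ : W1.{u} → K → K) : ∃ ψ : K → K, ∀ i, Ψ i ≤ ψ := by
  have h : ∀ b, ∃ c, ∀ i, Ψ i b < c := by
    intro b
    obtain ⟨c, hc⟩ := hK.bdd (range fun i => Ψ i b) (card_range_W1 _)
    exact ⟨c, fun i => hc _ ⟨i, rfl⟩⟩
  choose ψ hψ using h
  exact ⟨ψ, fun i b => (hψ b i).le⟩

end stab

section main
variable {K : Type u} [LinearOrder K] [WellFoundedLT K]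

/-- Countable cofinality, witnessed by a ladder. -/
def CofOm (d : K) : Prop :=
  ∃ l : ℕ → K, StrictMono l ∧ (∀ n, l n < d) ∧ ∀ b, b < d → ∃ n, b < l n

theorem exists_cl_cofOm (hK : IdxOK K ℵ₁) (φ : K → K) (a : K) :
    ∃ c : K, a < c ∧ c ∈ Cl φ ∧ CofOm c := by
  have hstep : ∀ x : K, ∃ c, x < c ∧ ∀ b ≤ x, φ b < c := by
    intro x
    obtain ⟨c, h1, h2⟩ := exists_step hK φ {x} (by simpa using one_le_aleph0.trans hK.inf)
    exact ⟨c, h1 x rfl, fun b hb => h2 x rfl b hb⟩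
  choose st hst1 hst2 using hstep
  let s : ℕ → K := fun n => st^[n] a
  have hs0 : s 0 = a := rfl
  have hsucc : ∀ n, s (n + 1) = st (s n) := fun n => Function.iterate_succ_apply' st n a
  have hmono : StrictMono s := strictMono_nat_of_lt_succ fun n => hsucc n ▸ hst1 _
  obtain ⟨c, hc1, hc2⟩ := exists_lsub hK (range s)
    ((Set.countable_range s).le_aleph0.trans hK.inf)
  refine ⟨c, hs0 ▸ hc1 _ ⟨0, rfl⟩, ?_, s, hmono, fun n => hc1 _ ⟨n, rfl⟩, ?_⟩
  · intro b hb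
    obtain ⟨_, ⟨n, rfl⟩, hn⟩ := hc2 b hb
    exact lt_trans (hsucc n ▸ hst2 _ b hn) (hc1 _ ⟨n + 1, rfl⟩)
  · intro b hb
    obtain ⟨_, ⟨n, rfl⟩, hn⟩ := hc2 b hb
    exact ⟨n + 1, lt_of_le_of_lt hn (hmono (Nat.lt_succ_self n))⟩

theorem exists_next (hK : IdxOK K ℵ₁) (ψ : K → K) :
    ∃ φ : K → K, ∀ c ∈ Cl φ, (∃ b, b < c) → c ∈ Acc (Cl ψ) := by
  choose φ h1 h2 _ using exists_cl_cofOm hK ψ
  exact ⟨φ, fun c hc hb => ⟨hb, fun b hbc => ⟨φ b, h2 b, h1 b, hc b hbc⟩⟩⟩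

/-- A ladder at a point of countable cofinality. -/
noncomputable def lad (d : {d : K // CofOm d}) : ℕ → K := Classical.choose d.2

omit [WellFoundedLT K] in
theorem lad_strictMono (d : {d : K // CofOm d}) : StrictMono (lad d) :=
  (Classical.choose_spec d.2).1

omit [WellFoundedLT K] in
theorem lad_lt (d : {d : K // CofOm d}) (n : ℕ) : lad d n < d.1 :=
  (Classical.choose_spec d.2).2.1 n

omit [WellFoundedLT K] in
theorem lad_cof (d : {d : K // CofOm d}) (b : K) (hb : b < d.1) : ∃ n, b < lad d n :=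
  (Classical.choose_spec d.2).2.2 b hb

/-- Guessing modulo the dropping operation. -/
theorem step_one (hK : IdxOK K ℵ₁) : ∃ ψ : K → K, ∀ φ : K → K, ∃ d : {d : K // CofOm d},
    d.1 ∈ Acc (Cl ψ) ∧ ∀ n, drop ψ (lad d n) ∈ Cl φ := by
  obtain ⟨ψ, hψ⟩ := stab hK (D := {d : K // CofOm d}) (fun d ψ => d.1 ∈ Acc (Cl ψ))
    (fun ψ d => range fun n => drop ψ (lad d n)) (by
      rintro ψ d _ ⟨n, rfl⟩
      exact drop_mem _ _) (by
      intro Ψ hΨ
      obtain ⟨ψ, hψ⟩ := exists_upper hK Ψ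
      obtain ⟨φ, hφ⟩ := exists_next hK ψ
      obtain ⟨a⟩ := hK.ne
      obtain ⟨c, hac, hc, hcof⟩ := exists_cl_cofOm hK φ a
      have hacc := hφ c hc ⟨a, hac⟩
      obtain ⟨i0, hi0⟩ := common_stage (ι := ℕ) (fun n i => drop (Ψ i) (lad ⟨c, hcof⟩ n))
        (fun n => ev_const_of_antitone _ fun i j hij => drop_anti (hΨ i j hij) _)
      refine ⟨⟨c, hcof⟩, i0, fun i hi => ⟨Acc_mono (Cl_anti (hψ i)) hacc, ?_⟩⟩
      exact congrArg range (funext (hi0 i hi)))
  refine ⟨ψ, fun φ => ?_⟩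
  obtain ⟨d, h1, h2⟩ := hψ φ
  exact ⟨d, h1, fun n => h2 ⟨n, rfl⟩⟩

omit [WellFoundedLT K] in
theorem exists_enum (hK : IdxOK K ℵ₁) (a : K) :
    ∃ e : W1.{u} → K, ∀ x, x < a → ∃ i, e i = x := by
  by_cases h : (Iio a).Nonempty
  · have h1 : #(Iio a) ≤ #W1.{u} := (hK.small a).trans card_W1.ge
    obtain ⟨f⟩ := h1
    have : Nonempty (Iio a) := h.to_subtype
    refine ⟨fun i => (Function.invFun f i : Iio a), fun x hx => ⟨f ⟨x, hx⟩, ?_⟩⟩
    exact congrArg Subtype.val (Function.leftInverse_invFun f.injective ⟨x, hx⟩)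
  · exact ⟨fun _ => a, fun x hx => (h ⟨x, hx⟩).elim⟩

/-- The values of the dropping operation in `(b, a)` which appear before `j`. -/
def AA (e : K → W1.{u} → K) (ψ : K → K) (a b : K) (j : W1.{u}) : Set K :=
  {c | ∃ i, i < j ∧ e a i < a ∧ c = drop ψ (e a i) ∧ b < c}

theorem AA_mono (e : K → W1.{u} → K) (ψ : K → K) (a b : K) {j j' : W1.{u}} (h : j ≤ j') :
    AA e ψ a b j ⊆ AA e ψ a b j' := by
  rintro c ⟨i, h1, h2⟩
  exact ⟨i, h1.trans_le h, h2⟩

theorem AA_sub (e : K → W1.{u} → K) (ψ : K → K) (a b : K) (j : W1.{u}) :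
    AA e ψ a b j ⊆ Ioo b a := by
  rintro c ⟨i, _, h2, rfl, h3⟩
  exact ⟨h3, (drop_le _ _).trans_lt h2⟩

theorem AA_infinite_anti (e : K → W1.{u} → K) {ψ ψ' : K → K} (h : ψ ≤ ψ') (a b : K)
    (j : W1.{u}) (hi : (AA e ψ' a b j).Infinite) : (AA e ψ a b j).Infinite := by
  intro hf
  refine hi ((hf.image (drop ψ')).subset ?_)
  rintro c ⟨i, h1, h2, rfl, h3⟩
  exact ⟨drop ψ (e a i), ⟨i, h1, h2, rfl, h3.trans_le (drop_anti h _)⟩, drop_drop h _⟩

theorem exists_AA_infinite (e : K → W1.{u} → K) (he : ∀ a x, x < a → ∃ i, e a i = x)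
    (ψ : K → K) (a b : K) (ha : a ∈ Acc (Cl ψ)) (hb : b < a) :
    ∃ j, (AA e ψ a b j).Infinite := by
  have h1 : (Cl ψ ∩ Ioo b a).Infinite := by
    intro hf
    obtain ⟨c0, hc0, hbc0, hc0a⟩ := ha.2 b hb
    obtain ⟨m, hm, hmax⟩ := hf.exists_maximal ⟨c0, hc0, hbc0, hc0a⟩
    obtain ⟨c, hc, hmc, hca⟩ := ha.2 m hm.2.2
    exact absurd (hmax ⟨hc, hm.2.1.trans hmc, hca⟩ hmc.le) (not_le.2 hmc)
  let f := h1.natEmbedding (Cl ψ ∩ Ioo b a)
  have h2 : ∀ n, ∃ i, e a i = (f n : K) := fun n => he a _ (f n).2.2.2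
  choose g hg using h2
  obtain ⟨j, hj⟩ := W1_bdd (range g) (countable_range g)
  refine ⟨j, (Set.infinite_range_of_injective
    (Subtype.val_injective.comp f.injective)).mono ?_⟩
  rintro _ ⟨n, rfl⟩
  exact ⟨g n, hj _ ⟨n, rfl⟩, by rw [hg n]; exact (f n).2.2.2,
    by rw [hg n]; exact (drop_self (f n).2.1).symm, (f n).2.2.1⟩

open Classical in
/-- The first place where infinitely many values have appeared. -/
noncomputable def jst (e : K → W1.{u} → K) (ψ : K → K) (a b : K) : W1.{u} :=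
  if h : {j | (AA e ψ a b j).Infinite}.Nonempty then WellFounded.min wellFounded_lt _ h
  else Classical.arbitrary _

theorem jst_spec (e : K → W1.{u} → K) (ψ : K → K) (a b : K)
    (h : ∃ j, (AA e ψ a b j).Infinite) : (AA e ψ a b (jst e ψ a b)).Infinite := by
  have h' : {j | (AA e ψ a b j).Infinite}.Nonempty := h
  rw [jst, dif_pos h']
  exact WellFounded.min_mem wellFounded_lt _ h'

theorem jst_le (e : K → W1.{u} → K) (ψ : K → K) (a b : K) (j : W1.{u})
    (h : (AA e ψ a b j).Infinite) : jst e ψ a b ≤ j := by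
  have h' : {j | (AA e ψ a b j).Infinite}.Nonempty := ⟨j, h⟩
  rw [jst, dif_pos h']
  exact not_lt.1 (WellFounded.not_lt_min wellFounded_lt _ h)

/-- Guessing by infinite sets. -/
theorem step_two (hK : IdxOK K ℵ₁) : ∃ (De : Set K) (G : K → Set K),
    (∀ d ∈ De, CofOm d ∧ ∀ b, b < d → ∃ c, c < d ∧ (G d ∩ Ioo b c).Infinite) ∧
    ∀ φ : K → K, ∃ d ∈ De, G d ⊆ Cl φ := by
  classical
  obtain ⟨ψ₁, hψ₁⟩ := step_one hK
  choose e he using exists_enum hK
  let an : {d : K // CofOm d} → ℕ → K := fun d n => drop ψ₁ (lad d n)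
  let P : {d : K // CofOm d} → (K → K) → Prop := fun d ψ => d.1 ∈ Acc (Cl ψ₁) ∧
    ∀ n m, lad d m < an d n → an d n ∈ Acc (Cl ψ)
  let F : (K → K) → {d : K // CofOm d} → Set K := fun ψ d =>
    {c | ∃ q : ℕ × ℕ, lad d q.1 < an d q.2 ∧
      c ∈ AA e ψ (an d q.2) (lad d q.1) (jst e ψ (an d q.2) (lad d q.1))}
  obtain ⟨ψ₂, hψ₂⟩ := stab hK P F (by
      rintro ψ d c ⟨q, _, i, _, _, rfl, _⟩
      exact drop_mem _ _) (by
      intro Ψ hΨ
      obtain ⟨ψ, hψ⟩ := exists_upper hK Ψ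
      obtain ⟨φ, hφ⟩ := exists_next hK ψ
      obtain ⟨d, hd1, hd2⟩ := hψ₁ φ
      have hacc : ∀ n m, lad d m < an d n → an d n ∈ Acc (Cl ψ) :=
        fun n m h => hφ _ (hd2 n) ⟨_, h⟩
      have hacc' : ∀ i n m, lad d m < an d n → an d n ∈ Acc (Cl (Ψ i)) :=
        fun i n m h => Acc_mono (Cl_anti (hψ i)) (hacc n m h)
      -- stabilisation for one pair
      have key : ∀ q : ℕ × ℕ, ∃ i0, ∀ i, i0 ≤ i →
          (lad d q.1 < an d q.2 ∧
            AA e (Ψ i) (an d q.2) (lad d q.1) (jst e (Ψ i) (an d q.2) (lad d q.1)) =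
            AA e (Ψ i0) (an d q.2) (lad d q.1) (jst e (Ψ i0) (an d q.2) (lad d q.1))) ∨
          ¬ lad d q.1 < an d q.2 := by
        intro q
        by_cases hq : lad d q.1 < an d q.2
        · have hinf : ∀ i, ∃ j, (AA e (Ψ i) (an d q.2) (lad d q.1) j).Infinite := fun i =>
            exists_AA_infinite e he _ _ _ (hacc' i q.2 q.1 hq) hq
          have hinf' : ∃ j, (AA e ψ (an d q.2) (lad d q.1) j).Infinite :=
            exists_AA_infinite e he _ _ _ (hacc q.2 q.1 hq) hq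
          obtain ⟨i1, hi1⟩ := ev_const_of_monotone
            (fun i => jst e (Ψ i) (an d q.2) (lad d q.1))
            (jst e ψ (an d q.2) (lad d q.1))
            (fun i => jst_le _ _ _ _ _ (AA_infinite_anti e (hψ i) _ _ _
              (jst_spec _ _ _ _ hinf')))
            (fun i j hij => jst_le _ _ _ _ _ (AA_infinite_anti e (hΨ i j hij) _ _ _
              (jst_spec _ _ _ _ (hinf j))))
          obtain ⟨js, hjs⟩ : ∃ js, js = jst e (Ψ i1) (an d q.2) (lad d q.1) := ⟨_, rfl⟩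
          have : Countable (Iio js) := (W1_countable_Iio js).to_subtype
          obtain ⟨i2, hi2⟩ := common_stage (ι := Iio js)
            (fun w i => drop (Ψ i) (e (an d q.2) w.1))
            (fun w => ev_const_of_antitone _ fun i j hij => drop_anti (hΨ i j hij) _)
          refine ⟨max i1 i2, fun i hi => Or.inl ⟨hq, ?_⟩⟩
          have h1 : jst e (Ψ i) (an d q.2) (lad d q.1) = js := by
            rw [hjs]
            exact hi1 i ((le_max_left _ _).trans hi)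
          have h2 : jst e (Ψ (max i1 i2)) (an d q.2) (lad d q.1) = js := by
            rw [hjs]
            exact hi1 _ (le_max_left _ _)
          rw [h1, h2]
          have h3 : ∀ w, w < js → drop (Ψ i) (e (an d q.2) w) =
              drop (Ψ (max i1 i2)) (e (an d q.2) w) := by
            intro w hw
            have h4 := hi2 i ((le_max_right _ _).trans hi) ⟨w, hw⟩
            have h5 := hi2 (max i1 i2) (le_max_right _ _) ⟨w, hw⟩
            simp only at h4 h5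
            rw [h4, h5]
          ext c
          constructor
          · rintro ⟨w, hw, hw2, rfl, hw3⟩
            rw [h3 w hw] at hw3 ⊢
            exact ⟨w, hw, hw2, rfl, hw3⟩
          · rintro ⟨w, hw, hw2, rfl, hw3⟩
            rw [← h3 w hw] at hw3 ⊢
            exact ⟨w, hw, hw2, rfl, hw3⟩
        · obtain ⟨i0⟩ := (inferInstance : Nonempty W1.{u})
          exact ⟨i0, fun i _ => Or.inr hq⟩
      choose g hg using key
      obtain ⟨i0, hi0⟩ := W1_bdd (range g) (countable_range g)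
      have hg0 : ∀ q, g q ≤ i0 := fun q => (hi0 _ ⟨q, rfl⟩).le
      refine ⟨d, i0, fun i hi => ⟨⟨hd1, hacc' i⟩, ?_⟩⟩
      ext c
      have hc : ∀ q : ℕ × ℕ, lad d q.1 < an d q.2 →
          AA e (Ψ i) (an d q.2) (lad d q.1) (jst e (Ψ i) (an d q.2) (lad d q.1)) =
          AA e (Ψ i0) (an d q.2) (lad d q.1) (jst e (Ψ i0) (an d q.2) (lad d q.1)) := by
        intro q hq
        have h1 := (hg q i ((hg0 q).trans hi)).resolve_right (not_not.2 hq)
        have h2 := (hg q i0 (hg0 q)).resolve_right (not_not.2 hq)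
        rw [h1.2, h2.2]
      constructor
      · rintro ⟨q, hq, hcq⟩
        exact ⟨q, hq, hc q hq ▸ hcq⟩
      · rintro ⟨q, hq, hcq⟩
        exact ⟨q, hq, (hc q hq).symm ▸ hcq⟩)
  refine ⟨{d | ∃ h : CofOm d, P ⟨d, h⟩ ψ₂}, fun d => {c | ∃ h : CofOm d, c ∈ F ψ₂ ⟨d, h⟩},
    ?_, ?_⟩
  · rintro d ⟨hd, hP⟩
    refine ⟨hd, fun b hb => ?_⟩
    obtain ⟨m, hm⟩ := lad_cof ⟨d, hd⟩ b hb
    obtain ⟨c, hc, hmc, hcd⟩ := hP.1.2 _ (lad_lt ⟨d, hd⟩ m)
    obtain ⟨n, hn⟩ := lad_cof ⟨d, hd⟩ c hcd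
    have h1 : lad ⟨d, hd⟩ m < an ⟨d, hd⟩ n := hmc.trans_le (le_drop hc hn.le)
    refine ⟨an ⟨d, hd⟩ n, (drop_le _ _).trans_lt (lad_lt _ n), ?_⟩
    have h2 := jst_spec e ψ₂ _ _ (exists_AA_infinite e he ψ₂ _ _ (hP.2 n m h1) h1)
    refine h2.mono fun c hc => ⟨⟨hd, (m, n), h1, hc⟩, ?_⟩
    have h3 := AA_sub e ψ₂ _ _ _ hc
    exact ⟨hm.trans h3.1, h3.2⟩
  · intro φ
    obtain ⟨d, h1, h2⟩ := hψ₂ φ
    exact ⟨d.1, ⟨d.2, h1⟩, fun c ⟨_, hc⟩ => h2 hc⟩

/-- Extraction of the blocks. -/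
theorem exists_blocks (d : K) (hd : CofOm d) (G : Set K)
    (hG : ∀ b, b < d → ∃ c, c < d ∧ (G ∩ Ioo b c).Infinite) :
    ∃ (al : ℕ → K) (be : ℕ → ℕ → K), StrictMono al ∧ (∀ n, al n < d) ∧
      (∀ b, b < d → ∃ n, b < al n) ∧ ∀ n, StrictMono (be n) ∧
        ∀ k, al n < be n k ∧ be n k < al (n + 1) ∧ be n k ∈ G := by
  obtain ⟨l, hl1, hl2, hl3⟩ := hd
  choose c hc1 hc2 using hG
  let st : ℕ → {x : K // x < d} → {x : K // x < d} := fun n x =>
    ⟨max (c x.1 x.2) (l n), max_lt (hc1 x.1 x.2) (hl2 n)⟩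
  let s : ℕ → {x : K // x < d} := fun n => Nat.rec ⟨l 0, hl2 0⟩ (fun n x => st n x) n
  have hs : ∀ n, s (n + 1) = st n (s n) := fun n => rfl
  have hf : ∀ n, ∃ f : ℕ → K, StrictMono f ∧ ∀ k, f k ∈ G ∩ Ioo (s n).1 (c (s n).1 (s n).2) :=
    fun n => exists_strictMono_of_infinite (hc2 (s n).1 (s n).2)
  choose be hbe1 hbe2 using hf
  have h1 : ∀ n k, (s n).1 < be n k ∧ be n k < (s (n + 1)).1 := fun n k =>
    ⟨(hbe2 n k).2.1, ((hbe2 n k).2.2).trans_le (by rw [hs]; exact le_max_left _ _)⟩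
  refine ⟨fun n => (s n).1, be, strictMono_nat_of_lt_succ fun n => (h1 n 0).1.trans (h1 n 0).2,
    fun n => (s n).2, fun b hb => ?_, fun n => ⟨hbe1 n, fun k => ⟨(h1 n k).1, (h1 n k).2,
      (hbe2 n k).1⟩⟩⟩
  obtain ⟨n, hn⟩ := hl3 b hb
  exact ⟨n + 1, hn.trans_le (by simp only [hs]; exact le_max_right _ _)⟩

end main

end Guess

/-- Club guessing of rank two. -/
theorem exists_guess {K : Type u} [LinearOrder K] [WellFoundedLT K] (hK : IdxOK K (ℵ₁)) :
    ∃ (De : Set K) (al : K → ℕ → ℕ → K) (be : K → ℕ → ℕ → ℕ → K),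
      (∀ d ∈ De, ∀ N, StrictMono (al d N) ∧ (∀ n, al d N n < d) ∧
        (∀ b < d, ∃ n, b < al d N n) ∧
        ∀ n, StrictMono (be d N n) ∧
          ∀ k, al d N n < be d N n k ∧ be d N n k < al d N (n + 1)) ∧
      ∀ φ : K → K, ∃ d ∈ De, ∃ N, ∀ n k, ∀ b < be d N n k, φ b < be d N n k := by
  classical
  obtain ⟨De, G, hG, hφ⟩ := Guess.step_two hK
  have h1 : ∀ d : K, ∃ (al : ℕ → K) (be : ℕ → ℕ → K), d ∈ De → StrictMono al ∧
      (∀ n, al n < d) ∧ (∀ b, b < d → ∃ n, b < al n) ∧ ∀ n, StrictMono (be n) ∧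
        ∀ k, al n < be n k ∧ be n k < al (n + 1) ∧ be n k ∈ G d := by
    intro d
    by_cases hd : d ∈ De
    · obtain ⟨al, be, h⟩ := Guess.exists_blocks d (hG d hd).1 (G d) (hG d hd).2
      exact ⟨al, be, fun _ => h⟩
    · exact ⟨fun _ => d, fun _ _ => d, fun h => (hd h).elim⟩
  choose al be hab using h1
  refine ⟨De, fun d _ => al d, fun d _ => be d, fun d hd N => ?_, fun φ => ?_⟩
  · obtain ⟨h1, h2, h3, h4⟩ := hab d hd
    exact ⟨h1, h2, h3, fun n => ⟨(h4 n).1, fun k => ⟨((h4 n).2 k).1, ((h4 n).2 k).2.1⟩⟩⟩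
  · obtain ⟨d, hd, h⟩ := hφ φ
    exact ⟨d, hd, 0, fun n k b hb => h (((hab d hd).2.2.2 n).2 k).2.2 b hb⟩

end Pool.Agent.UnivA
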