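import Mathlib

/-!
# The lemma on reals

If `ℵ₁ < 𝔠` and `z i` (`i ∈ I`, `#I ≤ ℵ₁`) are functions `ℕ → ℕ`, there are at most `ℵ₁` many
functions `s o` such that every continuous answer `Ψ` with `h k < Ψ k h` answers some `s o` by a
function different from all `z i`.
-/

open Cardinal

namespace Pool.Agent.UnivA

universe u

namespace RealL

/-- The coding function: `hist ψ g k` is the list of the first `k` values. -/
noncomputable def hist (ψ : List ℕ → ℕ) (g : ℕ → Bool) : ℕ → List ℕ
  | 0 => []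
  | k + 1 => hist ψ g k ++ [if g k then ψ (hist ψ g k ++ [0]) + 1 else 0]

noncomputable def code (ψ : List ℕ → ℕ) (g : ℕ → Bool) (k : ℕ) : ℕ :=
  if g k then ψ (hist ψ g k ++ [0]) + 1 else 0

theorem hist_succ (ψ : List ℕ → ℕ) (g : ℕ → Bool) (k : ℕ) :
    hist ψ g (k + 1) = hist ψ g k ++ [code ψ g k] := rfl

theorem hist_length (ψ : List ℕ → ℕ) (g : ℕ → Bool) (k : ℕ) : (hist ψ g k).length = k := by
  induction k with
  | zero => rfl
  | succ k ih => rw [hist_succ, List.length_append, ih]; rfl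

theorem hist_eq (ψ : List ℕ → ℕ) (g : ℕ → Bool) (k : ℕ) :
    hist ψ g k = (List.range k).map (code ψ g) := by
  induction k with
  | zero => rfl
  | succ k ih => rw [hist_succ, ih, List.range_succ, List.map_append]; rfl

/-- Decoding: the list reconstructed from the answers `w`. -/
noncomputable def dhist (ψ : List ℕ → ℕ) (w : ℕ → ℕ) : ℕ → List ℕ
  | 0 => []
  | k + 1 => dhist ψ w k ++ [if ψ (dhist ψ w k ++ [0]) < w k then ψ (dhist ψ w k ++ [0]) + 1 else 0]

noncomputable def dec (ψ : List ℕ → ℕ) (w : ℕ → ℕ) (k : ℕ) : Bool :=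
  decide (ψ (dhist ψ w k ++ [0]) < w k)

theorem decode (ψ : List ℕ → ℕ) (g : ℕ → Bool) (w : ℕ → ℕ)
    (h0 : ∀ k, g k = false → w k ≤ ψ (hist ψ g k ++ [0]))
    (h1 : ∀ k, g k = true → ψ (hist ψ g k ++ [0]) < w k) :
    (∀ k, dhist ψ w k = hist ψ g k) ∧ dec ψ w = g := by
  have key : ∀ k, dhist ψ w k = hist ψ g k := by
    intro k
    induction k with
    | zero => rfl
    | succ k ih =>
      show dhist ψ w k ++ [if ψ (dhist ψ w k ++ [0]) < w k then _ else 0] =
        hist ψ g k ++ [if g k then ψ (hist ψ g k ++ [0]) + 1 else 0]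
      rw [ih]
      cases hg : g k with
      | false =>
        have := h0 k hg
        rw [if_neg (not_lt.2 this)]
        simp
      | true =>
        have := h1 k hg
        rw [if_pos this]
        simp
  refine ⟨key, ?_⟩
  funext k
  unfold dec
  rw [key k]
  cases hg : g k with
  | false => simpa using h0 k hg
  | true => simpa using h1 k hg

end RealL

open RealL in
/-- The lemma on reals. -/
theorem real_index {I : Type u} (hI : #I ≤ ℵ₁) (hc : (ℵ₁ : Cardinal.{u}) < 𝔠) (z : I → ℕ → ℕ) :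
    ∃ s : Option I → (ℕ → ℕ), ∀ Ψ : ℕ → (ℕ → ℕ) → ℕ,
      (∀ k h h', (∀ i ≤ k, h i = h' i) → Ψ k h = Ψ k h') → (∀ k h, h k < Ψ k h) →
      ∃ o, ∀ i, ∃ k, Ψ k (s o) ≠ z i k := by
  by_cases hcase : ∃ h : ℕ → ℕ, ∀ i, ∃ k, z i k ≤ h k
  · obtain ⟨h, hh⟩ := hcase
    refine ⟨fun _ => h, fun Ψ _ h2 => ⟨none, fun i => ?_⟩⟩
    obtain ⟨k, hk⟩ := hh i
    exact ⟨k, (lt_of_le_of_lt hk (h2 k h)).ne'⟩
  · push Not at hcase
    let ψ : I → List ℕ → ℕ := fun i σ => z i (Encodable.encode σ)
    -- choose g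
    have hg : ∃ g : ℕ → Bool, ∀ i j, dec (ψ i) (z j) ≠ g := by
      by_contra hcon
      push Not at hcon
      have hsurj : Function.Surjective (fun p : I × I => dec (ψ p.1) (z p.2)) := by
        intro g
        obtain ⟨i, j, hij⟩ := hcon g
        exact ⟨(i, j), hij⟩
      have h1 := Cardinal.lift_mk_le_lift_mk_of_surjective hsurj
      have h2 : #(I × I) ≤ ℵ₁ := by
        rw [mk_prod, lift_id]
        exact (mul_le_mul' hI hI).trans (mul_eq_self (aleph0_le_aleph 1)).le
      have h3 : lift.{u} #(ℕ → Bool) = 𝔠 := by simp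
      rw [h3, lift_id'.{0, u}] at h1
      exact absurd (h1.trans h2) (not_le.2 hc)
    obtain ⟨g, hg⟩ := hg
    refine ⟨fun o => o.elim (fun _ => 0) (fun i => code (ψ i) g), fun Ψ hdep hgt => ?_⟩
    -- Ψ as a function of lists
    let Ψ' : List ℕ → ℕ := fun σ => Ψ (σ.length - 1) (fun i => σ.getD i 0)
    obtain ⟨i, hi⟩ := hcase (fun n => ((Encodable.decode n : Option (List ℕ)).map Ψ').getD 0)
    have hi' : ∀ σ : List ℕ, Ψ' σ < ψ i σ := by
      intro σ
      have := hi (Encodable.encode σ)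
      simpa [Encodable.encodek] using this
    refine ⟨some i, fun j => ?_⟩
    by_contra hcon
    push Not at hcon
    have hcon' : ∀ k, Ψ k (code (ψ i) g) = z j k := hcon
    have hval : ∀ k, z j k = Ψ' (hist (ψ i) g (k + 1)) := by
      intro k
      rw [← hcon' k]
      show Ψ k (code (ψ i) g) =
        Ψ ((hist (ψ i) g (k + 1)).length - 1) (fun l => (hist (ψ i) g (k + 1)).getD l 0)
      rw [hist_length, Nat.add_sub_cancel]
      apply hdep
      intro l hl
      rw [hist_eq, List.getD_eq_getElem?_getD, List.getElem?_map, List.getElem?_range (by omega)]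
      simp
    refine hg i j (decode (ψ i) g (z j) (fun k hk => ?_) (fun k hk => ?_)).2
    · rw [hval k]
      have : hist (ψ i) g (k + 1) = hist (ψ i) g k ++ [0] := by
        rw [hist_succ]
        simp [code, hk]
      rw [this]
      exact (hi' _).le
    · have h1 := hgt k (code (ψ i) g)
      rw [hcon' k] at h1
      have h2 : code (ψ i) g k = ψ i (hist (ψ i) g k ++ [0]) + 1 := by simp [code, hk]
      rw [h2] at h1
      omega

end Pool.Agent.UnivA
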