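import Pool.Agent.UnivA.Diamond
import Pool.Agent.UnivA.Core
import Pool.Agent.UnivA.Ctl
import Pool.Agent.UnivA.Guess
import Pool.Agent.UnivA.Real

/-!
# Universal narrow Aronszajn trees: the case where the continuum hypothesis fails

Given block data `al n < be n 0 < be n 1 < ... < al (n+1)` cofinal in a level `d`, the sequence
`blockSeq` follows, in block `n`, finitely many nodes of level `al (n+1)` one after the other.
-/

open Cardinal Set

namespace Pool.Agent.UnivA

universe u

namespace Dom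

variable {K T : Type u} [LinearOrder K]

section Blocks

variable (D : TD K T) (e : K → Idx.{u} → T) (al : ℕ → K) (be : ℕ → ℕ → K)

/-- The block of a level. -/
noncomputable def blk (x : K) : ℕ := sInf {n | x < al (n + 1)}

/-- The piece of a level inside its block. -/
noncomputable def piece (gg : ℕ → ℕ) (x : K) : ℕ :=
  sInf {k | k < gg (blk al x) ∧ x < be (blk al x) k}

/-- The sequence that follows the nodes `nd n k` in block `n`, piece `k`. -/
noncomputable def blockSeq (gg : ℕ → ℕ) (nd : ℕ → ℕ → Idx.{u}) (x : K) : T :=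
  D.res (e (al (blk al x + 1)) (nd (blk al x) (piece al be gg x))) x

variable {al be}

theorem blk_lt {x : K} (h : ∃ n, x < al (n + 1)) : x < al (blk al x + 1) :=
  Nat.sInf_mem (s := {n | x < al (n + 1)}) h

theorem blk_le {x : K} {n : ℕ} (h : x < al (n + 1)) : blk al x ≤ n :=
  Nat.sInf_le (s := {n | x < al (n + 1)}) h

theorem blk_eq (hal : StrictMono al) {x : K} {n : ℕ} (h1 : al n ≤ x) (h2 : x < al (n + 1)) :
    blk al x = n := by
  apply le_antisymm (blk_le h2)
  by_contra hlt
  push Not at hlt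
  have h3 : x < al (blk al x + 1) := blk_lt ⟨n, h2⟩
  have h4 : al (blk al x + 1) ≤ al n := hal.monotone hlt
  exact absurd (h3.trans_le h4) (not_lt.mpr h1)

theorem exists_max_below (c : K) (hc : ∃ b, b < c) (s : Finset K) :
    ∃ b, b < c ∧ ∀ y ∈ s, y < c → y ≤ b := by
  classical
  induction s using Finset.induction with
  | empty =>
    obtain ⟨b, hb⟩ := hc
    exact ⟨b, hb, by simp⟩
  | insert y s _ ih =>
    obtain ⟨b, hb, hbs⟩ := ih
    by_cases hy : y < c
    · refine ⟨max b y, max_lt hb hy, ?_⟩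
      intro z hz hzc
      rcases Finset.mem_insert.mp hz with rfl | hz
      · exact le_max_right _ _
      · exact (hbs z hz hzc).trans (le_max_left _ _)
    · refine ⟨b, hb, ?_⟩
      intro z hz hzc
      rcases Finset.mem_insert.mp hz with rfl | hz
      · exact absurd hzc hy
      · exact hbs z hz hzc

variable {D e}

theorem rk_blockSeq (he : ∀ a i, D.rk (e a i) = a) {gg : ℕ → ℕ} {nd : ℕ → ℕ → Idx.{u}} {x : K}
    (h : ∃ n, x < al (n + 1)) : D.rk (blockSeq D e al be gg nd x) = x := by
  apply D.rk_res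
  rw [he]
  exact (blk_lt h).le

theorem pat_blockSeq (he : ∀ a i, D.rk (e a i) = a) (hal : StrictMono al) {d : K}
    (hcof : ∀ b < d, ∃ n, b < al n) (t0 : T) (gg : ℕ → ℕ) (nd : ℕ → ℕ → Idx.{u})
    {a : K} (ha : a < d) :
    Pat D IsLim t0 a (trunc t0 a (blockSeq D e al be gg nd)) := by
  classical
  have hcof' : ∀ b, b < d → ∃ n, b < al (n + 1) := by
    intro b hb
    obtain ⟨n, hn⟩ := hcof b hb
    exact ⟨n, hn.trans (hal (Nat.lt_succ_self n))⟩
  refine ⟨?_, ?_, ?_⟩
  · intro x hx
    simp only [trunc, not_lt.mpr hx, if_false]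
  · intro x hx
    simp only [trunc, hx, if_true]
    exact rk_blockSeq he (hcof' x (hx.trans ha))
  · intro c hc hlim
    have hcd : c < d := hc.trans_lt ha
    -- the block of `c`
    have hne : ∃ n, c ≤ al (n + 1) := by
      obtain ⟨n, hn⟩ := hcof' c hcd
      exact ⟨n, hn.le⟩
    let n := sInf {n | c ≤ al (n + 1)}
    have hn : c ≤ al (n + 1) := Nat.sInf_mem (s := {n | c ≤ al (n + 1)}) hne
    have hmin : ∀ m, m < n → al (m + 1) < c := by
      intro m hm
      by_contra h
      push Not at h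
      exact absurd (Nat.sInf_le (s := {n | c ≤ al (n + 1)}) h) (not_le.mpr hm)
    obtain ⟨b, hb, hbs⟩ := exists_max_below c hlim.1
      (insert (al n) ((Finset.range (gg n)).image (be n)))
    have hblk : ∀ x, b < x → x < c → blk al x = n := by
      intro x hbx hxc
      have h2 : x < al (n + 1) := hxc.trans_le hn
      apply le_antisymm (blk_le h2)
      by_contra hlt
      push Not at hlt
      have h3 : x < al (blk al x + 1) := blk_lt ⟨n, h2⟩
      have hn0 : al n < c := by
        have : 1 ≤ n := by omega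
        have h5 := hmin (n - 1) (by omega)
        rwa [Nat.sub_add_cancel this] at h5
      have h4 : al (blk al x + 1) ≤ al n := hal.monotone hlt
      have h6 : al n ≤ b := hbs _ (Finset.mem_insert_self _ _) hn0
      exact absurd (h3.trans_le (h4.trans h6)) (not_lt.mpr hbx.le)
    let κ := sInf {k | k < gg n ∧ c ≤ be n k}
    have hpiece : ∀ x, b < x → x < c → piece al be gg x = κ := by
      intro x hbx hxc
      unfold piece
      rw [hblk x hbx hxc]
      congr 1
      ext k
      simp only [mem_ofPred_eq]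
      refine and_congr_right fun hk => ⟨fun h => ?_, fun h => hxc.trans_le h⟩
      by_contra hlt
      push Not at hlt
      have h6 : be n k ≤ b := hbs _ (Finset.mem_insert_of_mem
        (Finset.mem_image_of_mem _ (Finset.mem_range.mpr hk))) hlt
      exact absurd (h.trans_le h6) (not_lt.mpr hbx.le)
    refine ⟨b, hb, D.res (e (al (n + 1)) (nd n κ)) c, ?_, ?_⟩
    · apply D.rk_res
      rw [he]
      exact hn
    · intro x hbx hxc
      have hxa : x < a := hxc.trans_le hc
      simp only [trunc, hxa, if_true]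
      unfold blockSeq
      rw [hpiece x hbx hxc, hblk x hbx hxc]
      rw [D.res_res _ _ _ hxc.le (by rw [he]; exact hn)]

end Blocks

/-! ### Closing off -/

theorem countable_lists (j : Idx.{u}) :
    {L : List (List Idx.{u}) | ∀ l ∈ L, ∀ x ∈ l, x < j}.Countable := by
  have : Countable (Iio j) := (countable_Iio_Idx j).to_subtype
  refine (Set.countable_range
    (fun L : List (List (Iio j)) => L.map (List.map Subtype.val))).mono ?_
  intro L hL
  refine ⟨L.attach.map (fun l => l.1.attach.map (fun x => ⟨x.1, hL l.1 l.2 x.1 x.2⟩)), ?_⟩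
  simp only [List.map_map]
  conv_rhs => rw [← List.attach_map_subtype_val L]
  apply List.map_congr_left
  intro l _
  simp only [Function.comp, List.map_map]
  conv_rhs => rw [← List.attach_map_subtype_val l.1]
  apply List.map_congr_left
  intro x _
  rfl

theorem exists_bound_countable {s : Set Idx.{u}} (hs : s.Countable) : ∃ i, ∀ x ∈ s, x < i := by
  rcases s.eq_empty_or_nonempty with rfl | hne
  · obtain ⟨i, -⟩ := exists_bound_Idx.{u} (fun _ => Classical.choice
      (by
        by_contra h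
        rw [not_nonempty_iff] at h
        exact uncountable_Idx.{u} (Set.countable_univ_iff.mpr inferInstance)))
    exact ⟨i, by simp⟩
  · obtain ⟨g, rfl⟩ := hs.exists_eq_range hne
    obtain ⟨i, hi⟩ := exists_bound_Idx g
    refine ⟨i, ?_⟩
    rintro _ ⟨n, rfl⟩
    exact hi n

theorem exists_closed (F : List (List Idx.{u}) → Idx.{u}) :
    ∃ i : Idx.{u}, (∃ j, j < i) ∧ ∀ L : List (List Idx.{u}), (∀ l ∈ L, ∀ x ∈ l, x < i) →
      F L < i := by
  have h1 : ∀ j : Idx.{u}, ∃ i, j < i ∧ ∀ L : List (List Idx.{u}),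
      (∀ l ∈ L, ∀ x ∈ l, x < j) → F L < i := by
    intro j
    obtain ⟨i, hi⟩ := exists_bound_countable
      (((countable_lists j).image F).union (countable_singleton j))
    exact ⟨i, hi j (Or.inr rfl), fun L hL => hi _ (Or.inl ⟨L, hL, rfl⟩)⟩
  choose h hh1 hh2 using h1
  obtain ⟨j0, -⟩ := exists_bound_countable (countable_empty (α := Idx.{u}))
  let s : ℕ → Idx.{u} := fun n => Nat.rec j0 (fun _ x => h x) n
  have hs : ∀ n, s (n + 1) = h (s n) := fun n => rfl
  have hmono : StrictMono s := strictMono_nat_of_lt_succ fun n => by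
    rw [hs]; exact hh1 _
  obtain ⟨b, hb⟩ := exists_bound_Idx s
  have hne : {i : Idx.{u} | ∀ n, s n < i}.Nonempty := ⟨b, hb⟩
  let i := WellFounded.min (wellFounded_lt (α := Idx.{u})) _ hne
  have hi : ∀ n, s n < i := WellFounded.min_mem (wellFounded_lt (α := Idx.{u})) _ hne
  have hlt : ∀ x, x < i → ∃ n, x < s n := by
    intro x hx
    by_contra hcon
    push Not at hcon
    have hx' : ∀ n, s n < x := fun n => (hmono (Nat.lt_succ_self n)).trans_le (hcon (n + 1))
    exact WellFounded.not_lt_min (wellFounded_lt (α := Idx.{u}))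
      {i : Idx.{u} | ∀ n, s n < i} hx' hx
  refine ⟨i, ⟨s 0, hi 0⟩, ?_⟩
  intro L hL
  have hfl : ∀ l : List Idx.{u}, (∀ x ∈ l, x < i) → ∃ n, ∀ x ∈ l, x < s n := by
    intro l
    induction l with
    | nil => intro _; exact ⟨0, by simp⟩
    | cons x l ih =>
      intro hl
      obtain ⟨n, hn⟩ := ih fun y hy => hl y (List.mem_cons_of_mem _ hy)
      obtain ⟨m, hm⟩ := hlt x (hl x List.mem_cons_self)
      refine ⟨max n m, ?_⟩
      intro y hy
      rcases List.mem_cons.mp hy with rfl | hy
      · exact hm.trans_le (hmono.monotone (le_max_right _ _))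
      · exact (hn y hy).trans_le (hmono.monotone (le_max_left _ _))
  obtain ⟨n, hn⟩ := hfl L.flatten (by
    intro x hx
    obtain ⟨l, hl, hxl⟩ := List.mem_flatten.mp hx
    exact hL l hl x hxl)
  have h2 : F L < s (n + 1) := by
    rw [hs]
    apply hh2
    intro l hl x hx
    exact hn x (List.mem_flatten.mpr ⟨l, hl, hx⟩)
  exact h2.trans (hi (n + 1))

theorem exists_sigma : ∃ σ : Idx.{u} → ℕ → Idx.{u}, ∀ i, (∃ j, j < i) →
    (∀ k, σ i k < i) ∧ ∀ j < i, ∃ k, σ i k = j := by
  classical
  have h : ∀ i : Idx.{u}, ∃ σ : ℕ → Idx.{u}, (∃ j, j < i) →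
      (∀ k, σ k < i) ∧ ∀ j < i, ∃ k, σ k = j := by
    intro i
    by_cases hi : ∃ j, j < i
    · obtain ⟨g, hg⟩ := (countable_Iio_Idx i).exists_eq_range hi
      refine ⟨g, fun _ => ⟨fun k => ?_, fun j hj => ?_⟩⟩
      · have : g k ∈ Iio i := by rw [hg]; exact mem_range_self k
        exact this
      · have : j ∈ range g := by rw [← hg]; exact hj
        exact this
    · exact ⟨fun _ => i, fun h => absurd h hi⟩
  choose σ hσ using h
  exact ⟨σ, hσ⟩

theorem exists_enumeration (D : TD K T) (hnar : ∀ a : K, #{t : T // D.rk t = a} ≤ ℵ₁)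
    (hfull : ∀ a : K, ∃ t, D.rk t = a) :
    ∃ e : K → Idx.{u} → T, (∀ a i, D.rk (e a i) = a) ∧ ∀ t, ∃ i, e (D.rk t) i = t := by
  have h : ∀ a : K, ∃ g : Idx.{u} → {t : T // D.rk t = a}, Function.Surjective g := by
    intro a
    obtain ⟨t, ht⟩ := hfull a
    have : Nonempty {t : T // D.rk t = a} := ⟨⟨t, ht⟩⟩
    have h1 : #{t : T // D.rk t = a} ≤ #(Idx.{u}) := by rw [mk_Idx]; exact hnar a
    obtain ⟨emb⟩ := h1
    exact ⟨Function.invFun emb, Function.invFun_surjective emb.injective⟩
  choose g hg using h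
  refine ⟨fun a i => (g a i).1, fun a i => (g a i).2, ?_⟩
  intro t
  obtain ⟨i, hi⟩ := hg (D.rk t) ⟨t, rfl⟩
  refine ⟨i, ?_⟩
  show (g (D.rk t) i).1 = t
  rw [hi]

/-- The block sequence coded by a list of lists. -/
noncomputable def listSeq (D : TD K T) (e : K → Idx.{u} → T) (al : ℕ → K) (be : ℕ → ℕ → K)
    (i0 : Idx.{u}) (L : List (List Idx.{u})) : K → T :=
  blockSeq D e al be (fun n => (L.getD n []).length) (fun n k => (L.getD n []).getD k i0)

/-- The list coding a block sequence with constant enumeration. -/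
def listOf (σ : ℕ → Idx.{u}) (g : ℕ → ℕ) (n : ℕ) : List (List Idx.{u}) :=
  (List.range (n + 1)).map fun m => (List.range (g m + 1)).map σ

theorem trunc_listOf (D : TD K T) (e : K → Idx.{u} → T) (al : ℕ → K) (be : ℕ → ℕ → K)
    (i0 : Idx.{u}) (σ : ℕ → Idx.{u}) (g : ℕ → ℕ) (t0 : T) (n : ℕ) :
    trunc t0 (al (n + 1)) (blockSeq D e al be (fun m => g m + 1) (fun _ k => σ k)) =
      trunc t0 (al (n + 1)) (listSeq D e al be i0 (listOf σ g n)) := by
  classical
  funext x
  unfold trunc
  split_ifs with hx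
  · have hb : blk al x ≤ n := blk_le hx
    have hget : (listOf σ g n).getD (blk al x) [] = (List.range (g (blk al x) + 1)).map σ := by
      unfold listOf
      rw [List.getD_eq_getElem?_getD, List.getElem?_map, List.getElem?_range (by omega)]
      rfl
    unfold listSeq blockSeq
    have hp : piece al be (fun n_1 => ((listOf σ g n).getD n_1 []).length) x =
        piece al be (fun m => g m + 1) x := by
      unfold piece
      congr 1
      ext k
      simp only [mem_ofPred_eq]
      rw [hget]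
      simp
    rw [hp]
    have hlt : piece al be (fun m => g m + 1) x < g (blk al x) + 1 := by
      unfold piece
      rcases Set.eq_empty_or_nonempty
        {k | k < (fun m => g m + 1) (blk al x) ∧ x < be (blk al x) k} with h | h
      · rw [h, Nat.sInf_empty]
        omega
      · exact (Nat.sInf_mem h).1
    have hnd : ((listOf σ g n).getD (blk al x) []).getD (piece al be (fun m => g m + 1) x) i0 =
        σ (piece al be (fun m => g m + 1) x) := by
      rw [hget, List.getD_eq_getElem?_getD, List.getElem?_map, List.getElem?_range hlt]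
      rfl
    show D.res (e (al (blk al x + 1)) (σ (piece al be (fun m => g m + 1) x))) x =
      D.res (e (al (blk al x + 1)) (((listOf σ g n).getD (blk al x) []).getD
        (piece al be (fun m => g m + 1) x) i0)) x
    rw [hnd]
  · rfl

/-- The pieces of the block sequence coded by a list of lists. -/
theorem listSeq_piece (D : TD K T) (e : K → Idx.{u} → T) {al : ℕ → K} (hal : StrictMono al)
    (be : ℕ → ℕ → K) (i0 : Idx.{u}) (σ : ℕ → Idx.{u}) (h : ℕ → ℕ) {n k : ℕ} (hk : k ≤ h n) {x : K}
    (h1 : al n ≤ x) (h2 : ∀ k' < k, be n k' ≤ x) (h3 : x < be n k) (h4 : x < al (n + 1)) :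
    listSeq D e al be i0 (listOf σ h n) x = D.res (e (al (n + 1)) (σ k)) x := by
  have hblk : blk al x = n := blk_eq hal h1 h4
  have hget : (listOf σ h n).getD n [] = (List.range (h n + 1)).map σ := by
    unfold listOf
    rw [List.getD_eq_getElem?_getD, List.getElem?_map, List.getElem?_range (by omega)]
    rfl
  have hka : k < ((listOf σ h n).getD n []).length := by
    rw [hget, List.length_map, List.length_range]
    omega
  have hpiece : piece al be (fun n' => ((listOf σ h n).getD n' []).length) x = k := by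
    unfold piece
    rw [hblk]
    apply le_antisymm
    · exact Nat.sInf_le ⟨hka, h3⟩
    · have hne : {k | k < ((listOf σ h n).getD n []).length ∧ x < be n k}.Nonempty :=
        ⟨k, hka, h3⟩
      have hm := (Nat.sInf_mem hne).2
      by_contra hlt'
      push Not at hlt'
      exact absurd hm (not_lt.mpr (h2 _ hlt'))
  unfold listSeq blockSeq
  rw [hpiece, hblk]
  show D.res (e (al (n + 1)) (((listOf σ h n).getD n []).getD k i0)) x = _
  rw [hget, List.getD_eq_getElem?_getD, List.getElem?_map, List.getElem?_range (by omega)]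
  rfl

end Dom

open Dom in
/-- If the continuum hypothesis fails, no narrow `ℵ₂`-Aronszajn tree is universal, even for weak
embeddings. -/
theorem caseNCH {K T : Type u} [LinearOrder K] [WellFoundedLT K] (hK : IdxOK K ℵ₁) (D : TD K T)
    (hT : D.Nar ℵ₁) (hch : (ℵ₁ : Cardinal.{u}) < continuum.{u}) :
    ∃ (S : Type u) (E : TD K S), E.Nar ℵ₁ ∧
      (∀ bot : K, (∀ a, bot ≤ a) → ∃ p0, ∀ p, E.res p bot = p0) ∧
      ∀ f : S → T, ¬ E.Mor D f := by
  classical
  obtain ⟨De, al, be, hDe, hguess⟩ := exists_guess hK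
  obtain ⟨e, he, hes⟩ := exists_enumeration D hT.narrow hT.full
  obtain ⟨σ, hσ⟩ := exists_sigma.{u}
  obtain ⟨i0, -⟩ := exists_bound_countable (countable_empty (α := Idx.{u}))
  obtain ⟨k0⟩ := hK.ne
  obtain ⟨t0, -⟩ := hT.full k0
  have hg : ∀ (d : K) (N : ℕ) (i : Idx.{u}), ∃ s : Option {t : T // D.rk t = d} → (ℕ → ℕ),
      ∀ Ψ : ℕ → (ℕ → ℕ) → ℕ, (∀ k h h', (∀ i ≤ k, h i = h' i) → Ψ k h = Ψ k h') →
        (∀ k h, h k < Ψ k h) → ∃ o, ∀ t : {t : T // D.rk t = d}, ∃ k, Ψ k (s o) ≠
          sInf {j | D.res t.1 (al d N (k + 1)) = e (al d N (k + 1)) (σ i j)} :=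
    fun d N i => real_index (hT.narrow d) hch
      (fun t k => sInf {j | D.res t.1 (al d N (k + 1)) = e (al d N (k + 1)) (σ i j)})
  choose hh hhh using hg
  let B : ∀ d : K, ℕ → Idx.{u} → Option {t : T // D.rk t = d} → K → T := fun d N i o =>
    blockSeq D e (al d N) (be d N) (fun m => hh d N i o m + 1) (fun _ k => σ i k)
  let X : K → Set (K → T) := fun m => {v | m ∈ De ∧ ∃ N i o, v = trunc t0 m (B m N i o)}
  have hpat : ∀ d ∈ De, ∀ N (gg : ℕ → ℕ) (nd : ℕ → ℕ → Idx.{u}) (a : K), a < d →
      Pat D IsLim t0 a (trunc t0 a (blockSeq D e (al d N) (be d N) gg nd)) := by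
    intro d hdD N gg nd a ha
    obtain ⟨h1, h2, h3, h4⟩ := hDe d hdD N
    exact pat_blockSeq he h1 h3 t0 gg nd ha
  have hX : ExtOK D IsLim t0 ℵ₁ X := by
    refine ⟨?_, ?_, ?_⟩
    · rintro m v ⟨_, N, i, o, rfl⟩ x hx
      exact trunc_ge t0 _ hx
    · rintro m v ⟨hm, N, i, o, rfl⟩ a ha
      rw [trunc_trunc t0 _ ha.le]
      exact hpat m hm N _ _ a ha
    · intro m
      have hsub : X m ⊆ range (fun q : ℕ × Idx.{u} × Option {t : T // D.rk t = m} =>
          trunc t0 m (B m q.1 q.2.1 q.2.2)) := by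
        rintro v ⟨_, N, i, o, rfl⟩
        exact ⟨(N, i, o), rfl⟩
      refine (mk_le_mk_of_subset hsub).trans (mk_range_le.trans ?_)
      have h1 : #(Option {t : T // D.rk t = m}) ≤ ℵ₁ := by
        rw [mk_option]
        exact (add_le_add (hT.narrow m) (one_le_aleph0.trans hK.inf)).trans
          (add_eq_self hK.inf).le
      rw [mk_prod, mk_prod, mk_Idx]
      simp only [lift_id, lift_uzero, mk_nat, lift_aleph0]
      calc (ℵ₀ : Cardinal.{u}) * (ℵ₁ * #(Option {t : T // D.rk t = m}))
          ≤ ℵ₁ * (ℵ₁ * ℵ₁) := mul_le_mul' hK.inf (mul_le_mul' le_rfl h1)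
        _ = ℵ₁ := by rw [mul_eq_self hK.inf, mul_eq_self hK.inf]
  refine ⟨V D IsLim t0 X, VD D IsLim t0 X hX, VD_nar hK hT (ctl_isLim hK) hX, ?_, ?_⟩
  · intro bot hbot
    obtain ⟨p0, -⟩ := (VD_nar hK hT (ctl_isLim hK) hX).full bot
    refine ⟨(VD D IsLim t0 X hX).res p0 bot, fun p => ?_⟩
    apply Subtype.ext
    rw [VD_res_val hX p bot (hbot _), VD_res_val hX p0 bot (hbot _)]
    congr 1
    funext x
    rw [trunc_ge t0 _ (hbot x), trunc_ge t0 _ (hbot x)]
  intro f hf
  obtain ⟨φ, hφ⟩ := key hK hT (ctl_isLim hK) hX f hf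
  obtain ⟨d, hdD, N, hclos⟩ := hguess φ
  obtain ⟨hal, hald, hcof, hbe⟩ := hDe d hdD N
  -- the index of a node
  choose ix hix using hes
  -- the patterns coded by lists
  let pl : List (List Idx.{u}) → V D IsLim t0 X := fun L =>
    ⟨(al d N L.length, trunc t0 (al d N L.length) (listSeq D e (al d N) (be d N) i0 L)),
      Or.inl (hpat d hdD N _ _ _ (hald _))⟩
  have hplrk : ∀ L, D.rk (f (pl L)) = al d N L.length := fun L => hf.rk _
  obtain ⟨i, hi0, hi⟩ := exists_closed (fun L => ix (f (pl L)))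
  obtain ⟨hσ1, hσ2⟩ := hσ i hi0
  have hlen : ∀ h n, (listOf (σ i) h n).length = n + 1 := fun h n => by simp [listOf]
  have hmem : ∀ h n, ∃ k, f (pl (listOf (σ i) h n)) = e (al d N (n + 1)) (σ i k) := by
    intro h n
    have h1 : ix (f (pl (listOf (σ i) h n))) < i := by
      apply hi
      intro l hl x hx
      obtain ⟨m, _, rfl⟩ := List.mem_map.mp hl
      obtain ⟨k, _, rfl⟩ := List.mem_map.mp hx
      exact hσ1 k
    obtain ⟨k, hk⟩ := hσ2 _ h1
    refine ⟨k, ?_⟩
    have h2 := hix (f (pl (listOf (σ i) h n)))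
    rw [hplrk, hlen] at h2
    rw [hk, h2]
  let Ψ : ℕ → (ℕ → ℕ) → ℕ := fun n h =>
    sInf {k | f (pl (listOf (σ i) h n)) = e (al d N (n + 1)) (σ i k)}
  have hΨ : ∀ h n, f (pl (listOf (σ i) h n)) = e (al d N (n + 1)) (σ i (Ψ n h)) := fun h n =>
    Nat.sInf_mem (s := {k | f (pl (listOf (σ i) h n)) = e (al d N (n + 1)) (σ i k)}) (hmem h n)
  have hΨ1 : ∀ k h h', (∀ i ≤ k, h i = h' i) → Ψ k h = Ψ k h' := by
    intro n h h' heq
    have : listOf (σ i) h n = listOf (σ i) h' n := by
      unfold listOf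
      apply List.map_congr_left
      intro m hm
      rw [List.mem_range] at hm
      rw [heq m (by omega)]
    show sInf _ = sInf _
    rw [this]
  have hΨ2 : ∀ n h, h n < Ψ n h := by
    intro n h
    by_contra hlt
    push Not at hlt
    obtain ⟨hbmono, hbe'⟩ := hbe n
    have hstart : ∃ b, b < be d N n (Ψ n h) ∧ ∀ x, b ≤ x → x < be d N n (Ψ n h) →
        al d N n ≤ x ∧ ∀ k', k' < Ψ n h → be d N n k' ≤ x := by
      rcases Nat.eq_zero_or_pos (Ψ n h) with hk0 | hk0
      · exact ⟨al d N n, (hbe' _).1, fun x hx _ => ⟨hx, fun k' hk' => by omega⟩⟩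
      · refine ⟨be d N n (Ψ n h - 1), hbmono (by omega), fun x hx _ => ⟨?_, ?_⟩⟩
        · exact ((hbe' _).1.le).trans hx
        · intro k' hk'
          exact (hbmono.monotone (by omega : k' ≤ Ψ n h - 1)).trans hx
    obtain ⟨b, hb, hbx⟩ := hstart
    refine hφ (pl (listOf (σ i) h n)) (be d N n (Ψ n h)) ?_ (hclos n _) b hb ?_
    · show be d N n (Ψ n h) < al d N (listOf (σ i) h n).length
      rw [hlen]
      exact (hbe' _).2
    · intro x hx1 hx2
      obtain ⟨h1, h2⟩ := hbx x hx1 hx2
      have hxal : x < al d N (n + 1) := hx2.trans (hbe' _).2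
      show trunc t0 (al d N (listOf (σ i) h n).length)
        (listSeq D e (al d N) (be d N) i0 (listOf (σ i) h n)) x =
          D.res (f (pl (listOf (σ i) h n))) x
      rw [trunc_lt t0 _ (by rw [hlen]; exact hxal), hΨ h n,
        listSeq_piece D e hal (be d N) i0 (σ i) h hlt h1 h2 hx2 hxal]
  obtain ⟨o, ho⟩ := hhh d N i Ψ hΨ1 hΨ2
  let p : V D IsLim t0 X := ⟨(d, trunc t0 d (B d N i o)), Or.inr ⟨hdD, N, i, o, rfl⟩⟩
  have hfp : D.rk (f p) = d := hf.rk p
  obtain ⟨n, hn⟩ := ho ⟨f p, hfp⟩
  apply hn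
  have hres : D.res (f p) (al d N (n + 1)) = f (pl (listOf (σ i) (hh d N i o) n)) := by
    have h1 : al d N (n + 1) ≤ (VD D IsLim t0 X hX).rk p := (hald _).le
    rw [← hf.res p _ h1]
    congr 1
    apply Subtype.ext
    rw [VD_res_val hX p _ (hald _).le]
    show (al d N (n + 1), trunc t0 (al d N (n + 1)) (trunc t0 d (B d N i o))) =
      (al d N (listOf (σ i) (hh d N i o) n).length,
        trunc t0 (al d N (listOf (σ i) (hh d N i o) n).length)
          (listSeq D e (al d N) (be d N) i0 (listOf (σ i) (hh d N i o) n)))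
    rw [hlen, trunc_trunc t0 _ (hald _).le, trunc_listOf]
  show sInf {k | f (pl (listOf (σ i) (hh d N i o) n)) = e (al d N (n + 1)) (σ i k)} =
    sInf {k | D.res (f p) (al d N (n + 1)) = e (al d N (n + 1)) (σ i k)}
  rw [hres]

end Pool.Agent.UnivA
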