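import Mathlib
import Pool.Agent.UnivA.Bridge
import Pool.Agent.UnivA.CaseCH
import Pool.Agent.UnivA.CaseNCH

/-!
# There is no universal narrow `ℵ₂`-Aronszajn tree
-/

open Cardinal Set

namespace Pool.Agent.UnivA

universe u

theorem succ_aleph_one : Order.succ (ℵ₁ : Cardinal.{u}) = ℵ_ 2 := by
  rw [← one_add_one_eq_two, ← succ_aleph]

/-- The two cases together, for tree data. -/
theorem allCases (T : Type u) (D : TD (Order.succ (ℵ₁ : Cardinal.{u})).ord.ToType T)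
    (hD : D.Nar ℵ₁) :
    ∃ (S : Type u) (E : TD (Order.succ (ℵ₁ : Cardinal.{u})).ord.ToType S), E.Nar ℵ₁ ∧
      (∀ bot : (Order.succ (ℵ₁ : Cardinal.{u})).ord.ToType, (∀ a, bot ≤ a) →
        ∃ p0, ∀ p, E.res p bot = p0) ∧
      ∀ f : S → T, ¬ E.Mor D f := by
  have hK : IdxOK (Order.succ (ℵ₁ : Cardinal.{u})).ord.ToType ℵ₁ :=
    idxOK_succ (aleph0_le_aleph 1)
  by_cases hc : (ℵ₁ : Cardinal.{u}) < 𝔠
  · exact caseNCH hK D hD hc
  · refine caseCH D hK hD ?_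
    have h1 : (𝔠 : Cardinal.{u}) ≤ ℵ₁ := not_lt.1 hc
    have h2 : (ℵ₁ : Cardinal.{u}) ≤ 𝔠 := aleph_one_le_continuum
    calc (ℵ₁ : Cardinal.{u}) ^ ℵ₀ ≤ 𝔠 ^ ℵ₀ := Cardinal.power_le_power_right h2
      _ = 𝔠 := continuum_power_aleph0
      _ ≤ ℵ₁ := h1

/-- For every narrow `ℵ₂`-Aronszajn tree there is a narrow `ℵ₂`-Aronszajn tree which does not
weakly embed into it. -/
theorem exists_not_weaklyEmbeds (T : Type u) [PartialOrder T]
    (hT : IsNarrowAronszajn (ℵ_ 2) T) :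
    ∃ (S : Type u) (_ : PartialOrder S), IsNarrowAronszajn (ℵ_ 2) S ∧ ¬ WeaklyEmbeds S T := by
  rw [← succ_aleph_one] at hT ⊢
  exact bridge (aleph0_le_aleph 1) allCases T hT

end Pool.Agent.UnivA
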