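import Mathlib
import Pool.Agent.UnivA.Core
import Pool.Agent.UnivA.Ctl

/-!
# Case (A): Moore's principle `℧` kills universal Aronszajn trees
-/

open Cardinal Set

namespace Pool.Agent.UnivA

universe u

/-- Moore's principle `℧` on `K` (weak form): there are functions `f d` (`d : K`) into the natural
numbers, continuous below `d`, such that every club `E` has a `d` with `f d` taking all values
on the part of `E` below `d`. -/
def Mho (K : Type u) [LinearOrder K] : Prop :=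
  ∃ f : K → K → ℕ, (∀ d x, x < d → IsLim x → ∃ b, b < x ∧ ∀ y, b < y → y < x → f d y = f d x) ∧
    ∀ E : Set K, (∀ a, ∃ e ∈ E, a < e) →
      (∀ c, IsLim c → (∀ b, b < c → ∃ e ∈ E, b < e ∧ e < c) → c ∈ E) →
      ∃ d, ∀ n : ℕ, ∃ x ∈ E, x < d ∧ f d x = n

section
variable {K T : Type u} [LinearOrder K]

/-- an enumeration of a level of a narrow tree with countable levels -/
theorem CaseMho_enum {D : TD K T} (hT : D.Nar ℵ₀) (d : K) :
    ∃ e : ℕ → T, (∀ n, D.rk (e n) = d) ∧ ∀ t, D.rk t = d → ∃ n, e n = t := by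
  obtain ⟨s, hs⟩ := hT.full d
  have hne : Nonempty {t : T // D.rk t = d} := ⟨⟨s, hs⟩⟩
  have hc : Countable {t : T // D.rk t = d} := mk_le_aleph0_iff.1 (hT.narrow d)
  obtain ⟨g, hg⟩ := exists_surjective_nat {t : T // D.rk t = d}
  refine ⟨fun n => (g n).1, fun n => (g n).2, fun t ht => ?_⟩
  obtain ⟨n, hn⟩ := hg ⟨t, ht⟩
  exact ⟨n, congrArg Subtype.val hn⟩

/-- **Case (A).** Moore's principle implies that no narrow Aronszajn tree with countable levels
is universal for level preserving monotone maps. -/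
theorem caseMho [WellFoundedLT K] (hK : IdxOK K ℵ₀) (hM : Mho K) {D : TD K T} (hT : D.Nar ℵ₀)
    (t0 : T) : ∃ (S : Type u) (E : TD K S), E.Nar ℵ₀ ∧
      (∀ a0 : K, (∀ a, a0 ≤ a) → ∃ p0 : S, ∀ p, E.res p a0 = p0) ∧ ∀ f, ¬ E.Mor D f := by
  classical
  obtain ⟨F, hF1, hF2⟩ := hM
  choose e he1 he2 using CaseMho_enum hT
  -- the extra node at level `d`
  let v : K → K → T := fun d x => if x < d then D.res (e d (F d x)) x else t0
  let X : K → Set (K → T) := fun d => {v d}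
  have hC : CtlOK ℵ₀ (IsLim (K := K)) := ctl_isLim hK
  have hv : ∀ d x, x < d → v d x = D.res (e d (F d x)) x := by
    intro d x hx
    show (if x < d then D.res (e d (F d x)) x else t0) = _
    rw [if_pos hx]
  have hX : ExtOK D IsLim t0 ℵ₀ X := by
    refine ⟨?_, ?_, ?_⟩
    · rintro m w hw x hx
      rw [mem_singleton_iff.1 hw]
      show (if x < m then D.res (e m (F m x)) x else t0) = t0
      rw [if_neg (not_lt.2 hx)]
    · rintro m w hw a ha
      rw [mem_singleton_iff.1 hw]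
      refine ⟨fun x hx => trunc_ge t0 _ hx, fun x hx => ?_, fun c hc hlim => ?_⟩
      · rw [trunc_lt t0 _ hx, hv m x (hx.trans ha)]
        exact D.rk_res _ _ (by rw [he1]; exact (hx.trans ha).le)
      · have hcm : c < m := lt_of_le_of_lt hc ha
        obtain ⟨b, hb, hb2⟩ := hF1 m c hcm hlim
        refine ⟨b, hb, D.res (e m (F m c)) c, D.rk_res _ _ (by rw [he1]; exact hcm.le),
          fun x h1 h2 => ?_⟩
        rw [trunc_lt t0 _ (lt_of_lt_of_le h2 hc), hv m x (h2.trans hcm), hb2 x h1 h2,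
          D.res_res _ x c h2.le (by rw [he1]; exact hcm.le)]
    · intro m
      show #({v m} : Set (K → T)) ≤ ℵ₀
      rw [mk_singleton]
      exact one_le_aleph0
  have hroot : ∀ a0 : K, (∀ a, a0 ≤ a) →
      ∃ p0 : V D IsLim t0 X, ∀ p, (VD D IsLim t0 X hX).res p a0 = p0 := by
    intro a0 ha0
    obtain ⟨q, -⟩ := (VD_nar hK hT hC hX).full a0
    refine ⟨(VD D IsLim t0 X hX).res q a0, fun p => Subtype.ext ?_⟩
    rw [VD_res_val hX p a0 (ha0 _), VD_res_val hX q a0 (ha0 _)]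
    congr 1
    funext x
    rw [trunc_ge t0 _ (ha0 x), trunc_ge t0 _ (ha0 x)]
  refine ⟨V D IsLim t0 X, VD D IsLim t0 X hX, VD_nar hK hT hC hX, hroot, fun f hf => ?_⟩
  obtain ⟨φ, hφ⟩ := key hK hT hC hX f hf
  -- the club of closure points
  obtain ⟨d, hd⟩ := hF2 {g | IsLim g ∧ ∀ b < g, φ b < g}
    (by
      intro a
      obtain ⟨c, h1, h2, h3⟩ := hC.clos φ a
      exact ⟨c, ⟨h2, h3⟩, h1⟩)
    (by
      intro c hc hlim
      refine ⟨hc, fun b hb => ?_⟩
      obtain ⟨g, hg, hbg, hgc⟩ := hlim b hb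
      exact (hg.2 b hbg).trans hgc)
  let p : V D IsLim t0 X := ⟨(d, v d), Or.inr rfl⟩
  have hrk : D.rk (f p) = d := hf.rk p
  obtain ⟨n, hn⟩ := he2 d (f p) hrk
  obtain ⟨g, ⟨hglim, hgcl⟩, hgd, hgn⟩ := hd n
  obtain ⟨b, hb, hb2⟩ := hF1 d g hgd hglim
  obtain ⟨b', hb1', hb2'⟩ := hglim.2 b hb
  refine hφ p g hgd hgcl b' hb2' ?_
  intro x hx1 hx2
  show v d x = D.res (f p) x
  rw [hv d x (hx2.trans hgd), hb2 x (lt_of_lt_of_le hb1' hx1) hx2, hgn, hn]

end

end Pool.Agent.UnivA
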