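import Pool.Agent.UnivA.Diamond

/-!
# Universal narrow Aronszajn trees: the key lemma and the core of the case `2 ^ ℵ₁ = ℵ₂`

`LT Ω T` is the data of a levelled tree on `T` with levels indexed by `Ω`: `ht t` is the level of
`t` and `r a t`, for `a ≤ ht t`, the predecessor of `t` at level `a`.
-/

open Cardinal Set

namespace Pool.Agent.UnivA

universe u

/-- The data of a levelled tree. -/
structure LT (Ω : Type u) [LinearOrder Ω] (T : Type u) where
  /-- the level of a node -/
  ht : T → Ω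
  /-- the predecessor at a level -/
  r : Ω → T → T
  ht_r : ∀ a t, a ≤ ht t → ht (r a t) = a
  r_self : ∀ t, r (ht t) t = t
  r_r : ∀ a b t, a ≤ b → b ≤ ht t → r a (r b t) = r a t

namespace LT

variable {Ω T W : Type u} [LinearOrder Ω]

/-- `b` is a branch of length `m`. -/
structure IsBr (S : LT Ω T) (m : Ω) (b : Ω → T) : Prop where
  ht : ∀ a < m, S.ht (b a) = a
  coh : ∀ a a', a ≤ a' → a' < m → S.r a (b a') = b a

/-- There is no cofinal branch. -/
def NoBranch (S : LT Ω T) : Prop :=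
  ¬ ∃ b : Ω → T, (∀ a, S.ht (b a) = a) ∧ ∀ a a', a ≤ a' → S.r a (b a') = b a

/-- `f` preserves levels and the tree order. -/
structure IsLev (P : LT Ω W) (S : LT Ω T) (f : W → T) : Prop where
  ht : ∀ w, S.ht (f w) = P.ht w
  r : ∀ w a, a ≤ P.ht w → f (P.r a w) = S.r a (f w)

/-- `pat s t` is `s` continued by the branch below `t`. -/
structure IsPat (P : LT Ω W) (S : LT Ω T) (pat : W → T → W) : Prop where
  ht : ∀ s t, P.ht s ≤ S.ht t → P.ht (pat s t) = S.ht t
  r : ∀ s t a, P.ht s ≤ a → a ≤ S.ht t → P.r a (pat s t) = pat s (S.r a t)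
  base : ∀ s t, P.ht s = S.ht t → pat s t = s
  ext : ∀ s t t', P.ht s ≤ S.ht t → S.ht t = S.ht t' →
    (∀ x, P.ht s ≤ x → x < S.ht t → S.r x t = S.r x t') → pat s t = pat s t'

theorem IsPat.restr {P : LT Ω W} {S : LT Ω T} {pat : W → T → W} (hp : IsPat P S pat)
    (s : W) (t : T) (h : P.ht s ≤ S.ht t) : P.r (P.ht s) (pat s t) = s := by
  rw [hp.r s t _ le_rfl h]
  exact hp.base _ _ (S.ht_r _ _ h).symm

/-- The fixed nodes over a pattern form a chain. -/
theorem fix_chain [WellFoundedLT Ω] {P : LT Ω W} {S : LT Ω T} {pat : W → T → W}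
    (hp : IsPat P S pat) {f : W → T} (hf : IsLev P S f) (s : W) (t t' : T)
    (hst : P.ht s ≤ S.ht t) (hst' : P.ht s ≤ S.ht t') (ht : f (pat s t) = t)
    (ht' : f (pat s t') = t') (a : Ω) : P.ht s ≤ a → a ≤ S.ht t → a ≤ S.ht t' →
      S.r a t = S.r a t' := by
  induction a using WellFoundedLT.induction with
  | ind a ih =>
    intro hsa hat hat'
    have h1 : ∀ q, P.ht s ≤ S.ht q → f (pat s q) = q → a ≤ S.ht q →
        S.r a q = f (pat s (S.r a q)) := by
      intro q hq hfq haq
      conv_lhs => rw [← hfq]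
      rw [← hf.r _ _ (by rw [hp.ht s q hq]; exact haq), hp.r s q a hsa haq]
    rw [h1 t hst ht hat, h1 t' hst' ht' hat']
    congr 1
    have e1 := S.ht_r a t hat
    have e2 := S.ht_r a t' hat'
    refine hp.ext s _ _ (by rw [e1]; exact hsa) (by rw [e1, e2]) (fun x hx hxa => ?_)
    rw [e1] at hxa
    rw [S.r_r x a t hxa.le hat, S.r_r x a t' hxa.le hat']
    exact ih x hxa hx (hxa.le.trans hat) (hxa.le.trans hat')

/-- The heights of the fixed nodes over a pattern are bounded. -/
theorem fix_bdd [WellFoundedLT Ω] {P : LT Ω W} {S : LT Ω T} {pat : W → T → W}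
    (hp : IsPat P S pat) {f : W → T} (hf : IsLev P S f) (hS : S.NoBranch) (s : W) :
    ∃ th : Ω, ∀ t, P.ht s ≤ S.ht t → f (pat s t) = t → S.ht t < th := by
  by_contra hcon
  push Not at hcon
  apply hS
  have hc : ∀ a, ∃ t, P.ht s ≤ S.ht t ∧ f (pat s t) = t ∧ a ≤ S.ht t := by
    intro a
    obtain ⟨t, h1, h2, h3⟩ := hcon a
    exact ⟨t, h1, h2, h3⟩
  choose t h1 h2 h3 using hc
  have key : ∀ a q, P.ht s ≤ S.ht q → f (pat s q) = q → a ≤ S.ht q →
      S.r a q = S.r a (t a) := by
    intro a q hq hfq haq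
    rcases le_total (P.ht s) a with h | h
    · exact fix_chain hp hf s q (t a) hq (h1 a) hfq (h2 a) a h haq (h3 a)
    · have := fix_chain hp hf s q (t a) hq (h1 a) hfq (h2 a) (P.ht s) le_rfl hq (h1 a)
      rw [← S.r_r a (P.ht s) q h hq, this, S.r_r a (P.ht s) (t a) h (h1 a)]
  refine ⟨fun a => S.r a (t a), fun a => S.ht_r a _ (h3 a), fun a a' haa' => ?_⟩
  rw [S.r_r a a' (t a') haa' (h3 a')]
  exact key a (t a') (h1 a') (h2 a') (haa'.trans (h3 a'))

/-- The key lemma: a club of levels that bound the fixed nodes over all earlier patterns. -/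
theorem exists_club [WellFoundedLT Ω] (hseg : ∀ a : Ω, #(Iio a) ≤ ℵ₁) (hcard : #Ω = ℵ_ 2)
    {P : LT Ω W} {S : LT Ω T} {pat : W → T → W}
    (hp : IsPat P S pat) {f : W → T} (hf : IsLev P S f) (hS : S.NoBranch)
    (hW : ∀ a, #{w | P.ht w < a} ≤ ℵ₁) :
    ∃ C : Set Ω, OmegaClub C ∧ ∀ m ∈ C, ∀ a < m, ∀ s, P.ht s < a → ∃ c < m,
      ∀ t, P.ht s ≤ S.ht t → f (pat s t) = t → S.ht t < c := by
  choose th hth using fix_bdd hp hf hS
  exact ⟨_, omegaClub_closure hseg hcard P.ht th hW,
    fun m hm a ham s hs => ⟨th s, hm a ham s hs, hth s⟩⟩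

/-- A branch from an increasing sequence of nodes. -/
theorem exists_br {P : LT Ω W} {m : Ω} (g : ℕ → Ω) (hgm : ∀ a < m, ∃ n, a < g n)
    (s : ℕ → W) (hs1 : ∀ n, P.ht (s n) < m) (hs2 : ∀ n, g n ≤ P.ht (s n))
    (hs3 : ∀ n, P.ht (s n) ≤ P.ht (s (n + 1)) ∧ P.r (P.ht (s n)) (s (n + 1)) = s n) :
    ∃ b : Ω → W, P.IsBr m b ∧ ∀ n a, a ≤ P.ht (s n) → b a = P.r a (s n) := by
  classical
  have hle : ∀ n k, P.ht (s n) ≤ P.ht (s (n + k)) ∧ P.r (P.ht (s n)) (s (n + k)) = s n := by
    intro n k
    induction k with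
    | zero => exact ⟨le_rfl, P.r_self _⟩
    | succ k ih =>
      obtain ⟨h1, h2⟩ := hs3 (n + k)
      refine ⟨ih.1.trans h1, ?_⟩
      rw [← P.r_r _ _ (s (n + (k + 1))) ih.1 h1]
      have : P.r (P.ht (s (n + k))) (s (n + (k + 1))) = s (n + k) := h2
      rw [this, ih.2]
  have hcomp : ∀ n k a, a ≤ P.ht (s n) → P.r a (s (n + k)) = P.r a (s n) := by
    intro n k a ha
    obtain ⟨h1, h2⟩ := hle n k
    rw [← P.r_r a _ (s (n + k)) ha h1, h2]
  have hcomp' : ∀ n n' a, a ≤ P.ht (s n) → a ≤ P.ht (s n') → P.r a (s n) = P.r a (s n') := by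
    intro n n' a h h'
    rcases le_total n n' with hn | hn
    · obtain ⟨k, rfl⟩ := Nat.exists_eq_add_of_le hn
      exact (hcomp n k a h).symm
    · obtain ⟨k, rfl⟩ := Nat.exists_eq_add_of_le hn
      exact hcomp n' k a h'
  let N : Ω → ℕ := fun a => if h : ∃ n, a < g n then Nat.find h else 0
  have hN : ∀ a < m, a ≤ P.ht (s (N a)) := by
    intro a ha
    have h := hgm a ha
    have : a < g (N a) := by
      simp only [N, h, dite_true]
      exact Nat.find_spec h
    exact this.le.trans (hs2 _)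
  have hb : ∀ n a, a ≤ P.ht (s n) → P.r a (s (N a)) = P.r a (s n) := fun n a ha =>
    hcomp' _ _ a (hN a (ha.trans_lt (hs1 n))) ha
  refine ⟨fun a => P.r a (s (N a)), ⟨fun a ha => P.ht_r _ _ (hN a ha), fun a a' h h' => ?_⟩, hb⟩
  rw [P.r_r a a' _ h (hN a' h')]
  exact (hb _ _ (h.trans (hN a' h'))).symm

/-- The core of the case `2 ^ ℵ₁ = ℵ₂`: a sequence of branches of the tree `W` of patterns such
that every level preserving map of `W` to `S` fails to extend to one of them. -/
theorem exists_branches [WellFoundedLT Ω] (hseg : ∀ a : Ω, #(Iio a) ≤ ℵ₁) (hcard : #Ω = ℵ_ 2)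
    (h2 : (2 : Cardinal.{u}) ^ (ℵ₁ : Cardinal.{u}) = ℵ_ 2)
    {P : LT Ω W} {S : LT Ω T} {pat : W → T → W} (hp : IsPat P S pat) (hS : S.NoBranch)
    (hW : ∀ a, #{w | P.ht w < a} ≤ ℵ₁) (hT : ∀ a, #{t | S.ht t < a} ≤ ℵ₁)
    (hTm : ∀ m, #{t | S.ht t = m} < continuum.{u}) (hTne : ∀ m, ∃ t, S.ht t = m)
    (hWne : ∀ m, ∃ w, P.ht w = m) :
    ∃ B : Ω → Option (Ω → W), (∀ m b, B m = some b → OmegaLim m ∧ P.IsBr m b) ∧
      ∀ f : W → T, IsLev P S f → ∃ m b, B m = some b ∧
        ¬ ∃ y, S.ht y = m ∧ ∀ a < m, f (b a) = S.r a y := by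
  classical
  obtain ⟨A, hA⟩ := exists_diamond_filtered hseg hcard h2 (P := W × T)
    (fun p => max (P.ht p.1) (S.ht p.2)) (by
      intro a
      have hsub : {p : W × T | max (P.ht p.1) (S.ht p.2) < a} ⊆
          {w | P.ht w < a} ×ˢ {t | S.ht t < a} := by
        rintro ⟨w, t⟩ h
        simp only [mem_ofPred_eq, max_lt_iff] at h
        exact ⟨h.1, h.2⟩
      refine (mk_le_mk_of_subset hsub).trans ?_
      rw [mk_setProd]
      refine (mul_le_mul' (hW a) (hT a)).trans ?_
      exact (mul_eq_self (aleph0_le_aleph 1)).le)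
  let Bad : Ω → (Ω → W) → Prop := fun m b =>
    OmegaLim m ∧ P.IsBr m b ∧ ¬ ∃ y, S.ht y = m ∧ ∀ a < m, (b a, S.r a y) ∈ A m
  let B : Ω → Option (Ω → W) := fun m => if h : ∃ b, Bad m b then some h.choose else none
  have hB1 : ∀ m b, B m = some b → Bad m b := by
    intro m b hb
    by_cases h : ∃ b, Bad m b
    · simp only [B, h, dite_true, Option.some.injEq] at hb
      rw [← hb]
      exact h.choose_spec
    · simp [B, h] at hb
  refine ⟨B, fun m b hb => ⟨(hB1 m b hb).1, (hB1 m b hb).2.1⟩, fun f hf => ?_⟩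
  obtain ⟨C, hC, hCf⟩ := exists_club hseg hcard hp hf hS hW
  obtain ⟨m, hmC, hmlim, hguess⟩ := hA {p | f p.1 = p.2} C hC
  have hgu : ∀ w t, P.ht w < m → S.ht t < m → ((w, t) ∈ A m ↔ f w = t) := by
    intro w t h1 h2
    exact hguess (w, t) (max_lt h1 h2)
  obtain ⟨g, hg, hgδ⟩ := id hmlim
  have hgm : ∀ a < m, ∃ n, a < g n := by
    intro a ha
    by_contra hno
    push Not at hno
    exact absurd (hgδ.2 (by rintro _ ⟨n, rfl⟩; exact hno n)) (not_le.2 ha)
  have hgltm : ∀ n, g n < m := fun n =>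
    lt_of_lt_of_le (hg (Nat.lt_succ_self n)) (hgδ.1 ⟨n + 1, rfl⟩)
  -- extension of nodes
  have hext : ∀ w a, P.ht w ≤ a → ∃ w', P.ht w' = a ∧ P.r (P.ht w) w' = w := by
    intro w a hwa
    obtain ⟨t, ht⟩ := hTne a
    exact ⟨pat w t, by rw [hp.ht w t (by rw [ht]; exact hwa), ht],
      hp.restr w t (by rw [ht]; exact hwa)⟩
  by_cases hbad : ∃ b, Bad m b
  · refine ⟨m, hbad.choose, by simp [B, hbad], ?_⟩
    obtain ⟨-, hbr, hno⟩ := hbad.choose_spec
    rintro ⟨y, hy, hfy⟩
    refine hno ⟨y, hy, fun a ha => ?_⟩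
    have hry : S.ht (S.r a y) = a := S.ht_r _ _ (by rw [hy]; exact ha.le)
    exact (hgu _ _ (by rw [hbr.ht a ha]; exact ha) (by rw [hry]; exact ha)).2 (hfy a ha)
  · exfalso
    -- every branch of length `m` has an upper node for its image
    have hup : ∀ b, P.IsBr m b → ∃ y, S.ht y = m ∧ ∀ a < m, f (b a) = S.r a y := by
      intro b hb
      by_contra hno
      refine hbad ⟨b, hmlim, hb, ?_⟩
      rintro ⟨y, hy, hfy⟩
      refine hno ⟨y, hy, fun a ha => ?_⟩
      have hry : S.ht (S.r a y) = a := S.ht_r _ _ (by rw [hy]; exact ha.le)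
      exact (hgu _ _ (by rw [hb.ht a ha]; exact ha) (by rw [hry]; exact ha)).1 (hfy a ha)
    by_cases hcone : ∃ s, P.ht s < m ∧ ∀ v v', P.ht s ≤ P.ht v → P.ht v = P.ht v' →
        P.ht v < m → P.r (P.ht s) v = s → P.r (P.ht s) v' = s → f v = f v'
    · obtain ⟨s, hsm, hs⟩ := hcone
      -- a branch through `s`
      have hstep : ∀ (w : W) (n : ℕ), P.ht w < m →
          ∃ w', P.ht w' < m ∧ g n ≤ P.ht w' ∧ P.ht w ≤ P.ht w' ∧ P.r (P.ht w) w' = w := by
        intro w n hw
        obtain ⟨w', h1, h2⟩ := hext w (max (P.ht w) (g n)) (le_max_left _ _)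
        exact ⟨w', by rw [h1]; exact max_lt hw (hgltm n), by rw [h1]; exact le_max_right _ _,
          by rw [h1]; exact le_max_left _ _, h2⟩
      choose! st hst1 hst2 hst3 hst4 using hstep
      let q : ℕ → W := fun n => Nat.rec (st s 0) (fun n w => st w (n + 1)) n
      have hq : ∀ n, q (n + 1) = st (q n) (n + 1) := fun n => rfl
      have hq1 : ∀ n, P.ht (q n) < m := by
        intro n
        induction n with
        | zero => exact hst1 s 0 hsm
        | succ n ih => rw [hq]; exact hst1 _ _ ih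
      have hq2 : ∀ n, g n ≤ P.ht (q n) := by
        intro n
        cases n with
        | zero => exact hst2 s 0 hsm
        | succ n => rw [hq]; exact hst2 _ _ (hq1 n)
      obtain ⟨b, hb, hbq⟩ := exists_br g hgm q hq1 hq2 (fun n => by
        rw [hq]; exact ⟨hst3 _ _ (hq1 n), hst4 _ _ (hq1 n)⟩)
      obtain ⟨y, hy, hfy⟩ := hup b hb
      have hbs : b (P.ht s) = s := by
        rw [hbq 0 _ (hst3 s 0 hsm)]
        exact hst4 s 0 hsm
      -- the fixed nodes below `y`
      have hfix : ∀ a, P.ht s ≤ a → a < m → f (pat s (S.r a y)) = S.r a y := by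
        intro a hsa ham
        have hry : S.ht (S.r a y) = a := S.ht_r _ _ (by rw [hy]; exact ham.le)
        have hle : P.ht s ≤ S.ht (S.r a y) := by rw [hry]; exact hsa
        have e1 : P.ht (pat s (S.r a y)) = a := by rw [hp.ht _ _ hle, hry]
        have e2 : f (pat s (S.r a y)) = f (b a) := by
          refine hs _ _ (by rw [e1]; exact hsa) (by rw [e1, hb.ht a ham]) (by rw [e1]; exact ham)
            (hp.restr _ _ hle) ?_
          rw [hb.coh _ _ hsa ham, hbs]
        rw [e2, hfy a ham]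
      obtain ⟨n, hn⟩ := hgm _ hsm
      obtain ⟨c, hcm, hc⟩ := hCf m hmC (g n) (hgltm n) s hn
      have hmax : max (P.ht s) c < m := max_lt hsm hcm
      have hry : S.ht (S.r (max (P.ht s) c) y) = max (P.ht s) c :=
        S.ht_r _ _ (by rw [hy]; exact hmax.le)
      have := hc _ (by rw [hry]; exact le_max_left _ _) (hfix _ (le_max_left _ _) hmax)
      rw [hry] at this
      exact absurd this (not_lt.2 (le_max_right _ _))
    · push Not at hcone
      have hsplit : ∀ s, P.ht s < m → ∃ V : Bool → W, (∀ c, P.ht s ≤ P.ht (V c)) ∧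
          P.ht (V true) = P.ht (V false) ∧ (∀ c, P.ht (V c) < m) ∧
          (∀ c, P.r (P.ht s) (V c) = s) ∧ f (V true) ≠ f (V false) := by
        intro s hs
        obtain ⟨v, v', h1, h2, h3, h4, h5, h6⟩ := hcone s hs
        refine ⟨fun c => if c then v else v', ?_, by simpa using h2, ?_, ?_, by simpa using h6⟩
        · rintro (_ | _)
          · simpa [← h2] using h1
          · simpa using h1
        · rintro (_ | _)
          · simpa [← h2] using h3
          · simpa using h3
        · rintro (_ | _)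
          · simpa using h5
          · simpa using h4
      choose! V hV1 hV2 hV3 hV4 hV5 using hsplit
      have hstep : ∀ (c : Bool) (n : ℕ) (w : W), P.ht w < m →
          ∃ w', P.ht w' < m ∧ g n ≤ P.ht w' ∧ P.ht (V w c) ≤ P.ht w' ∧
            P.r (P.ht (V w c)) w' = V w c := by
        intro c n w hw
        obtain ⟨w', h1, h2⟩ := hext (V w c) (max (P.ht (V w c)) (g n)) (le_max_left _ _)
        exact ⟨w', by rw [h1]; exact max_lt (hV3 w hw c) (hgltm n),
          by rw [h1]; exact le_max_right _ _, by rw [h1]; exact le_max_left _ _, h2⟩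
      choose! st hst1 hst2 hst3 hst4 using hstep
      have hst5 : ∀ c n w, P.ht w < m → P.ht w ≤ P.ht (st c n w) ∧
          P.r (P.ht w) (st c n w) = w := by
        intro c n w hw
        refine ⟨(hV1 w hw c).trans (hst3 c n w hw), ?_⟩
        rw [← P.r_r _ _ (st c n w) (hV1 w hw c) (hst3 c n w hw), hst4 c n w hw, hV4 w hw c]
      obtain ⟨s₀, hs₀⟩ := hWne (g 0)
      let q : (ℕ → Bool) → ℕ → W := fun x n => Nat.rec s₀ (fun n w => st (x n) (n + 1) w) n
      have hq : ∀ x n, q x (n + 1) = st (x n) (n + 1) (q x n) := fun x n => rfl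
      have hq1 : ∀ x n, P.ht (q x n) < m := by
        intro x n
        induction n with
        | zero => change P.ht s₀ < m; rw [hs₀]; exact hgltm 0
        | succ n ih => rw [hq]; exact hst1 _ _ _ ih
      have hq2 : ∀ x n, g n ≤ P.ht (q x n) := by
        intro x n
        cases n with
        | zero => change g 0 ≤ P.ht s₀; rw [hs₀]
        | succ n => rw [hq]; exact hst2 _ _ _ (hq1 x n)
      choose b hb hbq using fun x => exists_br g hgm (q x) (hq1 x) (hq2 x) (fun n => by
        rw [hq]; exact hst5 _ _ _ (hq1 x n))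
      choose y hy hfy using fun x => hup (b x) (hb x)
      -- the value of the branch at the splitting level
      have hval : ∀ x n, f (V (q x n) (x n)) = S.r (P.ht (V (q x n) (x n))) (y x) := by
        intro x n
        have h1 := hst3 (x n) (n + 1) (q x n) (hq1 x n)
        have h2 := hst4 (x n) (n + 1) (q x n) (hq1 x n)
        rw [← hq] at h1 h2
        rw [← hfy x _ (hV3 (q x n) (hq1 x n) (x n)), hbq x (n + 1) _ h1, h2]
      have hinj : Function.Injective (fun x => (⟨y x, hy x⟩ : {t | S.ht t = m})) := by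
        intro x x' hxx
        have hyy : y x = y x' := congrArg Subtype.val hxx
        by_contra hne
        have hex : ∃ n, x n ≠ x' n := by
          by_contra hall
          push Not at hall
          exact hne (funext hall)
        obtain ⟨n, hn, hmin⟩ : ∃ n, x n ≠ x' n ∧ ∀ k < n, x k = x' k :=
          ⟨Nat.find hex, Nat.find_spec hex, fun k hk => not_not.1 (Nat.find_min hex hk)⟩
        have hqq : ∀ k ≤ n, q x k = q x' k := by
          intro k
          induction k with
          | zero => intro _; rfl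
          | succ k ih =>
            intro hk
            rw [hq, hq, ih (by omega), hmin k (by omega)]
        have h1 := hval x n
        have h2 := hval x' n
        rw [← hyy, ← hqq n le_rfl] at h2
        have h3 := hV2 (q x n) (hq1 x n)
        have h4 := hV5 (q x n) (hq1 x n)
        cases hx : x n <;> cases hx' : x' n
        · exact hn (by rw [hx, hx'])
        · rw [hx] at h1
          rw [hx', h3] at h2
          exact h4 (h2.trans h1.symm)
        · rw [hx, h3] at h1
          rw [hx'] at h2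
          exact h4 (h1.trans h2.symm)
        · exact hn (by rw [hx, hx'])
      have hcardle := lift_mk_le_lift_mk_of_injective hinj
      have hcont : Cardinal.lift.{u} #(ℕ → Bool) = continuum.{u} := by simp
      rw [hcont, Cardinal.lift_uzero] at hcardle
      exact absurd (hTm m) (not_lt.2 hcardle)

end LT

end Pool.Agent.UnivA
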