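import Pool.Agent.UnivA.Core
import Pool.Agent.UnivA.CoreC

/-!
# The case `2 ^ ℵ₁ = ℵ₂ ≤ 2 ^ ℵ₀`
-/

open Cardinal Set

namespace Pool.Agent.UnivA

universe u

variable {K T : Type u} [LinearOrder K]

/-- The adapter from `TD` to `LT`. -/
def TD.toLT (D : TD K T) : LT K T where
  ht := D.rk
  r := fun a t => D.res t a
  ht_r := fun a t h => D.rk_res t a h
  r_self := D.res_rk
  r_r := fun a b t h h' => D.res_res t a b h h'

theorem succ_aleph_one : Order.succ (ℵ₁ : Cardinal.{u}) = ℵ_ 2 := by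
  rw [succ_aleph]; congr 1; norm_num

theorem IdxOK.card_eq (hK : IdxOK K ℵ₁) : #K = ℵ_ 2 := by
  apply le_antisymm
  · by_contra hcon
    rw [not_le] at hcon
    obtain ⟨S, hS⟩ := le_mk_iff_exists_set.1 hcon.le
    have hcov : (univ : Set K) ⊆ ⋃ s : S, Iio (s : K) := by
      intro b _
      by_contra hno
      have hsub : S ⊆ Iio b ∪ {b} := by
        intro s hs
        rw [mem_iUnion, not_exists] at hno
        have := hno ⟨s, hs⟩
        rw [mem_Iio, not_lt] at this
        rcases this.lt_or_eq with h | h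
        · exact Or.inl h
        · exact Or.inr h
      have h1 : #S ≤ ℵ₁ := by
        refine (mk_le_mk_of_subset hsub).trans ((mk_union_le _ _).trans ?_)
        refine (add_le_add (hK.small b) (by simp : #({b} : Set K) ≤ 1)).trans ?_
        exact (add_le_add le_rfl (one_le_aleph0.trans (aleph0_le_aleph 1))).trans
          (add_eq_self (aleph0_le_aleph 1)).le
      rw [hS, aleph_le_aleph] at h1
      exact absurd h1 (by norm_num)
    have h2 : #K ≤ ℵ_ 2 := by
      rw [← mk_univ]
      refine (mk_le_mk_of_subset hcov).trans ((mk_iUnion_le _).trans ?_)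
      refine (mul_le_mul' hS.le (ciSup_le' fun s => (hK.small _).trans
        (aleph_le_aleph.2 (by norm_num : (1 : Ordinal.{u}) ≤ 2)))).trans ?_
      exact (mul_eq_self (aleph0_le_aleph 2)).le
    exact absurd hcon (not_lt.2 h2)
  · rw [← succ_aleph_one, Order.succ_le_iff]
    by_contra hcon
    rw [not_lt, ← mk_univ] at hcon
    obtain ⟨b, hb⟩ := hK.bdd univ hcon
    exact lt_irrefl b (hb b (mem_univ b))

theorem mk_lt_of_nar {D : TD K T} (hK : IdxOK K ℵ₁) (hD : D.Nar ℵ₁) (a : K) :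
    #{t | D.rk t < a} ≤ ℵ₁ := by
  have hcov : {t | D.rk t < a} ⊆ ⋃ b : Iio a, {t | D.rk t = b} := by
    intro t ht
    exact mem_iUnion.2 ⟨⟨D.rk t, ht⟩, rfl⟩
  refine (mk_le_mk_of_subset hcov).trans ((mk_iUnion_le _).trans ?_)
  refine (mul_le_mul' (hK.small a) (ciSup_le' fun s => hD.narrow _)).trans ?_
  exact (mul_eq_self (aleph0_le_aleph 1)).le

theorem truncLT {t0 : T} {a x : K} {v : K → T} (h : x < a) : trunc t0 a v x = v x :=
  trunc_lt t0 v h

theorem truncGE {t0 : T} {a x : K} {v : K → T} (h : a ≤ x) : trunc t0 a v x = t0 :=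
  trunc_ge t0 v h

theorem vresLT {D : TD K T} {Ctl : K → Prop} {t0 : T} {lam : Cardinal.{u}}
    {X : K → Set (K → T)} (hX : ExtOK D Ctl t0 lam X) (p : V D Ctl t0 X) (a : K)
    (h : a < p.1.1) : (vres hX p a).1 = (a, trunc t0 a p.1.2) := vres_val hX p a h.le

theorem vresLE {D : TD K T} {Ctl : K → Prop} {t0 : T} {lam : Cardinal.{u}}
    {X : K → Set (K → T)} (hX : ExtOK D Ctl t0 lam X) (p : V D Ctl t0 X) (a : K)
    (h : p.1.1 ≤ a) : vres hX p a = p := dif_neg (not_lt.2 h)

/-- The tree of patterns has one root. -/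
theorem VD_root {D : TD K T} {Ctl : K → Prop} {t0 : T} {lam : Cardinal.{u}}
    {X : K → Set (K → T)} (hX : ExtOK D Ctl t0 lam X) (a0 : K) (h0 : ∀ b, a0 ≤ b)
    (p q : V D Ctl t0 X) : (VD D Ctl t0 X hX).res p a0 = (VD D Ctl t0 X hX).res q a0 := by
  apply Subtype.ext
  rw [VD_res_val hX p a0 (h0 _), VD_res_val hX q a0 (h0 _)]
  congr 1
  funext x
  rw [trunc_ge t0 _ (h0 x), trunc_ge t0 _ (h0 x)]

/-- If `2 ^ ℵ₁ = ℵ₂` and the continuum hypothesis fails then no narrow `ℵ₂`-Aronszajn tree is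
universal. -/
theorem case_dia_root [WellFoundedLT K] (hK : IdxOK K ℵ₁) (hC : CtlOK ℵ₁ (IsLim : K → Prop))
    (D : TD K T) (hD : D.Nar ℵ₁) (h2 : (2 : Cardinal.{u}) ^ (ℵ₁ : Cardinal.{u}) = ℵ_ 2)
    (hch : (ℵ₁ : Cardinal.{u}) < continuum.{u}) :
    ∃ (S : Type u) (E : TD K S), E.Nar ℵ₁ ∧
      (∀ a0, (∀ b, a0 ≤ b) → ∀ p q, E.res p a0 = E.res q a0) ∧ ∀ f, ¬ E.Mor D f := by
  classical
  obtain ⟨a₀⟩ := hK.ne
  obtain ⟨t0, -⟩ := hD.full a₀
  have hX0 : ExtOK D IsLim t0 ℵ₁ (fun _ => (∅ : Set (K → T))) :=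
    ⟨fun m v hv => absurd hv (notMem_empty v), fun m v hv => absurd hv (notMem_empty v),
      fun m => by simp⟩
  let P : TD K (V D IsLim t0 (fun _ => (∅ : Set (K → T)))) := VD D IsLim t0 _ hX0
  have hP : P.Nar ℵ₁ := VD_nar hK hD hC hX0
  have hpat : ∀ p : V D IsLim t0 (fun _ => (∅ : Set (K → T))), Pat D IsLim t0 p.1.1 p.1.2 := by
    intro p
    rcases p.2 with h | h
    · exact h
    · exact absurd h (notMem_empty _)
  let pat : V D IsLim t0 (fun _ => (∅ : Set (K → T))) → T →
      V D IsLim t0 (fun _ => (∅ : Set (K → T))) := fun s t =>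
    if h : s.1.1 ≤ D.rk t then
      ⟨(D.rk t, restart D t0 s.1.1 s.1.2 t), Or.inl (Pat_restart (hpat s) h)⟩ else s
  have hpat1 : ∀ s t, s.1.1 ≤ D.rk t → (pat s t).1 = (D.rk t, restart D t0 s.1.1 s.1.2 t) :=
    fun s t h => congrArg Subtype.val (dif_pos h)
  have hIsPat : LT.IsPat P.toLT D.toLT pat := by
    refine ⟨fun s t h => ?_, fun s t a hsa hat => ?_, fun s t h => ?_, fun s t t' h h' hx => ?_⟩
    · change (pat s t).1.1 = D.rk t
      rw [hpat1 s t h]
    · change vres hX0 (pat s t) a = pat s (D.res t a)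
      change s.1.1 ≤ a at hsa
      change a ≤ D.rk t at hat
      have hst : s.1.1 ≤ D.rk t := hsa.trans hat
      have e1 := hpat1 s t hst
      have e2 := hpat1 s (D.res t a) (by rw [D.rk_res _ _ hat]; exact hsa)
      rcases hat.lt_or_eq with h | h
      · apply Subtype.ext
        rw [vresLT hX0 _ _ (by rw [e1]; exact h), e1, e2, D.rk_res _ _ hat]
        congr 1
        funext x
        by_cases hx : x < a
        · rw [truncLT hx]
          by_cases hxs : x < s.1.1
          · simp [restart, hxs]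
          · simp only [restart, hxs, if_false, hx.trans h, if_true, D.rk_res _ _ hat, hx]
            exact (D.res_res _ _ _ hx.le hat).symm
        · rw [truncGE (not_lt.1 hx)]
          have hxs : ¬ x < s.1.1 := fun h' => hx (h'.trans_le hsa)
          simp only [restart, hxs, if_false, D.rk_res _ _ hat, hx]
      · subst h
        rw [vresLE hX0 _ _ (by rw [e1]), D.res_rk]
    · change s.1.1 = D.rk t at h
      apply Subtype.ext
      rw [hpat1 s t h.le]
      refine Prod.ext h.symm ?_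
      funext x
      by_cases hxs : x < s.1.1
      · simp [restart, hxs]
      · have h9 := (hpat s).1 x (not_lt.1 hxs)
        rw [h9]
        simp only [restart, hxs, if_false]
        rw [if_neg (by rw [← h]; exact hxs)]
    · change s.1.1 ≤ D.rk t at h
      change D.rk t = D.rk t' at h'
      apply Subtype.ext
      rw [hpat1 s t h, hpat1 s t' (h' ▸ h), ← h']
      congr 1
      funext x
      by_cases hxs : x < s.1.1
      · simp [restart, hxs]
      · by_cases hxt : x < D.rk t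
        · simp only [restart, hxs, if_false, hxt, if_true, ← h']
          exact hx x (not_lt.1 hxs) hxt
        · simp only [restart, hxs, if_false, hxt, ← h']
  obtain ⟨B, hB1, hB2⟩ := LT.exists_branches (P := P.toLT) (S := D.toLT) hK.small hK.card_eq h2
    hIsPat hD.nobr (mk_lt_of_nar hK hP) (mk_lt_of_nar hK hD)
    (fun m => (hD.narrow m).trans_lt hch) hD.full hP.full
  -- the sequence of a branch
  let β : (K → V D IsLim t0 (fun _ => (∅ : Set (K → T)))) → K → K → T := fun b m x =>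
    if h : ∃ y, x < y ∧ y < m then (b h.choose).1.2 x else t0
  have hβ : ∀ b m, LT.IsBr P.toLT m b → ∀ x y, x < y → y < m → β b m x = (b y).1.2 x := by
    intro b m hb x y hxy hym
    have h : ∃ y, x < y ∧ y < m := ⟨y, hxy, hym⟩
    have e1 : β b m x = (b h.choose).1.2 x := dif_pos h
    rw [e1]
    obtain ⟨hz1, hz2⟩ := h.choose_spec
    have hcase : ∀ u v, x < u → u ≤ v → v < m → (b u).1.2 x = (b v).1.2 x := by
      intro u v hu huv hv
      have hc : vres hX0 (b v) u = b u := hb.coh u v huv hv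
      have hvv : (b v).1.1 = v := hb.ht v hv
      rcases huv.lt_or_eq with h' | h'
      · have := vresLT hX0 (b v) u (by rw [hvv]; exact h')
        rw [hc] at this
        rw [this]
        exact truncLT hu
      · rw [h']
    rcases le_total h.choose y with h' | h'
    · exact hcase _ _ hz1 h' hym
    · exact (hcase _ _ hxy h' hz2).symm
  let X : K → Set (K → T) := fun m => {v | ∃ b, B m = some b ∧ v = β b m}
  have hX : ExtOK D IsLim t0 ℵ₁ X := by
    refine ⟨fun m v hv x hx => ?_, fun m v hv a ha => ?_, fun m => ?_⟩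
    · obtain ⟨b, -, rfl⟩ := hv
      exact dif_neg (by
        rintro ⟨y, h1, h2⟩
        exact absurd (h1.trans h2) (not_lt.2 hx))
    · obtain ⟨b, hb, rfl⟩ := hv
      obtain ⟨-, hbr⟩ := hB1 m b hb
      have e1 : trunc t0 a (β b m) = (b a).1.2 := by
        have hba : (b a).1.1 = a := hbr.ht a ha
        funext x
        by_cases hx : x < a
        · rw [truncLT hx]
          exact hβ b m hbr x a hx ha
        · rw [truncGE (not_lt.1 hx)]
          exact ((hpat (b a)).1 x (by rw [hba]; exact not_lt.1 hx)).symm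
      rw [e1]
      have := hpat (b a)
      rwa [show (b a).1.1 = a from hbr.ht a ha] at this
    · have hsub : (X m).Subsingleton := by
        rintro v ⟨b, hb, rfl⟩ v' ⟨b', hb', rfl⟩
        rw [hb] at hb'
        rw [Option.some.inj hb']
      exact (mk_le_one_iff_set_subsingleton.2 hsub).trans
        (one_le_aleph0.trans (aleph0_le_aleph 1))
  refine ⟨_, VD D IsLim t0 X hX, VD_nar hK hD hC hX, VD_root hX, fun f hf => ?_⟩
  -- restrict `f` to the patterns
  let inc : V D IsLim t0 (fun _ => (∅ : Set (K → T))) → V D IsLim t0 X := fun p =>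
    ⟨p.1, Or.inl (hpat p)⟩
  have hinc : ∀ p a, inc (vres hX0 p a) = vres hX (inc p) a := by
    intro p a
    rcases lt_or_ge a p.1.1 with h | h
    · apply Subtype.ext
      rw [vresLT hX (inc p) a h]
      exact vresLT hX0 p a h
    · rw [vresLE hX0 p a h, vresLE hX (inc p) a h]
  obtain ⟨m, b, hb, hno⟩ := hB2 (fun p => f (inc p)) ⟨fun p => hf.rk (inc p), fun p a ha => by
    change f (inc (vres hX0 p a)) = D.res (f (inc p)) a
    rw [hinc]
    exact hf.res (inc p) a ha⟩
  obtain ⟨-, hbr⟩ := hB1 m b hb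
  apply hno
  let v : V D IsLim t0 X := ⟨(m, β b m), Or.inr ⟨b, hb, rfl⟩⟩
  refine ⟨f v, hf.rk v, fun a ha => ?_⟩
  change f (inc (b a)) = D.res (f v) a
  rw [← hf.res v a ha.le]
  congr 1
  apply Subtype.ext
  have e2 : (vres hX v a).1 = (a, trunc t0 a v.1.2) := vresLT hX v a ha
  refine Eq.trans ?_ e2.symm
  refine Prod.ext (hbr.ht a ha) ?_
  funext x
  have hba : (b a).1.1 = a := hbr.ht a ha
  change (b a).1.2 x = trunc t0 a (β b m) x
  by_cases hx : x < a
  · rw [truncLT hx]
    exact (hβ b m hbr x a hx ha).symm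
  · rw [truncGE (not_lt.1 hx)]
    exact (hpat (b a)).1 x (by rw [hba]; exact not_lt.1 hx)

theorem case_dia [WellFoundedLT K] (hK : IdxOK K ℵ₁) (hC : CtlOK ℵ₁ (IsLim : K → Prop))
    (D : TD K T) (hD : D.Nar ℵ₁) (h2 : (2 : Cardinal.{u}) ^ (ℵ₁ : Cardinal.{u}) = ℵ_ 2)
    (hch : (ℵ₁ : Cardinal.{u}) < continuum.{u}) :
    ∃ (S : Type u) (E : TD K S), E.Nar ℵ₁ ∧ ∀ f, ¬ E.Mor D f := by
  obtain ⟨S, E, h1, -, h3⟩ := case_dia_root hK hC D hD h2 hch
  exact ⟨S, E, h1, h3⟩

end Pool.Agent.UnivA
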