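import Mathlib

/-!
# Shelah's diamond on points of countable cofinality

If `2 ^ ℵ₁ = ℵ₂` then there is a diamond sequence on the points of countable cofinality of `ω₂`.
The main theorem is stated for an arbitrary well-order `Ω` of cardinality `ℵ₂` all of whose initial
segments have cardinality at most `ℵ₁`; the version for the ordinals below `ω₂` is
`exists_diamond_ordinal`.
-/

open Cardinal Set

namespace Pool.Agent.UnivA

universe u

section Basics

variable {Ω : Type u} [LinearOrder Ω]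

/-- `δ` is the supremum of a strictly increasing sequence of length `ω`. -/
def OmegaLim (δ : Ω) : Prop := ∃ g : ℕ → Ω, StrictMono g ∧ IsLUB (range g) δ

/-- Unbounded and closed under suprema of strictly increasing sequences of length `ω`. -/
structure OmegaClub (C : Set Ω) : Prop where
  unbounded : ∀ a : Ω, ∃ b ∈ C, a < b
  closed : ∀ g : ℕ → Ω, StrictMono g → (∀ n, g n ∈ C) → ∀ δ, IsLUB (range g) δ → δ ∈ C

theorem mk_Iic_le (hseg : ∀ a : Ω, #(Iio a) ≤ ℵ₁) (a : Ω) : #(Iic a) ≤ ℵ₁ := by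
  have h1 : Iic a = Iio a ∪ {a} := by
    ext x; simp [le_iff_lt_or_eq]
  rw [h1]
  refine (mk_union_le _ _).trans ?_
  refine (add_le_add (hseg a) (by simp : #({a} : Set Ω) ≤ 1)).trans ?_
  exact (add_le_add le_rfl (one_le_aleph0.trans (aleph0_le_aleph 1))).trans
    (add_eq_self (aleph0_le_aleph 1)).le

theorem exists_bound (hseg : ∀ a : Ω, #(Iio a) ≤ ℵ₁) (hcard : #Ω = ℵ_ 2)
    {κ : Type u} (hκ : #κ ≤ ℵ₁) (s : κ → Ω) : ∃ b, ∀ i, s i < b := by
  by_contra hcon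
  push Not at hcon
  have hcov : (univ : Set Ω) ⊆ ⋃ i : κ, Iic (s i) := by
    intro b _
    obtain ⟨i, hi⟩ := hcon b
    exact mem_iUnion.2 ⟨i, hi⟩
  have h1 : #Ω ≤ ℵ₁ := by
    rw [← mk_univ]
    refine (mk_le_mk_of_subset hcov).trans ?_
    refine (mk_iUnion_le _).trans ?_
    refine (mul_le_mul' hκ (ciSup_le' fun i => mk_Iic_le hseg (s i))).trans ?_
    exact (mul_eq_self (aleph0_le_aleph 1)).le
  rw [hcard, aleph_le_aleph] at h1
  exact absurd h1 (by norm_num)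

theorem exists_isLUB [WellFoundedLT Ω] (hseg : ∀ a : Ω, #(Iio a) ≤ ℵ₁) (hcard : #Ω = ℵ_ 2)
    (g : ℕ → Ω) : ∃ δ, IsLUB (range g) δ := by
  obtain ⟨b, hb⟩ := exists_bound hseg hcard (κ := ULift.{u} ℕ)
    (by simp) (fun n => g n.down)
  have hne : (upperBounds (range g)).Nonempty :=
    ⟨b, by rintro _ ⟨n, rfl⟩; exact (hb ⟨n⟩).le⟩
  refine ⟨WellFounded.min wellFounded_lt _ hne, WellFounded.min_mem wellFounded_lt _ hne, ?_⟩
  intro x hx
  exact not_lt.1 (WellFounded.not_lt_min wellFounded_lt _ hx)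

/-- The point lemma: a common point of `ℵ₁` many `ω`-clubs, of cofinality `ω`, with a cofinal
sequence along which a given function is captured. -/
theorem exists_point [WellFoundedLT Ω] (hseg : ∀ a : Ω, #(Iio a) ≤ ℵ₁) (hcard : #Ω = ℵ_ 2)
    {κ : Type u} (hκ : #κ ≤ ℵ₁) (C : κ → Set Ω) (hC : ∀ i, OmegaClub (C i)) (f : Ω → Ω) :
    ∃ (g : ℕ → Ω) (δ : Ω), StrictMono g ∧ IsLUB (range g) δ ∧ (∀ n, f (g n) < δ) ∧
      ∀ i, δ ∈ C i := by
  choose next hnext hlt using fun i => (hC i).unbounded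
  -- `step a` is above `a`, `f a` and all `next i a`
  have hstep : ∀ a : Ω, ∃ b, a < b ∧ f a < b ∧ ∀ i, next i a < b := by
    intro a
    obtain ⟨b₁, hb₁⟩ := exists_bound hseg hcard hκ (fun i => next i a)
    obtain ⟨b, hb⟩ := exists_bound hseg hcard (κ := ULift.{u} (Fin 3))
      (by
        have : #(ULift.{u} (Fin 3)) < ℵ₀ := by simp
        exact this.le.trans (aleph0_le_aleph 1))
      (fun n => ![a, f a, b₁] n.down)
    refine ⟨b, hb ⟨0⟩, hb ⟨1⟩, fun i => (hb₁ i).trans (hb ⟨2⟩)⟩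
  choose step h1 h2 h3 using hstep
  obtain ⟨a₀⟩ : Nonempty Ω := by
    rw [← mk_ne_zero_iff, hcard]
    exact (aleph_pos 2).ne'
  let g : ℕ → Ω := fun n => Nat.rec a₀ (fun _ a => step a) n
  have hg : ∀ n, g (n + 1) = step (g n) := fun n => rfl
  have hmono : StrictMono g := strictMono_nat_of_lt_succ fun n => by rw [hg]; exact h1 _
  obtain ⟨δ, hδ⟩ := exists_isLUB hseg hcard g
  have hltδ : ∀ n, g n < δ := fun n =>
    (hmono (Nat.lt_succ_self n)).trans_le (hδ.1 ⟨n + 1, rfl⟩)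
  refine ⟨g, δ, hmono, hδ, fun n => ?_, fun i => ?_⟩
  · exact (h2 (g n)).trans (hltδ (n + 1))
  · refine (hC i).closed (fun n => next i (g n)) ?_ (fun n => hnext i _) δ ?_
    · refine strictMono_nat_of_lt_succ fun n => ?_
      refine (h3 (g n) i).trans ?_
      exact hlt i (g (n + 1))
    · constructor
      · rintro _ ⟨n, rfl⟩
        exact ((h3 (g n) i).trans (hltδ (n + 1))).le
      · intro x hx
        refine hδ.2 ?_
        rintro _ ⟨n, rfl⟩
        exact (hlt i (g n)).le.trans (hx ⟨n, rfl⟩)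

end Basics

section Diamond

/-- The index type `ω₁`. -/
abbrev Idx : Type u := (ord (ℵ₁ : Cardinal.{u})).ToType

theorem mk_Idx : #(Idx.{u}) = ℵ₁ := by simp [Idx]

theorem countable_iff_lt {α : Type u} (s : Set α) : s.Countable ↔ #s < ℵ₁ := by
  rw [← le_aleph0_iff_set_countable, ← succ_aleph0, Order.lt_succ_iff]

theorem countable_Iio_Idx (i : Idx.{u}) : (Iio i).Countable := by
  rw [countable_iff_lt]
  have h := mk_Iio_lt i (by rw [mk_Idx]; simp)
  rwa [mk_Idx] at h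

theorem uncountable_Idx : ¬ (univ : Set Idx.{u}).Countable := by
  rw [countable_iff_lt, mk_univ, mk_Idx]
  exact lt_irrefl _

theorem exists_bound_Idx (s : ℕ → Idx.{u}) : ∃ i, ∀ n, s n < i := by
  by_contra hcon
  push Not at hcon
  apply uncountable_Idx.{u}
  have hcov : (univ : Set Idx.{u}) ⊆ ⋃ n : ℕ, Iic (s n) := by
    intro b _
    obtain ⟨n, hn⟩ := hcon b
    exact mem_iUnion.2 ⟨n, hn⟩
  refine Countable.mono hcov (countable_iUnion fun n => ?_)
  have : Iic (s n) = Iio (s n) ∪ {s n} := by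
    ext x; simp [le_iff_lt_or_eq]
  rw [this]
  exact (countable_Iio_Idx _).union (countable_singleton _)

variable {Ω : Type u} [LinearOrder Ω]

/-- Enumeration of all bounded codes. -/
theorem exists_enum (hseg : ∀ a : Ω, #(Iio a) ≤ ℵ₁) (hcard : #Ω = ℵ_ 2)
    (h2 : (2 : Cardinal.{u}) ^ (ℵ₁ : Cardinal.{u}) = ℵ_ 2) :
    ∃ X : Ω → (Idx.{u} → Idx.{u} → Set Ω), ∀ (a : Ω) (W : Idx.{u} → Idx.{u} → Set Ω),
      (∀ i j, W i j ⊆ Iio a) → ∃ b, X b = W := by
  classical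
  -- the set of codes
  let 𝒲 : Set (Idx.{u} → Idx.{u} → Set Ω) := {W | ∃ a, ∀ i j, W i j ⊆ Iio a}
  have hle : #𝒲 ≤ #Ω := by
    have hcov : 𝒲 ⊆ ⋃ a : Ω, {W | ∀ i j, W i j ⊆ Iio a} := by
      rintro W ⟨a, ha⟩
      exact mem_iUnion.2 ⟨a, ha⟩
    refine (mk_le_mk_of_subset hcov).trans ((mk_iUnion_le _).trans ?_)
    have hone : ∀ a : Ω, #{W : Idx.{u} → Idx.{u} → Set Ω | ∀ i j, W i j ⊆ Iio a} ≤ ℵ_ 2 := by
      intro a
      have hinj : Function.Injective
          (fun (W : {W : Idx.{u} → Idx.{u} → Set Ω | ∀ i j, W i j ⊆ Iio a}) =>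
            (fun i j => ((fun x : Iio a => (x : Ω)) ⁻¹' (W.1 i j) : Set (Iio a)))) := by
        intro W W' h
        apply Subtype.ext
        funext i j
        have h' : ((fun x : Iio a => (x : Ω)) ⁻¹' (W.1 i j) : Set (Iio a)) =
            ((fun x : Iio a => (x : Ω)) ⁻¹' (W'.1 i j) : Set (Iio a)) :=
          congrFun (congrFun h i) j
        ext x
        constructor
        · intro hx
          have hxa := W.2 i j hx
          have : (⟨x, hxa⟩ : Iio a) ∈ ((fun x : Iio a => (x : Ω)) ⁻¹' (W.1 i j)) := hx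
          rw [h'] at this
          exact this
        · intro hx
          have hxa := W'.2 i j hx
          have : (⟨x, hxa⟩ : Iio a) ∈ ((fun x : Iio a => (x : Ω)) ⁻¹' (W'.1 i j)) := hx
          rw [← h'] at this
          exact this
      refine (mk_le_of_injective hinj).trans ?_
      have hc : #(Idx.{u} → Idx.{u} → Set (Iio a)) = ((2 ^ #(Iio a)) ^ #(Idx.{u})) ^ #(Idx.{u}) := by
        simp [mk_set]
      rw [hc, mk_Idx]
      calc ((2 ^ #(Iio a)) ^ (ℵ₁ : Cardinal.{u})) ^ (ℵ₁ : Cardinal.{u})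
          ≤ ((2 ^ (ℵ₁ : Cardinal.{u})) ^ (ℵ₁ : Cardinal.{u})) ^ (ℵ₁ : Cardinal.{u}) := by
            refine power_le_power_right (power_le_power_right ?_)
            exact power_le_power_left two_ne_zero (hseg a)
        _ = ℵ_ 2 := by
            rw [← power_mul, ← power_mul, mul_eq_self (aleph0_le_aleph 1),
              mul_eq_self (aleph0_le_aleph 1), h2]
    refine (mul_le_mul' le_rfl (ciSup_le' hone)).trans ?_
    rw [hcard]
    exact (mul_eq_self (aleph0_le_aleph 2)).le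
  have hne : 𝒲.Nonempty := by
    obtain ⟨a₀⟩ : Nonempty Ω := by
      rw [← mk_ne_zero_iff, hcard]
      exact (aleph_pos 2).ne'
    exact ⟨fun _ _ => ∅, a₀, fun _ _ => empty_subset _⟩
  have : Nonempty 𝒲 := hne.to_subtype
  obtain ⟨emb⟩ := hle
  refine ⟨fun b => (Function.invFun emb b : 𝒲).1, fun a W hW => ?_⟩
  refine ⟨emb ⟨W, a, hW⟩, ?_⟩
  change (Function.invFun emb (emb ⟨W, a, hW⟩)).1 = W
  rw [Function.leftInverse_invFun emb.injective]

/-- Shelah's theorem: `2 ^ ℵ₁ = ℵ₂` implies diamond on the points of countable cofinality. -/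
theorem exists_diamond [WellFoundedLT Ω] (hseg : ∀ a : Ω, #(Iio a) ≤ ℵ₁) (hcard : #Ω = ℵ_ 2)
    (h2 : (2 : Cardinal.{u}) ^ (ℵ₁ : Cardinal.{u}) = ℵ_ 2) :
    ∃ A : Ω → Set Ω, ∀ X C : Set Ω, OmegaClub C →
      ∃ δ ∈ C, OmegaLim δ ∧ X ∩ Iio δ = A δ := by
  classical
  obtain ⟨X, hX⟩ := exists_enum hseg hcard h2
  -- injections of the initial segments into `ω₁`
  have hE : ∀ δ : Ω, ∃ E : Ω → Idx.{u}, InjOn E (Iio δ) := by
    intro δ
    have hle : #(Iio δ) ≤ #(Idx.{u}) := by rw [mk_Idx]; exact hseg δ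
    obtain ⟨e⟩ := hle
    have : Nonempty Idx.{u} := by
      rw [← mk_ne_zero_iff, mk_Idx]; exact (aleph_pos 1).ne'
    refine ⟨fun x => if h : x < δ then e ⟨x, h⟩ else Classical.arbitrary _, ?_⟩
    intro x hx y hy hxy
    simp only [mem_Iio] at hx hy
    simp only [hx, hy, dite_true] at hxy
    have := e.injective hxy
    exact congrArg Subtype.val this
  choose E hEinj using hE
  let A : Idx.{u} → Ω → Set Ω := fun i δ => {x | x < δ ∧ E δ x < i}
  have hAcount : ∀ i δ, (A i δ).Countable := by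
    intro i δ
    refine Set.MapsTo.countable_of_injOn (f := E δ) (t := Iio i) (fun x hx => hx.2) ?_
      (countable_Iio_Idx i)
    exact (hEinj δ).mono fun x hx => hx.1
  -- Step 1: a good index
  have hstep1 : ∃ i : Idx.{u}, ∀ (Z : Idx.{u} → Set Ω) (D : Idx.{u} → Set Ω),
      (∀ t, OmegaClub (D t)) → ∃ δ, (∀ t, δ ∈ D t) ∧ OmegaLim δ ∧
        ∀ a < δ, ∃ α ∈ A i δ, a < α ∧ ∃ β ∈ A i δ, ∀ t, X β i t = Z t ∩ Iio α := by
    by_contra hcon
    push Not at hcon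
    choose Z D hD hbad using hcon
    choose f hf using fun α => hX α (fun i t => Z i t ∩ Iio α) (fun i t => inter_subset_right)
    obtain ⟨g, δ, hmono, hδ, hfδ, hmem⟩ := exists_point hseg hcard (κ := Idx.{u} × Idx.{u})
      (by
        rw [mk_prod, mk_Idx]
        simp)
      (fun p => D p.1 p.2) (fun p => hD p.1 p.2) f
    have hgδ : ∀ n, g n < δ := fun n =>
      (hmono (Nat.lt_succ_self n)).trans_le (hδ.1 ⟨n + 1, rfl⟩)
    obtain ⟨i, hi⟩ := exists_bound_Idx (fun n => max (E δ (g n)) (E δ (f (g n))))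
    obtain ⟨a, ha, hbad'⟩ := hbad i δ (fun t => hmem (i, t)) ⟨g, hmono, hδ⟩
    -- find `n` with `a < g n`
    obtain ⟨n, hn⟩ : ∃ n, a < g n := by
      by_contra hno
      push Not at hno
      exact absurd (hδ.2 (by rintro _ ⟨n, rfl⟩; exact hno n)) (not_le.2 ha)
    have h1 := hi n
    rw [max_lt_iff] at h1
    obtain ⟨t, ht⟩ := hbad' (g n) ⟨hgδ n, h1.1⟩ hn (f (g n)) ⟨hfδ n, h1.2⟩
    exact ht (by rw [hf])
  obtain ⟨i, hi⟩ := hstep1
  -- Step 2
  by_contra hcon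
  push Not at hcon
  choose bX bC hbC hbad using hcon
  -- the guess at stage `t`, given the sets chosen so far
  let G : Idx.{u} → (Idx.{u} → Set Ω) → Ω → Set Ω := fun t Z δ =>
    {x | ∃ α ∈ A i δ, ∃ β ∈ A i δ, (∀ s < t, X β i s = Z s ∩ Iio α) ∧ x ∈ X β i t}
  let F : Idx.{u} → Set Ω := WellFounded.fix (wellFounded_lt (α := Idx.{u}))
    (fun t Zp => bX (G t (fun s => if h : s < t then Zp s h else ∅)))
  have hF : ∀ t, F t = bX (G t F) := by
    intro t
    have h1 : F t = bX (G t (fun s => if h : s < t then F s else ∅)) :=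
      WellFounded.fix_eq _ _ t
    have h2 : G t (fun s => if h : s < t then F s else ∅) = G t F := by
      funext δ
      ext x
      constructor
      · rintro ⟨α, hα, β, hβ, h3, h4⟩
        refine ⟨α, hα, β, hβ, fun s hs => ?_, h4⟩
        simpa [hs] using h3 s hs
      · rintro ⟨α, hα, β, hβ, h3, h4⟩
        refine ⟨α, hα, β, hβ, fun s hs => ?_, h4⟩
        simpa [hs] using h3 s hs
    rw [h1, h2]
  obtain ⟨δ, hδD, hδlim, hδ⟩ := hi F (fun t => bC (G t F)) (fun t => hbC _)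
  -- every stage loses a pair
  have hpair : ∀ t, ∃ p : Ω × Ω, p.1 ∈ A i δ ∧ p.2 ∈ A i δ ∧
      (∀ s < t, X p.2 i s = F s ∩ Iio p.1) ∧ X p.2 i t ≠ F t ∩ Iio p.1 := by
    intro t
    by_contra hno
    push Not at hno
    have hno' : ∀ α ∈ A i δ, ∀ β ∈ A i δ, (∀ s < t, X β i s = F s ∩ Iio α) →
        X β i t = F t ∩ Iio α := fun α hα β hβ h => hno (α, β) hα hβ h
    have hne := hbad (G t F) δ (hδD t) hδlim
    rw [← hF t] at hne
    apply hne
    ext x
    constructor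
    · rintro ⟨hx1, hx2⟩
      obtain ⟨α, hα, hxα, β, hβ, hall⟩ := hδ x hx2
      refine ⟨α, hα, β, hβ, fun s _ => hall s, ?_⟩
      rw [hall t]
      exact ⟨hx1, hxα⟩
    · rintro ⟨α, hα, β, hβ, h3, h4⟩
      rw [hno' α hα β hβ h3] at h4
      exact ⟨h4.1, lt_trans h4.2 hα.1⟩
  choose p hp1 hp2 hp3 hp4 using hpair
  have hpinj : Function.Injective p := by
    intro s t hst
    by_contra hne
    rcases lt_or_gt_of_ne hne with h | h
    · apply hp4 s
      have := hp3 t s h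
      rw [← hst] at this
      exact this
    · apply hp4 t
      have := hp3 s t h
      rw [hst] at this
      exact this
  apply uncountable_Idx.{u}
  refine Set.MapsTo.countable_of_injOn (f := p) (t := (A i δ) ×ˢ (A i δ))
    (fun t _ => ⟨hp1 t, hp2 t⟩) (hpinj.injOn) ?_
  exact (hAcount i δ).prod (hAcount i δ)

end Diamond

section Club

variable {Ω : Type u} [LinearOrder Ω]

theorem OmegaClub.above {C : Set Ω} (hC : OmegaClub C) (a : Ω) : OmegaClub (C ∩ Ioi a) := by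
  refine ⟨fun b => ?_, fun g hg hmem δ hδ => ⟨hC.closed g hg (fun n => (hmem n).1) δ hδ, ?_⟩⟩
  · obtain ⟨c, hc, hlt⟩ := hC.unbounded (max a b)
    rw [max_lt_iff] at hlt
    exact ⟨c, ⟨hc, hlt.1⟩, hlt.2⟩
  · exact lt_of_lt_of_le (hmem 0).2 (hδ.1 ⟨0, rfl⟩)

/-- The intersection of at most `ℵ₁` many `ω`-clubs is an `ω`-club. -/
theorem OmegaClub.iInter [WellFoundedLT Ω] (hseg : ∀ a : Ω, #(Iio a) ≤ ℵ₁) (hcard : #Ω = ℵ_ 2)
    {κ : Type u} (hκ : #κ ≤ ℵ₁) {C : κ → Set Ω} (hC : ∀ i, OmegaClub (C i)) :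
    OmegaClub (⋂ i, C i) := by
  refine ⟨fun a => ?_, fun g hg hmem δ hδ => ?_⟩
  · have hI : #(Option κ) ≤ ℵ₁ := by
      rw [mk_option]
      exact (add_le_add hκ (one_le_aleph0.trans (aleph0_le_aleph 1))).trans
        (add_eq_self (aleph0_le_aleph 1)).le
    have huniv : OmegaClub (univ : Set Ω) := by
      refine ⟨fun a => ?_, fun _ _ _ _ _ => mem_univ _⟩
      obtain ⟨b, hb⟩ := exists_bound hseg hcard (κ := PUnit.{u + 1})
        (by simpa using one_le_aleph0.trans (aleph0_le_aleph 1)) (fun _ => a)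
      exact ⟨b, mem_univ _, hb PUnit.unit⟩
    obtain ⟨g, δ, hg, hδ, -, hmem⟩ := exists_point hseg hcard hI
      (fun o => (match o with
        | none => (univ : Set Ω)
        | some i => C i) ∩ Ioi a)
      (fun o => OmegaClub.above (by cases o; exacts [huniv, hC _]) a) id
    refine ⟨δ, mem_iInter.2 fun i => (hmem (some i)).1, (hmem none).2⟩
  · exact mem_iInter.2 fun i => (hC i).closed g hg (fun n => mem_iInter.1 (hmem n) i) δ hδ

theorem OmegaClub.inter [WellFoundedLT Ω] (hseg : ∀ a : Ω, #(Iio a) ≤ ℵ₁) (hcard : #Ω = ℵ_ 2)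
    {C D : Set Ω} (hC : OmegaClub C) (hD : OmegaClub D) : OmegaClub (C ∩ D) := by
  have h := OmegaClub.iInter hseg hcard (κ := ULift.{u} Bool)
    (by
      have : #(ULift.{u} Bool) < ℵ₀ := lt_aleph0_of_finite _
      exact this.le.trans (aleph0_le_aleph 1))
    (C := fun b => if b.down then C else D) (by rintro ⟨_ | _⟩ <;> simpa)
  have h2 : (⋂ b : ULift.{u} Bool, if b.down then C else D) = C ∩ D := by
    ext x
    simp only [mem_iInter, mem_inter_iff]
    constructor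
    · intro h
      exact ⟨by simpa using h ⟨true⟩, by simpa using h ⟨false⟩⟩
    · rintro ⟨h1, h2⟩ ⟨_ | _⟩ <;> simpa
  rwa [h2] at h

/-- Points closed under a family of functions indexed by a set of size at most `ℵ₁` at each
point. -/
theorem omegaClub_closure [WellFoundedLT Ω] (hseg : ∀ a : Ω, #(Iio a) ≤ ℵ₁) (hcard : #Ω = ℵ_ 2)
    {P : Type u} (r s : P → Ω) (hr : ∀ a, #{p | r p < a} ≤ ℵ₁) :
    OmegaClub {δ | ∀ a < δ, ∀ p, r p < a → s p < δ} := by
  -- a bound function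
  have hB : ∀ a : Ω, ∃ b, a < b ∧ ∀ p, r p < a → s p < b := by
    intro a
    have hI : #(Option {p | r p < a}) ≤ ℵ₁ := by
      rw [mk_option]
      exact (add_le_add (hr a) (one_le_aleph0.trans (aleph0_le_aleph 1))).trans
        (add_eq_self (aleph0_le_aleph 1)).le
    obtain ⟨b, hb⟩ := exists_bound hseg hcard hI
      (fun o => match o with
        | none => a
        | some p => s p.1)
    exact ⟨b, hb none, fun p hp => hb (some ⟨p, hp⟩)⟩
  choose B hB1 hB2 using hB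
  refine ⟨fun a => ?_, fun g hg hmem δ hδ => ?_⟩
  · have huniv : ∀ c : Ω, OmegaClub (Ioi c) := by
      intro c
      refine ⟨fun b => ⟨B (max b c), ?_, ?_⟩, fun g hg hmem δ hδ => ?_⟩
      · exact lt_of_le_of_lt (le_max_right b c) (hB1 _)
      · exact lt_of_le_of_lt (le_max_left b c) (hB1 _)
      · exact lt_of_lt_of_le (hmem 0) (hδ.1 ⟨0, rfl⟩)
    obtain ⟨g, δ, hg, hδ, hfδ, hmem⟩ := exists_point hseg hcard (κ := PUnit.{u + 1})
      (by simpa using one_le_aleph0.trans (aleph0_le_aleph 1)) (fun _ => Ioi a)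
      (fun _ => huniv a) B
    refine ⟨δ, fun c hc p hp => ?_, hmem PUnit.unit⟩
    obtain ⟨n, hn⟩ : ∃ n, c < g n := by
      by_contra hno
      push Not at hno
      exact absurd (hδ.2 (by rintro _ ⟨n, rfl⟩; exact hno n)) (not_le.2 hc)
    exact (hB2 (g n) p (hp.trans hn)).trans (hfδ n)
  · intro c hc p hp
    obtain ⟨n, hn⟩ : ∃ n, c < g n := by
      by_contra hno
      push Not at hno
      exact absurd (hδ.2 (by rintro _ ⟨n, rfl⟩; exact hno n)) (not_le.2 hc)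
    exact lt_of_lt_of_le (hmem n c hn p hp) (hδ.1 ⟨n, rfl⟩)

/-- Diamond for a filtered type: `P` is filtered by the sets `{p | r p < a}`, each of cardinality
at most `ℵ₁`. -/
theorem exists_diamond_filtered [WellFoundedLT Ω] (hseg : ∀ a : Ω, #(Iio a) ≤ ℵ₁)
    (hcard : #Ω = ℵ_ 2) (h2 : (2 : Cardinal.{u}) ^ (ℵ₁ : Cardinal.{u}) = ℵ_ 2)
    {P : Type u} (r : P → Ω) (hr : ∀ a, #{p | r p < a} ≤ ℵ₁) :
    ∃ A : Ω → Set P, ∀ (X : Set P) (C : Set Ω), OmegaClub C →
      ∃ δ ∈ C, OmegaLim δ ∧ ∀ p, r p < δ → (p ∈ A δ ↔ p ∈ X) := by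
  obtain ⟨A₀, hA₀⟩ := exists_diamond hseg hcard h2
  have hP : #P ≤ #Ω := by
    rw [← mk_univ]
    have hcov : (univ : Set P) ⊆ ⋃ a : Ω, {p | r p < a} := by
      intro p _
      obtain ⟨b, hb⟩ := exists_bound hseg hcard (κ := PUnit.{u + 1})
        (by simpa using one_le_aleph0.trans (aleph0_le_aleph 1)) (fun _ => r p)
      exact mem_iUnion.2 ⟨b, hb PUnit.unit⟩
    refine (mk_le_mk_of_subset hcov).trans ((mk_iUnion_le _).trans ?_)
    refine (mul_le_mul' le_rfl (ciSup_le' fun a => (hr a).trans ?_)).trans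
      (mul_eq_self (by rw [hcard]; exact aleph0_le_aleph 2)).le
    rw [hcard, aleph_le_aleph]
    norm_num
  obtain ⟨e⟩ := hP
  have hclub1 := omegaClub_closure hseg hcard r e hr
  have hclub2 := omegaClub_closure hseg hcard e r (fun a => by
    refine le_trans ?_ (hseg a)
    refine mk_le_of_injective (f := fun p : {p | e p < a} => (⟨e p.1, p.2⟩ : Iio a)) ?_
    intro p q hpq
    exact Subtype.ext (e.injective (congrArg Subtype.val hpq)))
  refine ⟨fun δ => {p | e p ∈ A₀ δ}, fun X C hC => ?_⟩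
  obtain ⟨δ, hδ, hlim, heq⟩ := hA₀ (e '' X) (C ∩
    ({δ | ∀ a < δ, ∀ p, r p < a → e p < δ} ∩ {δ | ∀ a < δ, ∀ p, e p < a → r p < δ}))
    (hC.inter hseg hcard (hclub1.inter hseg hcard hclub2))
  refine ⟨δ, hδ.1, hlim, fun p hp => ?_⟩
  obtain ⟨g, hg, hgδ⟩ := hlim
  obtain ⟨n, hn⟩ : ∃ n, r p < g n := by
    by_contra hno
    push Not at hno
    exact absurd (hgδ.2 (by rintro _ ⟨n, rfl⟩; exact hno n)) (not_le.2 hp)
  have hgn : g n < δ := lt_of_lt_of_le (hg (Nat.lt_succ_self n)) (hgδ.1 ⟨n + 1, rfl⟩)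
  have hep : e p < δ := hδ.2.1 (g n) hgn p hn
  change e p ∈ A₀ δ ↔ p ∈ X
  rw [← heq]
  constructor
  · rintro ⟨⟨q, hq, hqp⟩, -⟩
    rwa [e.injective hqp] at hq
  · intro hpX
    exact ⟨⟨p, hpX, rfl⟩, hep⟩

end Club

section Ordinals

open Ordinal

theorem hcard_Iio : #(Iio (ω_ 2 : Ordinal.{u})) = ℵ_ 2 := by
  rw [Cardinal.mk_Iio_ordinal, card_omega, lift_aleph]
  simp

theorem hseg_Iio (a : Iio (ω_ 2 : Ordinal.{u})) : #(Iio a) ≤ ℵ₁ := by
  have h1 : #(Iio a) ≤ #(Iio a.1) := by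
    refine mk_le_of_injective (f := fun x : Iio a => (⟨x.1.1, x.2⟩ : Iio a.1)) ?_
    intro x y hxy
    have h : x.1.1 = y.1.1 := congrArg (fun z : Iio a.1 => z.1) hxy
    exact Subtype.ext (Subtype.ext h)
  refine h1.trans ?_
  rw [Cardinal.mk_Iio_ordinal]
  have h2 : a.1.card < ℵ_ 2 := by
    rw [← lt_ord, ord_aleph]
    exact a.2
  have h3 : a.1.card ≤ ℵ_ 1 := by
    have : (ℵ_ 2 : Cardinal.{u}) = Order.succ (ℵ_ 1) := by
      rw [succ_aleph]; congr 1; norm_num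
    rw [this, Order.lt_succ_iff] at h2
    exact h2
  calc Cardinal.lift.{u + 1} a.1.card ≤ Cardinal.lift.{u + 1} (ℵ_ 1) := lift_le.2 h3
    _ = ℵ₁ := by simp

theorem lift_hyp (h2 : (2 : Cardinal.{u}) ^ (ℵ₁ : Cardinal.{u}) = ℵ_ 2) :
    (2 : Cardinal.{u + 1}) ^ (ℵ₁ : Cardinal.{u + 1}) = ℵ_ 2 := by
  have := congrArg Cardinal.lift.{u + 1} h2
  simpa using this

theorem exists_diamond_ordinal (h2 : (2 : Cardinal.{u}) ^ (ℵ₁ : Cardinal.{u}) = ℵ_ 2) :
    ∃ A : Ordinal.{u} → Set Ordinal.{u}, ∀ X C : Set Ordinal.{u},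
      (∀ a < ω_ 2, ∃ b ∈ C, a < b ∧ b < ω_ 2) →
      (∀ g : ℕ → Ordinal.{u}, StrictMono g → (∀ n, g n ∈ C) → (∀ n, g n < ω_ 2) →
        ∀ δ, IsLUB (range g) δ → δ ∈ C) →
      ∃ δ ∈ C, δ < ω_ 2 ∧ (∃ g : ℕ → Ordinal.{u}, StrictMono g ∧ IsLUB (range g) δ) ∧
        X ∩ Iio δ = A δ := by
  classical
  obtain ⟨A, hA⟩ := exists_diamond hseg_Iio hcard_Iio (lift_hyp h2)
  refine ⟨fun δ => {x | ∃ (hδ : δ < ω_ 2) (hx : x < ω_ 2), (⟨x, hx⟩ : Iio (ω_ 2 : Ordinal.{u})) ∈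
    A ⟨δ, hδ⟩}, fun X C hC1 hC2 => ?_⟩
  have hlub : ∀ (g : ℕ → Iio (ω_ 2 : Ordinal.{u})) (δ : Iio (ω_ 2 : Ordinal.{u})),
      IsLUB (range g) δ → IsLUB (range fun n => (g n).1) δ.1 := by
    intro g δ hδ
    constructor
    · rintro _ ⟨n, rfl⟩
      exact hδ.1 ⟨n, rfl⟩
    · intro x hx
      by_contra hlt
      rw [not_le] at hlt
      have hx2 : x < ω_ 2 := hlt.trans δ.2
      have : δ ≤ ⟨x, hx2⟩ := hδ.2 (by rintro _ ⟨n, rfl⟩; exact hx ⟨n, rfl⟩)
      exact absurd hlt (not_lt.2 this)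
  obtain ⟨δ, hδC, ⟨g, hg, hgδ⟩, hδ⟩ := hA {x | x.1 ∈ X} {x | x.1 ∈ C} (by
    refine ⟨fun a => ?_, fun g hg hmem δ hδ => ?_⟩
    · obtain ⟨b, hb, hab, hb2⟩ := hC1 a.1 a.2
      exact ⟨⟨b, hb2⟩, hb, hab⟩
    · exact hC2 (fun n => (g n).1) (fun m n h => hg h) hmem (fun n => (g n).2) δ.1 (hlub g δ hδ))
  refine ⟨δ.1, hδC, δ.2, ⟨fun n => (g n).1, fun m n h => hg h, hlub g δ hgδ⟩, ?_⟩
  ext x
  constructor
  · rintro ⟨hx1, hx2⟩
    have hx3 : x < ω_ 2 := lt_trans hx2 δ.2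
    refine ⟨δ.2, hx3, ?_⟩
    change (⟨x, hx3⟩ : Iio (ω_ 2 : Ordinal.{u})) ∈ A δ
    rw [← hδ]
    exact ⟨hx1, hx2⟩
  · rintro ⟨h1, h2, h3⟩
    change (⟨x, h2⟩ : Iio (ω_ 2 : Ordinal.{u})) ∈ A δ at h3
    rw [← hδ] at h3
    exact ⟨h3.1, h3.2⟩

end Ordinals

end Pool.Agent.UnivA
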