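import Pool.Agent.UnivA.Core
import Pool.Agent.UnivA.Diamond
import Pool.Agent.UnivA.CaseDia

/-!
# The case `𝔡 = ℵ₁ < 2 ^ ℵ₀`

Given the rank two club guessing, a dominating family of size `ℵ₁` and the failure of the
continuum hypothesis, no narrow `ℵ₂`-Aronszajn tree is universal.  The extra nodes of level `δ`
are branches `v_A` of a Cantor scheme of patterns, `A : ℕ → Bool`, from whose images the sequence
`A` can be decoded; a sequence `A` which is not decoded from any node of level `δ` of the given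
tree is used.
-/

open Cardinal Set

namespace Pool.Agent.UnivA

universe u

variable {K T : Type u} [LinearOrder K]

/-- A rank two ladder at `δ`. -/
structure Lad (δ : K) (al : ℕ → K) (be : ℕ → ℕ → K) : Prop where
  mono : StrictMono al
  lt : ∀ n, al n < δ
  cof : ∀ b < δ, ∃ n, b < al n
  bmono : ∀ n, StrictMono (be n)
  lb : ∀ n k, al n < be n k
  ub : ∀ n k, be n k < al (n + 1)

/-- The block of a level. -/
noncomputable def bn (al : ℕ → K) (x : K) : ℕ :=
  open Classical in if h : ∃ n, x < al n then Nat.find h else 0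

/-- The piece of a level inside a block. -/
noncomputable def rn (be : ℕ → K) (L : ℕ) (x : K) : ℕ :=
  open Classical in if h : ∃ r, x < be r then Nat.find h else L

/-- The index of the node which is followed. -/
noncomputable def ent (al : ℕ → K) (be : ℕ → ℕ → K) (j0 : Idx.{u}) (c : ℕ → List Idx.{u})
    (x : K) : Idx.{u} :=
  match bn al x with
  | 0 => j0
  | n + 1 => (c n).getD (rn (be n) (c n).length x) j0

/-- The sequence with code `c`. -/
noncomputable def vv (D : TD K T) (t0 : T) (τ : K → Idx.{u} → T) (δ : K) (al : ℕ → K)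
    (be : ℕ → ℕ → K) (j0 : Idx.{u}) (c : ℕ → List Idx.{u}) : K → T :=
  open Classical in
    fun x => if x < δ then D.res (τ (al (bn al x)) (ent al be j0 c x)) x else t0

theorem bn_zero {al : ℕ → K} {x : K} (h : x < al 0) : bn al x = 0 := by
  classical
  have hex : ∃ n, x < al n := ⟨0, h⟩
  unfold bn
  rw [dif_pos hex]
  exact (Nat.find_eq_zero hex).2 h

theorem bn_succ {al : ℕ → K} (hal : StrictMono al) {x : K} {n : ℕ} (h1 : al n ≤ x)
    (h2 : x < al (n + 1)) : bn al x = n + 1 := by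
  classical
  have hex : ∃ n, x < al n := ⟨n + 1, h2⟩
  unfold bn
  rw [dif_pos hex, Nat.find_eq_iff]
  refine ⟨h2, fun m hm h => ?_⟩
  have : al m ≤ al n := hal.monotone (by omega)
  exact absurd (h.trans_le this) (not_lt.2 h1)

theorem rn_zero {be : ℕ → K} {L : ℕ} {x : K} (h : x < be 0) : rn be L x = 0 := by
  classical
  have hex : ∃ n, x < be n := ⟨0, h⟩
  unfold rn
  rw [dif_pos hex]
  exact (Nat.find_eq_zero hex).2 h

theorem rn_succ {be : ℕ → K} {L : ℕ} (hbe : StrictMono be) {x : K} {n : ℕ} (h1 : be n ≤ x)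
    (h2 : x < be (n + 1)) : rn be L x = n + 1 := by
  classical
  have hex : ∃ n, x < be n := ⟨n + 1, h2⟩
  unfold rn
  rw [dif_pos hex, Nat.find_eq_iff]
  refine ⟨h2, fun m hm h => ?_⟩
  have : be m ≤ be n := hbe.monotone (by omega)
  exact absurd (h.trans_le this) (not_lt.2 h1)

theorem rn_ge {be : ℕ → K} {L : ℕ} (hbe : StrictMono be) {x : K} (h1 : be L ≤ x) :
    L ≤ rn be L x := by
  classical
  unfold rn
  by_cases hex : ∃ n, x < be n
  · rw [dif_pos hex, Nat.le_find_iff]
    intro m hm h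
    have : be m ≤ be L := hbe.monotone hm.le
    exact absurd (h.trans_le this) (not_lt.2 h1)
  · rw [dif_neg hex]

section Seq

variable {D : TD K T} {t0 : T} {τ : K → Idx.{u} → T} {δ : K} {al : ℕ → K}
    {be : ℕ → ℕ → K} {j0 : Idx.{u}} {c : ℕ → List Idx.{u}}

theorem vv_ge {x : K} (h : δ ≤ x) : vv D t0 τ δ al be j0 c x = t0 := by
  unfold vv
  rw [if_neg (not_lt.2 h)]

theorem vv_first (hL : Lad δ al be) {x : K} (h : x < al 0) :
    vv D t0 τ δ al be j0 c x = D.res (τ (al 0) j0) x := by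
  unfold vv ent
  rw [if_pos (h.trans (hL.lt 0)), bn_zero h]

theorem vv_blk (hL : Lad δ al be) {x : K} {n : ℕ} (h1 : al n ≤ x) (h2 : x < al (n + 1)) :
    vv D t0 τ δ al be j0 c x =
      D.res (τ (al (n + 1)) ((c n).getD (rn (be n) (c n).length x) j0)) x := by
  unfold vv ent
  rw [if_pos (h2.trans (hL.lt (n + 1))), bn_succ hL.mono h1 h2]

theorem vv_rk (hτ : ∀ a j, D.rk (τ a j) = a) (hL : Lad δ al be) {x : K} (h : x < δ) :
    D.rk (vv D t0 τ δ al be j0 c x) = x := by
  classical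
  have hex : ∃ n, x < al n := hL.cof x h
  unfold vv
  rw [if_pos h]
  apply D.rk_res
  rw [hτ]
  unfold bn
  rw [dif_pos hex]
  exact (Nat.find_spec hex).le

/-- On a final segment below each limit `c' < δ` the sequence follows one node. -/
theorem vv_lim (hτ : ∀ a j, D.rk (τ a j) = a) (hL : Lad δ al be) {c' : K} (hc' : c' < δ)
    (hlim : ∃ b, b < c') :
    ∃ b, b < c' ∧ ∃ t, D.rk t = c' ∧ ∀ x, b < x → x < c' →
      vv D t0 τ δ al be j0 c x = D.res t x := by
  classical
  have hex : ∃ n, c' ≤ al n := by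
    obtain ⟨n, hn⟩ := hL.cof c' hc'
    exact ⟨n, hn.le⟩
  obtain ⟨n', hn', hmin⟩ : ∃ n, c' ≤ al n ∧ ∀ m < n, ¬ c' ≤ al m :=
    ⟨Nat.find hex, Nat.find_spec hex, fun m hm => Nat.find_min hex hm⟩
  cases n' with
  | zero =>
    obtain ⟨b, hb⟩ := hlim
    refine ⟨b, hb, D.res (τ (al 0) j0) c', D.rk_res _ _ (by rw [hτ]; exact hn'),
      fun x _ hx => ?_⟩
    rw [vv_first hL (hx.trans_le hn'), D.res_res _ _ _ hx.le (by rw [hτ]; exact hn')]
  | succ n =>
    have hn : al n < c' := not_le.1 (hmin n (Nat.lt_succ_self n))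
    have key : ∀ (b : K) (j : Idx.{u}), al n ≤ b → b < c' →
        (∀ x, b < x → x < c' → (c n).getD (rn (be n) (c n).length x) j0 = j) →
        ∃ b, b < c' ∧ ∃ t, D.rk t = c' ∧ ∀ x, b < x → x < c' →
          vv D t0 τ δ al be j0 c x = D.res t x := by
      intro b j hnb hb hj
      refine ⟨b, hb, D.res (τ (al (n + 1)) j) c', D.rk_res _ _ (by rw [hτ]; exact hn'),
        fun x h1 h2 => ?_⟩
      rw [vv_blk hL (hnb.trans h1.le) (h2.trans_le hn'), hj x h1 h2,
        D.res_res _ _ _ h2.le (by rw [hτ]; exact hn')]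
    by_cases hr : ∃ r, c' ≤ be n r
    · obtain ⟨r', hr', hrmin⟩ : ∃ r, c' ≤ be n r ∧ ∀ m < r, ¬ c' ≤ be n m :=
        ⟨Nat.find hr, Nat.find_spec hr, fun m hm => Nat.find_min hr hm⟩
      cases r' with
      | zero =>
        refine key (al n) ((c n).getD 0 j0) le_rfl hn (fun x h1 h2 => ?_)
        rw [rn_zero (h2.trans_le hr')]
      | succ r =>
        have hrr : be n r < c' := not_le.1 (hrmin r (Nat.lt_succ_self r))
        refine key (be n r) ((c n).getD (r + 1) j0) (hL.lb n r).le hrr (fun x h1 h2 => ?_)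
        rw [rn_succ (hL.bmono n) h1.le (h2.trans_le hr')]
    · push Not at hr
      refine key (be n (c n).length) j0 (hL.lb n _).le (hr _) (fun x h1 h2 => ?_)
      exact List.getD_eq_default _ _ (rn_ge (hL.bmono n) h1.le)

theorem vv_pat (hτ : ∀ a j, D.rk (τ a j) = a) (hL : Lad δ al be) {a : K} (ha : a < δ) :
    Pat D IsLim t0 a (trunc t0 a (vv D t0 τ δ al be j0 c)) := by
  refine ⟨fun x hx => trunc_ge t0 _ hx, fun x hx => ?_, fun c' hc' hlim => ?_⟩
  · rw [trunc_lt t0 _ hx]
    exact vv_rk hτ hL (hx.trans ha)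
  · obtain ⟨b, hb, t, ht, hx⟩ := vv_lim (D := D) (t0 := t0) (τ := τ) (j0 := j0) (c := c)
      hτ hL (hc'.trans_lt ha) hlim.1
    refine ⟨b, hb, t, ht, fun x h1 h2 => ?_⟩
    rw [trunc_lt t0 _ (h2.trans_le hc')]
    exact hx x h1 h2

/-- Truncations depend on an initial part of the code only. -/
theorem vv_trunc_congr (hL : Lad δ al be) {c c₂ : ℕ → List Idx.{u}} {n : ℕ}
    (h : ∀ l < n, c l = c₂ l) :
    trunc t0 (al n) (vv D t0 τ δ al be j0 c) = trunc t0 (al n) (vv D t0 τ δ al be j0 c₂) := by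
  classical
  funext x
  by_cases hx : x < al n
  · rw [trunc_lt t0 _ hx, trunc_lt t0 _ hx]
    by_cases h0 : x < al 0
    · rw [vv_first hL h0, vv_first hL h0]
    · have hex : ∃ m, x < al m := ⟨n, hx⟩
      obtain ⟨m, hm, hmin⟩ : ∃ m, x < al m ∧ ∀ k < m, ¬ x < al k :=
        ⟨Nat.find hex, Nat.find_spec hex, fun m hm => Nat.find_min hex hm⟩
      cases m with
      | zero => exact absurd hm h0
      | succ m =>
        have h1 : al m ≤ x := not_lt.1 (hmin m (Nat.lt_succ_self m))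
        have h2 : m < n := by
          by_contra hmn
          exact absurd (hx.trans_le (hL.mono.monotone (not_lt.1 hmn))) (not_lt.2 h1)
        rw [vv_blk hL h1 hm, vv_blk hL h1 hm, h m h2]
  · rw [trunc_ge t0 _ (not_lt.1 hx), trunc_ge t0 _ (not_lt.1 hx)]

/-- The sequence follows each of the nodes of its code. -/
theorem vv_follows (hL : Lad δ al be) {n r : ℕ} {y : T}
    (hy : al (n + 1) ≤ D.rk y) (hr : r < (c n).length)
    (h : D.res y (al (n + 1)) = τ (al (n + 1)) ((c n).getD r j0)) :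
    ∃ b, b < be n r ∧ Follows D (vv D t0 τ δ al be j0 c) y b (be n r) := by
  have key : ∀ x, al n ≤ x → x < be n r → rn (be n) (c n).length x = r →
      vv D t0 τ δ al be j0 c x = D.res y x := by
    intro x h1 h2 h3
    have h4 : x < al (n + 1) := h2.trans (hL.ub n r)
    rw [vv_blk hL h1 h4, h3, ← h, D.res_res _ _ _ h4.le hy]
  cases r with
  | zero => exact ⟨al n, hL.lb n 0, fun x h1 h2 => key x h1 h2 (rn_zero h2)⟩
  | succ r =>
    exact ⟨be n r, hL.bmono n (Nat.lt_succ_self r), fun x h1 h2 =>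
      key x ((hL.lb n r).le.trans h1) h2 (rn_succ (hL.bmono n) h1 h2)⟩

end Seq

section Codes

/-- The block code: for `true` try all the candidates, for `false` do nothing. -/
def blkc (g : ℕ → ℕ) (b : Bool) (q : List (List ℕ)) : List ℕ :=
  if b then List.range (g (Encodable.encode (q ++ [[]])) + 1) else []

/-- The initial codes of the branch `A` of the Cantor scheme. -/
def qq (g : ℕ → ℕ) (A : ℕ → Bool) : ℕ → List (List ℕ)
  | 0 => []
  | n + 1 => qq g A n ++ [blkc g (A n) (qq g A n)]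

theorem qq_length (g : ℕ → ℕ) (A : ℕ → Bool) (n : ℕ) : (qq g A n).length = n := by
  induction n with
  | zero => rfl
  | succ n ih => simp [qq, ih]

theorem qq_getD (g : ℕ → ℕ) (A : ℕ → Bool) (n l : ℕ) (h : l < n) :
    (qq g A n).getD l [] = blkc g (A l) (qq g A l) := by
  induction n with
  | zero => omega
  | succ n ih =>
    have hlen := qq_length g A n
    rcases Nat.lt_succ_iff_lt_or_eq.1 h with h' | h'
    · rw [← ih h', qq, List.getD_append _ _ _ _ (by rw [hlen]; exact h')]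
    · subst h'
      rw [qq, List.getD_append_right _ _ _ _ (by rw [hlen]), hlen]
      simp

/-- The code of the branch `A`. -/
def cc (dd : ℕ → Idx.{u}) (g : ℕ → ℕ) (A : ℕ → Bool) (n : ℕ) : List Idx.{u} :=
  (blkc g (A n) (qq g A n)).map dd

/-- The code of a finite code. -/
def cq (dd : ℕ → Idx.{u}) (q : List (List ℕ)) (l : ℕ) : List Idx.{u} := (q.getD l []).map dd

theorem cq_qq (dd : ℕ → Idx.{u}) (g : ℕ → ℕ) (A : ℕ → Bool) (n l : ℕ) (h : l < n) :
    cq dd (qq g A n) l = cc dd g A l := by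
  unfold cq cc
  rw [qq_getD g A n l h]

/-- `A` is decoded from `y`. -/
def Compat (D : TD K T) (τ : K → Idx.{u} → T) (al : ℕ → K) (dd : ℕ → Idx.{u}) (g : ℕ → ℕ)
    (A : ℕ → Bool) (y : T) : Prop :=
  ∀ n, A n = false ↔ ∃ k ≤ g (Encodable.encode (qq g A n ++ [[]])),
    D.res y (al (n + 1)) = τ (al (n + 1)) (dd k)

theorem Compat.unique {D : TD K T} {τ : K → Idx.{u} → T} {al : ℕ → K} {dd : ℕ → Idx.{u}}
    {g : ℕ → ℕ} {A B : ℕ → Bool} {y : T} (hA : Compat D τ al dd g A y)
    (hB : Compat D τ al dd g B y) : A = B := by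
  have h1 : ∀ n, qq g A n = qq g B n := by
    intro n
    induction n with
    | zero => rfl
    | succ n ih =>
      have h2 := hA n
      rw [ih, ← hB n] at h2
      have h3 : A n = B n := by
        cases hx : A n <;> cases hx' : B n <;> simp_all
      rw [qq, qq, ih, h3]
  funext n
  have h2 := hA n
  rw [h1 n, ← hB n] at h2
  cases hx : A n <;> cases hx' : B n <;> simp_all

theorem exists_not_compat (D : TD K T) (τ : K → Idx.{u} → T) (al : ℕ → K) (dd : ℕ → Idx.{u})
    (g : ℕ → ℕ) (δ : K) (h : #{t : T // D.rk t = δ} < continuum.{u}) :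
    ∃ A : ℕ → Bool, ∀ y, D.rk y = δ → ¬ Compat D τ al dd g A y := by
  by_contra hcon
  push Not at hcon
  choose y hy hcomp using hcon
  have hinj : Function.Injective (fun A => (⟨y A, hy A⟩ : {t : T // D.rk t = δ})) := by
    intro A B hAB
    have h1 : y A = y B := congrArg Subtype.val hAB
    have h2 := hcomp B
    rw [← h1] at h2
    exact (hcomp A).unique h2
  have hcardle := lift_mk_le_lift_mk_of_injective hinj
  have hcont : Cardinal.lift.{u} #(ℕ → Bool) = continuum.{u} := by simp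
  rw [hcont, Cardinal.lift_uzero] at hcardle
  exact absurd h (not_lt.2 hcardle)

/-- Closure points of a function on codes. -/
theorem exists_closed (F : List (List Idx.{u}) → Idx.{u}) (j0 : Idx.{u}) :
    ∃ i, j0 < i ∧ ∀ q, (∀ l ∈ q, ∀ j ∈ l, j < i) → F q < i := by
  classical
  have hstep : ∀ i : Idx.{u}, ∃ i', i < i' ∧ ∀ q, (∀ l ∈ q, ∀ j ∈ l, j < i) → F q < i' := by
    intro i
    have hc : Countable (Iio i) := (countable_Iio_Idx i).to_subtype
    have hc2 : ({q | ∀ l ∈ q, ∀ j ∈ l, j < i} : Set (List (List Idx.{u}))).Countable := by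
      refine (countable_range (fun q : List (List (Iio i)) =>
        q.map (List.map Subtype.val))).mono ?_
      intro q hq
      refine ⟨q.attach.map (fun l => l.1.attach.map (fun j => ⟨j.1, hq l.1 l.2 j.1 j.2⟩)), ?_⟩
      simp [Function.comp_def]
    have hc3 : ((fun q => F q) '' ({q | ∀ l ∈ q, ∀ j ∈ l, j < i}) ∪ {i}).Countable :=
      (hc2.image _).union (countable_singleton _)
    obtain ⟨s, hs⟩ := hc3.exists_eq_range ⟨i, Or.inr rfl⟩
    obtain ⟨i', hi'⟩ := exists_bound_Idx s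
    have hall : ∀ z ∈ ((fun q => F q) '' ({q | ∀ l ∈ q, ∀ j ∈ l, j < i}) ∪ {i}), z < i' := by
      intro z hz
      rw [hs] at hz
      obtain ⟨n, rfl⟩ := hz
      exact hi' n
    exact ⟨i', hall i (Or.inr rfl), fun q hq => hall _ (Or.inl ⟨q, hq, rfl⟩)⟩
  choose B hB1 hB2 using hstep
  let s : ℕ → Idx.{u} := fun n => Nat.rec j0 (fun _ a => B a) n
  have hs : ∀ n, s (n + 1) = B (s n) := fun n => rfl
  have hmono : StrictMono s := strictMono_nat_of_lt_succ fun n => by rw [hs]; exact hB1 _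
  have hne : {i | ∀ n, s n < i}.Nonempty := exists_bound_Idx s
  let i := WellFounded.min (wellFounded_lt (α := Idx.{u})) _ hne
  have hi : ∀ n, s n < i := WellFounded.min_mem (wellFounded_lt (α := Idx.{u})) _ hne
  have hmin : ∀ j < i, ∃ n, j < s n := by
    intro j hj
    by_contra hno
    push Not at hno
    have hjm : j ∈ {i | ∀ n, s n < i} := fun n =>
      (hmono (Nat.lt_succ_self n)).trans_le (hno (n + 1))
    exact WellFounded.not_lt_min (wellFounded_lt (α := Idx.{u})) _ hjm hj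
  have hlist : ∀ l : List Idx.{u}, (∀ j ∈ l, j < i) → ∃ n, ∀ j ∈ l, j < s n := by
    intro l
    induction l with
    | nil => intro _; exact ⟨0, by simp⟩
    | cons a l ih =>
      intro h
      obtain ⟨n, hn⟩ := ih (fun j hj => h j (List.mem_cons_of_mem _ hj))
      obtain ⟨m, hm⟩ := hmin a (h a List.mem_cons_self)
      refine ⟨max n m, fun j hj => ?_⟩
      rcases List.mem_cons.1 hj with rfl | hj
      · exact hm.trans_le (hmono.monotone (le_max_right _ _))
      · exact (hn j hj).trans_le (hmono.monotone (le_max_left _ _))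
  have hlist2 : ∀ q : List (List Idx.{u}), (∀ l ∈ q, ∀ j ∈ l, j < i) →
      ∃ n, ∀ l ∈ q, ∀ j ∈ l, j < s n := by
    intro q
    induction q with
    | nil => intro _; exact ⟨0, by simp⟩
    | cons a q ih =>
      intro h
      obtain ⟨n, hn⟩ := ih (fun l hl => h l (List.mem_cons_of_mem _ hl))
      obtain ⟨m, hm⟩ := hlist a (h a List.mem_cons_self)
      refine ⟨max n m, fun l hl j hj => ?_⟩
      rcases List.mem_cons.1 hl with rfl | hl
      · exact (hm j hj).trans_le (hmono.monotone (le_max_right _ _))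
      · exact (hn l hl j hj).trans_le (hmono.monotone (le_max_left _ _))
  refine ⟨i, hi 0, fun q hq => ?_⟩
  obtain ⟨n, hn⟩ := hlist2 q hq
  exact (hB2 (s n) q hn).trans (hi (n + 1))

end Codes

section Main

theorem exists_enumT {D : TD K T} (hD : D.Nar ℵ₁) :
    ∃ τ : K → Idx.{u} → T, (∀ a j, D.rk (τ a j) = a) ∧ ∀ t a, D.rk t = a → ∃ j, τ a j = t := by
  have h : ∀ a, ∃ e : Idx.{u} → {t : T // D.rk t = a}, Function.Surjective e := by
    intro a
    obtain ⟨t, ht⟩ := hD.full a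
    have hle : #{t : T // D.rk t = a} ≤ #(Idx.{u}) := by rw [mk_Idx]; exact hD.narrow a
    obtain ⟨e⟩ := hle
    have : Nonempty {t : T // D.rk t = a} := ⟨⟨t, ht⟩⟩
    exact ⟨Function.invFun e, Function.invFun_surjective e.injective⟩
  choose e he using h
  refine ⟨fun a j => (e a j).1, fun a j => (e a j).2, fun t a hta => ?_⟩
  obtain ⟨j, hj⟩ := he a ⟨t, hta⟩
  exact ⟨j, congrArg Subtype.val hj⟩

theorem exists_enumIdx : ∃ dd : Idx.{u} → ℕ → Idx.{u}, ∀ i, (∃ j, j < i) →
    (∀ k, dd i k < i) ∧ ∀ j < i, ∃ k, dd i k = j := by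
  have h : ∀ i : Idx.{u}, ∃ d : ℕ → Idx.{u}, (∃ j, j < i) →
      (∀ k, d k < i) ∧ ∀ j < i, ∃ k, d k = j := by
    intro i
    by_cases hi : ∃ j, j < i
    · obtain ⟨s, hs⟩ := (countable_Iio_Idx i).exists_eq_range hi
      refine ⟨s, fun _ => ⟨fun k => ?_, fun j hj => ?_⟩⟩
      · have : s k ∈ Iio i := by rw [hs]; exact ⟨k, rfl⟩
        exact this
      · have : j ∈ Iio i := hj
        rw [hs] at this
        exact this
    · exact ⟨fun _ => i, fun h => absurd h hi⟩
  choose dd hdd using h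
  exact ⟨dd, hdd⟩

/-- The case `𝔡 = ℵ₁ < 2 ^ ℵ₀`. -/
theorem case_bdd [WellFoundedLT K] (hK : IdxOK K ℵ₁) (hC : CtlOK ℵ₁ (IsLim : K → Prop))
    (D : TD K T) (hD : D.Nar ℵ₁)
    (hG : ∃ (De : Set K) (al : K → ℕ → ℕ → K) (be : K → ℕ → ℕ → ℕ → K),
      (∀ d ∈ De, ∀ N, Lad d (al d N) (be d N)) ∧
      ∀ φ : K → K, ∃ d ∈ De, ∃ N, ∀ n k, ∀ b < be d N n k, φ b < be d N n k)
    (hY : ∃ Y : Set (ℕ → ℕ), #Y ≤ ℵ₁ ∧ ∀ g : ℕ → ℕ, ∃ y ∈ Y, ∀ n, g n ≤ y n)
    (hch : (ℵ₁ : Cardinal.{u}) < continuum.{u}) :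
    ∃ (S : Type u) (E : TD K S), E.Nar ℵ₁ ∧
      (∀ a0, (∀ b, a0 ≤ b) → ∀ p q, E.res p a0 = E.res q a0) ∧ ∀ f, ¬ E.Mor D f := by
  classical
  obtain ⟨De, al, be, hLad, hguess⟩ := hG
  obtain ⟨Y, hYc, hYd⟩ := hY
  obtain ⟨τ, hτ, hτs⟩ := exists_enumT hD
  obtain ⟨dd, hdd⟩ := exists_enumIdx.{u}
  obtain ⟨a₀⟩ := hK.ne
  obtain ⟨t0, -⟩ := hD.full a₀
  obtain ⟨j0⟩ : Nonempty Idx.{u} := by
    rw [← mk_ne_zero_iff, mk_Idx]; exact (aleph_pos 1).ne'
  choose AA hAA using fun (δ : K) (N : ℕ) (i : Idx.{u}) (g : ℕ → ℕ) =>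
    exists_not_compat D τ (al δ N) (dd i) g δ ((hD.narrow δ).trans_lt hch)
  -- the extra nodes
  let G : K → (ULift.{u} ℕ × Idx.{u} × ULift.{u} Y) → (K → T) := fun δ z =>
    vv D t0 τ δ (al δ z.1.down) (be δ z.1.down) j0
      (cc (dd z.2.1) z.2.2.down.1 (AA δ z.1.down z.2.1 z.2.2.down.1))
  let X : K → Set (K → T) := fun δ => {v | δ ∈ De ∧ v ∈ range (G δ)}
  have hX : ExtOK D IsLim t0 ℵ₁ X := by
    refine ⟨fun m v hv x hx => ?_, fun m v hv a ha => ?_, fun m => ?_⟩
    · obtain ⟨-, z, rfl⟩ := hv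
      exact vv_ge hx
    · obtain ⟨hm, z, rfl⟩ := hv
      exact vv_pat hτ (hLad m hm _) ha
    · refine (mk_le_mk_of_subset (t := range (G m)) fun v hv => hv.2).trans
        (mk_range_le.trans ?_)
      rw [mk_prod, mk_prod]
      have h1 : Cardinal.lift.{u} #(ULift.{u} ℕ) ≤ ℵ₁ := by simp
      have h2 : Cardinal.lift.{u} #(ULift.{u} Y) ≤ ℵ₁ := by
        have := lift_le.{u}.2 hYc
        simpa using this
      have h3 : Cardinal.lift.{u} #(Idx.{u}) ≤ ℵ₁ := by rw [mk_Idx]; simp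
      simp only [Cardinal.lift_id] at h1 h2 h3 ⊢
      refine (mul_le_mul' h1 (mul_le_mul' h3 h2)).trans ?_
      rw [mul_eq_self (aleph0_le_aleph 1), mul_eq_self (aleph0_le_aleph 1)]
  refine ⟨_, VD D IsLim t0 X hX, VD_nar hK hD hC hX, VD_root hX, fun f hf => ?_⟩
  obtain ⟨φ, hφ⟩ := key hK hD hC hX f hf
  obtain ⟨δ, hδ, N, hcl⟩ := hguess φ
  have hL := hLad δ hδ N
  -- nodes of finite codes
  let nd : (ℕ → List Idx.{u}) → ℕ → V D IsLim t0 X := fun c n =>
    ⟨(al δ N n, trunc t0 (al δ N n) (vv D t0 τ δ (al δ N) (be δ N) j0 c)),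
      Or.inl (vv_pat hτ hL (hL.lt n))⟩
  have hF : ∀ q : List (List Idx.{u}), ∃ j,
      τ (al δ N q.length) j = f (nd (fun l => q.getD l []) q.length) := by
    intro q
    refine hτs _ _ ?_
    exact hf.rk _
  choose F hF using hF
  obtain ⟨i, hi0, hi⟩ := exists_closed F j0
  obtain ⟨hdd1, hdd2⟩ := hdd i ⟨j0, hi0⟩
  -- the function to be dominated
  have hh : ∀ q : List (List ℕ), ∃ k,
      f (nd (cq (dd i) q) q.length) = τ (al δ N q.length) (dd i k) := by
    intro q
    have h1 : F (q.map (List.map (dd i))) < i := by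
      apply hi
      intro l hl j hj
      obtain ⟨l', -, rfl⟩ := List.mem_map.1 hl
      obtain ⟨k, -, rfl⟩ := List.mem_map.1 hj
      exact hdd1 k
    obtain ⟨k, hk⟩ := hdd2 _ h1
    refine ⟨k, ?_⟩
    have h2 := hF (q.map (List.map (dd i)))
    rw [← hk] at h2
    have h3 : (fun l => (q.map (List.map (dd i))).getD l []) = cq (dd i) q := by
      funext l
      unfold cq
      have := List.getD_map (l := q) (d := []) (n := l) (f := List.map (dd i))
      simpa using this
    rw [h3, List.length_map] at h2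
    exact h2.symm
  choose h hh using hh
  obtain ⟨g, hgY, hg⟩ := hYd (fun e => match Encodable.decode (α := List (List ℕ)) e with
    | some q => h q
    | none => 0)
  have hg' : ∀ q : List (List ℕ), h q ≤ g (Encodable.encode q) := by
    intro q
    have := hg (Encodable.encode q)
    simpa using this
  -- the extra node
  obtain ⟨A, hA⟩ : ∃ A, A = AA δ N i g := ⟨_, rfl⟩
  have hvX : vv D t0 τ δ (al δ N) (be δ N) j0 (cc (dd i) g A) ∈ X δ :=
    ⟨hδ, ⟨⟨N⟩, i, ⟨⟨g, hgY⟩⟩⟩, by rw [hA]⟩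
  let v : V D IsLim t0 X := ⟨(δ, vv D t0 τ δ (al δ N) (be δ N) j0 (cc (dd i) g A)), Or.inr hvX⟩
  have hyrk : D.rk (f v) = δ := hf.rk v
  refine hAA δ N i g (f v) hyrk ?_
  rw [← hA]
  -- the values of `f` on the initial segments
  have hval : ∀ n, D.res (f v) (al δ N n) =
      τ (al δ N n) (dd i (h (qq g A n))) := by
    intro n
    have h1 : (VD D IsLim t0 X hX).res v (al δ N n) = nd (cq (dd i) (qq g A n)) n := by
      apply Subtype.ext
      rw [VD_res_val hX v _ (hL.lt n).le]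
      change (al δ N n, trunc t0 (al δ N n) (vv D t0 τ δ (al δ N) (be δ N) j0 (cc (dd i) g A))) =
        (al δ N n, trunc t0 (al δ N n)
          (vv D t0 τ δ (al δ N) (be δ N) j0 (cq (dd i) (qq g A n))))
      congr 1
      exact vv_trunc_congr hL (fun l hl => (cq_qq (dd i) g A n l hl).symm)
    have h2 := hh (qq g A n)
    rw [qq_length] at h2
    rw [← hf.res v _ (hL.lt n).le, h1, h2]
  intro n
  constructor
  · intro hAn
    refine ⟨h (qq g A n ++ [[]]), hg' _, ?_⟩
    have h1 : qq g A (n + 1) = qq g A n ++ [[]] := by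
      change qq g A n ++ [blkc g (A n) (qq g A n)] = _
      rw [hAn]
      rfl
    rw [← h1]
    exact hval (n + 1)
  · rintro ⟨k, hk, hky⟩
    by_contra hne
    have hAn : A n = true := by
      cases hx : A n
      · exact absurd hx hne
      · rfl
    have hcc : cc (dd i) g A n =
        (List.range (g (Encodable.encode (qq g A n ++ [[]])) + 1)).map (dd i) := by
      unfold cc blkc
      rw [hAn]
      rfl
    have hlen : k < (cc (dd i) g A n).length := by
      rw [hcc, List.length_map, List.length_range]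
      omega
    have hget : (cc (dd i) g A n).getD k j0 = dd i k := by
      rw [List.getD_eq_getElem _ _ hlen]
      simp [hcc]
    obtain ⟨b, hb, hfol⟩ := vv_follows (D := D) (t0 := t0) (τ := τ) (j0 := j0)
      (c := cc (dd i) g A) hL (n := n) (r := k) (y := f v)
      (by rw [hyrk]; exact (hL.lt _).le) hlen (by rw [hget]; exact hky)
    exact hφ v (be δ N n k) ((hL.ub n k).trans (hL.lt _)) (hcl n k) b hb hfol

end Main

end Pool.Agent.UnivA
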